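import Mathlib
import Pool.Agent.TH277.HT.D
set_option autoImplicit false
set_option linter.unusedSectionVars false

/-! `L^2` and `L^4` identities for the Fourier transform; Parseval's formula. -/

namespace Pool.Agent.P8H66.QP

open MeasureTheory Set Complex FourierTransform
open Pool.Agent.TH277.HT (ch ch_norm ch_enorm ch_add ch_conj ch_cont plancherel fourier_ae_eq)
open scoped ENNReal NNReal RealInnerProductSpace Convolution

variable {V : Type*} [NormedAddCommGroup V] [InnerProductSpace ℝ V] [MeasurableSpace V]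
  [BorelSpace V] [FiniteDimensional ℝ V]

/-- the Fourier integral -/
noncomputable def UU (F : V → ℂ) (x : V) : ℂ := ∫ ξ, ch ⟪ξ, x⟫ * F ξ

/-- the autocorrelation -/
noncomputable def AA (F : V → ℂ) (h : V) : ℂ :=
  ∫ ξ, F (ξ + (1 / 2 : ℝ) • h) * (starRingEnd ℂ) (F (ξ - (1 / 2 : ℝ) • h))

lemma UU_eq (F : V → ℂ) (x : V) : UU F x = 𝓕 F (-x) := by
  rw [Real.fourier_eq]
  unfold UU
  apply integral_congr_ae
  refine ae_of_all _ fun u => ?_
  simp only
  rw [Circle.smul_def, Real.fourierChar_apply, smul_eq_mul]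
  congr 1
  unfold ch
  congr 1
  rw [inner_neg_right]
  push_cast
  ring

lemma planchV (F : V → ℂ) (h1 : Integrable F) (h2 : MemLp F 2) :
    ∫⁻ x : V, ‖UU F x‖ₑ ^ 2 = ∫⁻ u, ‖F u‖ₑ ^ 2 := by
  rw [← plancherel F h1 h2, ← lintegral_neg_eq_self (fun ξ => ‖𝓕 F ξ‖ₑ ^ 2)]
  apply lintegral_congr
  intro x
  rw [UU_eq]

lemma memLp_two_of_bdd {F : V → ℂ} (hF : Integrable F) {C : ℝ} (hb : ∀ ξ, ‖F ξ‖ ≤ C) :
    MemLp F 2 := by
  refine ⟨hF.aestronglyMeasurable, ?_⟩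
  have hC : 0 ≤ C := (norm_nonneg (F 0)).trans (hb 0)
  have h1 := eLpNorm_nnreal_pow_eq_lintegral (f := F) (μ := (volume : Measure V)) (p := 2)
    (by norm_num)
  have h2 : ∫⁻ x, ‖F x‖ₑ ^ ((2 : ℝ≥0) : ℝ) ≤ ENNReal.ofReal C * ∫⁻ x, ‖F x‖ₑ := by
    rw [← lintegral_const_mul' _ _ ENNReal.ofReal_ne_top]
    refine lintegral_mono fun x => ?_
    simp only [NNReal.coe_ofNat, ENNReal.rpow_ofNat]
    rw [pow_two]
    gcongr
    rw [← ofReal_norm]
    exact ENNReal.ofReal_le_ofReal (hb x)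
  have h3 : ∫⁻ x, ‖F x‖ₑ ^ ((2 : ℝ≥0) : ℝ) < ∞ :=
    lt_of_le_of_lt h2 (ENNReal.mul_lt_top ENNReal.ofReal_lt_top hF.2)
  rw [← h1] at h3
  have h4 : eLpNorm F ((2 : ℝ≥0) : ℝ≥0∞) volume < ∞ := by
    by_contra hc
    rw [not_lt, top_le_iff] at hc
    rw [hc] at h3
    simp at h3
  simpa using h4

/-- the `L^4` identity -/
lemma L4 (F : V → ℂ) (hF : Integrable F) (hb : ∀ ξ, ‖F ξ‖ ≤ 1) :
    ∫⁻ x : V, ‖UU F x‖ₑ ^ 4 = ∫⁻ h : V, ‖AA F h‖ₑ ^ 2 := by
  set G : V → ℂ := fun ξ => (starRingEnd ℂ) (F (-ξ)) with hG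
  have hGi : Integrable G := by
    have h1 : Integrable fun ξ => F (-ξ) := hF.comp_neg
    exact (integrable_norm_iff (by
      exact (Complex.continuous_conj.comp_aestronglyMeasurable h1.aestronglyMeasurable))).1
      (by simpa [hG] using h1.norm)
  set K : V → ℂ := F ⋆[ContinuousLinearMap.mul ℂ ℂ] G with hK
  have hKi : Integrable K := hF.integrable_convolution _ hGi
  have hKe : ∀ h, K h = AA F h := by
    intro h
    rw [hK]
    unfold convolution AA
    simp only [ContinuousLinearMap.mul_apply', hG]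
    rw [← integral_add_right_eq_self _ ((1 / 2 : ℝ) • h)]
    apply integral_congr_ae
    refine ae_of_all _ fun ξ => ?_
    simp only
    congr 3
    have h2 : h = (1 / 2 : ℝ) • h + (1 / 2 : ℝ) • h := by
      rw [← add_smul]
      norm_num
    nth_rewrite 1 [h2]
    abel
  have hKb : ∀ h, ‖K h‖ ≤ ∫ ξ, ‖F ξ‖ := by
    intro h
    rw [hK]
    unfold convolution
    simp only [ContinuousLinearMap.mul_apply']
    refine (norm_integral_le_integral_norm _).trans ?_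
    refine integral_mono_of_nonneg (ae_of_all _ fun _ => norm_nonneg _) hF.norm
      (ae_of_all _ fun ξ => ?_)
    simp only
    rw [norm_mul]
    have h3 : ‖G (h - ξ)‖ ≤ 1 := by
      simp only [hG, RCLike.norm_conj]
      exact hb _
    calc ‖F ξ‖ * ‖G (h - ξ)‖ ≤ ‖F ξ‖ * 1 := by gcongr
      _ = _ := mul_one _
  have hft : ∀ x, 𝓕 K x = 𝓕 F x * (starRingEnd ℂ) (𝓕 F x) := by
    intro x
    rw [hK, Real.fourier_mul_convolution_eq hF hGi]
    congr 1
    rw [Real.fourier_eq, Real.fourier_eq, ← integral_conj,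
      ← integral_neg_eq_self (fun v => Real.fourierChar (-⟪v, x⟫) • G v)]
    apply integral_congr_ae
    refine ae_of_all _ fun ξ => ?_
    simp only [hG, neg_neg, Circle.smul_def, smul_eq_mul, map_mul]
    congr 1
    rw [Real.fourierChar_apply, Real.fourierChar_apply, ← Complex.exp_conj]
    congr 1
    simp only [map_mul, Complex.conj_I, Complex.conj_ofReal, inner_neg_left]
    push_cast
    ring
  have h5 : ∀ x, ‖UU F x‖ₑ ^ 4 = ‖𝓕 K (-x)‖ₑ ^ 2 := by
    intro x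
    rw [UU_eq, hft, enorm_mul]
    have : ‖(starRingEnd ℂ) (𝓕 F (-x))‖ₑ = ‖𝓕 F (-x)‖ₑ := by
      rw [← ofReal_norm, RCLike.norm_conj, ofReal_norm]
    rw [this]
    ring
  simp only [h5]
  rw [lintegral_neg_eq_self (fun x => ‖𝓕 K x‖ₑ ^ 2), plancherel K hKi (memLp_two_of_bdd hKi hKb)]
  simp only [hKe]

/-- Parseval's formula. -/
lemma parseval (f g : V → ℂ) (hf : Integrable f) (hg : Integrable g) (hf2 : MemLp f 2)
    (hg2 : MemLp g 2) :
    ∫ ξ, (starRingEnd ℂ) (𝓕 f ξ) * 𝓕 g ξ = ∫ x, (starRingEnd ℂ) (f x) * g x := by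
  have h1 := Lp.inner_fourier_eq (hf2.toLp f) (hg2.toLp g)
  rw [L2.inner_def, L2.inner_def] at h1
  have e1 := fourier_ae_eq f hf hf2
  have e2 := fourier_ae_eq g hg hg2
  have h2 : ∫ ξ, (starRingEnd ℂ) (𝓕 f ξ) * 𝓕 g ξ =
      ∫ ξ, inner ℂ ((𝓕 (hf2.toLp f) : Lp ℂ 2 (volume : Measure V)) ξ)
        ((𝓕 (hg2.toLp g) : Lp ℂ 2 (volume : Measure V)) ξ) := by
    apply integral_congr_ae
    filter_upwards [e1, e2] with ξ a1 a2
    rw [a1, a2]
    simp [mul_comm]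
  have h3 : ∫ ξ, inner ℂ ((hf2.toLp f : V → ℂ) ξ) ((hg2.toLp g : V → ℂ) ξ) =
      ∫ x, (starRingEnd ℂ) (f x) * g x := by
    apply integral_congr_ae
    filter_upwards [hf2.coeFn_toLp, hg2.coeFn_toLp] with ξ a1 a2
    rw [a1, a2]
    simp [mul_comm]
  rw [h2, ← h3]
  exact h1

end Pool.Agent.P8H66.QP
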