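import Mathlib
import Pool.Agent.P8H66.QP.A
set_option autoImplicit false
set_option linter.unusedSectionVars false

/-! One dimensional functions. -/

namespace Pool.Agent.P8H66.QP

open MeasureTheory Set Complex FourierTransform
open Pool.Agent.TH277.HT (ch ch_norm ch_enorm ch_add ch_conj ch_cont plancherel fourier_ae_eq planch1)
open scoped ENNReal NNReal RealInnerProductSpace

/-- the Gaussian `exp(-2πu²)` -/
noncomputable def gs (u : ℝ) : ℂ := ((Real.exp (-(2 * Real.pi * u ^ 2)) : ℝ) : ℂ)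

/-- the Gaussian `exp(-πu²)` -/
noncomputable def gg (u : ℝ) : ℝ≥0∞ := ENNReal.ofReal (Real.exp (-(Real.pi * u ^ 2)))

lemma gs_cont : Continuous gs := by unfold gs; fun_prop

lemma gs_norm (u : ℝ) : ‖gs u‖ = Real.exp (-(2 * Real.pi * u ^ 2)) := by
  unfold gs
  rw [Complex.norm_real, Real.norm_eq_abs, abs_of_pos (Real.exp_pos _)]

lemma gs_le (u : ℝ) : ‖gs u‖ ≤ 1 := by
  rw [gs_norm, Real.exp_le_one_iff]
  have := Real.pi_pos
  nlinarith [sq_nonneg u]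

lemma lint_gauss (b : ℝ) (hb : 0 < b) :
    ∫⁻ u : ℝ, ENNReal.ofReal (Real.exp (-(b * u ^ 2))) = ENNReal.ofReal (Real.sqrt (Real.pi / b)) := by
  rw [← integral_gaussian b]
  rw [ofReal_integral_eq_lintegral_ofReal]
  · simp only [neg_mul]
  · simpa only [neg_mul] using integrable_exp_neg_mul_sq hb
  · exact ae_of_all _ fun u => (Real.exp_pos _).le

lemma gg_int : ∫⁻ u, gg u = 1 := by
  unfold gg
  rw [lint_gauss _ Real.pi_pos, div_self Real.pi_pos.ne']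
  simp

lemma gg_le (u : ℝ) : gg u ≤ 1 := by
  unfold gg
  rw [ENNReal.ofReal_le_one, Real.exp_le_one_iff]
  have := Real.pi_pos
  nlinarith [sq_nonneg u]

lemma gg_meas : Measurable gg := by unfold gg; fun_prop

lemma gs_lint : ∫⁻ u, ‖gs u‖ₑ ≤ 1 := by
  have h1 : ∀ u, ‖gs u‖ₑ = ENNReal.ofReal (Real.exp (-(2 * Real.pi * u ^ 2))) := by
    intro u
    rw [← ofReal_norm, gs_norm]
  simp only [h1]
  rw [lint_gauss _ (by positivity)]
  rw [ENNReal.ofReal_le_one, Real.sqrt_le_one]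
  rw [div_le_one (by positivity)]
  linarith [Real.pi_pos]

lemma gs_lint2 : ∫⁻ u, ‖gs u‖ₑ ^ 2 ≤ 1 := by
  refine le_trans (lintegral_mono fun u => ?_) gs_lint
  rw [pow_two]
  calc ‖gs u‖ₑ * ‖gs u‖ₑ ≤ ‖gs u‖ₑ * 1 := by
        gcongr
        rw [← ofReal_norm, ENNReal.ofReal_le_one]
        exact gs_le u
    _ = _ := mul_one _

lemma gs_int : Integrable gs :=
  ⟨gs_cont.aestronglyMeasurable, lt_of_le_of_lt gs_lint ENNReal.one_lt_top⟩

/-- measurable functions with values in the unit disc -/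
structure Bd (a : ℝ → ℂ) : Prop where
  meas : Measurable a
  bd : ∀ u, ‖a u‖ ≤ 1

/-- the product `a(u + h/2) conj a(u - h/2) exp(-2πu²)` -/
noncomputable def pr (a : ℝ → ℂ) (h u : ℝ) : ℂ :=
  a (u + h / 2) * (starRingEnd ℂ) (a (u - h / 2)) * gs u

lemma pr_meas {a : ℝ → ℂ} (ha : Bd a) : Measurable fun p : ℝ × ℝ => pr a p.1 p.2 := by
  unfold pr
  have h1 := ha.meas
  have h2 : Measurable fun p : ℝ × ℝ => a (p.2 + p.1 / 2) := h1.comp (by fun_prop)
  have h3 : Measurable fun p : ℝ × ℝ => (starRingEnd ℂ) (a (p.2 - p.1 / 2)) :=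
    Complex.continuous_conj.measurable.comp (h1.comp (by fun_prop))
  exact (h2.mul h3).mul (gs_cont.measurable.comp measurable_snd)

lemma pr_measu {a : ℝ → ℂ} (ha : Bd a) (h : ℝ) : Measurable (pr a h) :=
  (pr_meas ha).comp (by fun_prop : Measurable fun u : ℝ => (h, u))

lemma pr_le {a : ℝ → ℂ} (ha : Bd a) (h u : ℝ) : ‖pr a h u‖ ≤ ‖gs u‖ := by
  unfold pr
  rw [norm_mul, norm_mul, RCLike.norm_conj]
  have h1 := ha.bd (u + h / 2)
  have h2 := ha.bd (u - h / 2)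
  calc ‖a (u + h / 2)‖ * ‖a (u - h / 2)‖ * ‖gs u‖ ≤ 1 * 1 * ‖gs u‖ := by gcongr
    _ = _ := by ring

lemma pr_int {a : ℝ → ℂ} (ha : Bd a) (h : ℝ) : Integrable (pr a h) :=
  gs_int.mono (pr_measu ha h).aestronglyMeasurable (ae_of_all _ fun u => pr_le ha h u)

/-- the squared modulus of the transform of `pr` -/
noncomputable def Phi (a : ℝ → ℂ) (h ω : ℝ) : ℝ≥0∞ := ‖∫ u, ch (u * ω) * pr a h u‖ₑ ^ 2

lemma Phi_meas {a : ℝ → ℂ} (ha : Bd a) : Measurable fun p : ℝ × ℝ => Phi a p.1 p.2 := by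
  unfold Phi
  have h1 : StronglyMeasurable (Function.uncurry fun (p : ℝ × ℝ) (u : ℝ) =>
      ch (u * p.2) * pr a p.1 u) := by
    apply Measurable.stronglyMeasurable
    apply Measurable.mul
    · exact (ch_cont.comp (by fun_prop : Continuous fun q : (ℝ × ℝ) × ℝ => q.2 * q.1.2)).measurable
    · exact (pr_meas ha).comp (by fun_prop : Measurable fun q : (ℝ × ℝ) × ℝ => (q.1.1, q.2))
  exact (h1.integral_prod_right (ν := (volume : Measure ℝ))).measurable.enorm.pow_const 2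

lemma Phi_le {a : ℝ → ℂ} (ha : Bd a) (h ω : ℝ) : Phi a h ω ≤ 1 := by
  unfold Phi
  have h1 : ‖∫ u, ch (u * ω) * pr a h u‖ₑ ≤ 1 := by
    refine (enorm_integral_le_lintegral_enorm _).trans ?_
    refine le_trans (lintegral_mono fun u => ?_) gs_lint
    rw [enorm_mul, ch_enorm, one_mul, ← ofReal_norm, ← ofReal_norm]
    exact ENNReal.ofReal_le_ofReal (pr_le ha h u)
  calc _ ≤ (1 : ℝ≥0∞) ^ 2 := by gcongr
    _ = 1 := one_pow 2

lemma Phi_int {a : ℝ → ℂ} (ha : Bd a) (h : ℝ) : ∫⁻ ω, Phi a h ω ≤ 1 := by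
  unfold Phi
  have h1 := planch1 (pr a h) (pr_int ha h)
    (memLp_two_of_bdd (pr_int ha h) (C := 1) fun u => (pr_le ha h u).trans (gs_le u))
  simp only [smul_eq_mul] at h1
  rw [h1]
  refine le_trans (lintegral_mono fun u => ?_) gs_lint2
  gcongr
  rw [← ofReal_norm, ← ofReal_norm]
  exact ENNReal.ofReal_le_ofReal (pr_le ha h u)

/-- the transform of the Gaussian -/
lemma gs_ft (κ : ℝ) : ‖∫ u, ch (u * (2 * κ)) * gs u‖ₑ ^ 2 ≤
    ENNReal.ofReal (Real.exp (-(4 * Real.pi * κ ^ 2))) := by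
  have hpi := Real.pi_pos
  have h1 : ∫ u : ℝ, ch (u * (2 * κ)) * gs u =
      ∫ u : ℝ, cexp (I * ((4 * Real.pi * κ : ℝ) : ℂ) * u) *
        cexp (-((2 * Real.pi : ℝ) : ℂ) * (u : ℂ) ^ 2) := by
    apply integral_congr_ae
    refine ae_of_all _ fun u => ?_
    simp only
    unfold ch gs
    rw [Complex.ofReal_exp]
    congr 2
    · push_cast
      ring
    · push_cast
      ring
  rw [h1, fourierIntegral_gaussian (by simpa using hpi)]
  have h2 : ‖((Real.pi : ℂ) / ((2 * Real.pi : ℝ) : ℂ)) ^ (1 / 2 : ℂ)‖ ≤ 1 := by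
    have h3 : ((Real.pi : ℂ) / ((2 * Real.pi : ℝ) : ℂ)) = ((1 / 2 : ℝ) : ℂ) := by
      push_cast
      field_simp
    rw [h3, Complex.norm_cpow_eq_rpow_re_of_pos (by norm_num)]
    apply Real.rpow_le_one (by norm_num) (by norm_num)
    norm_num
  have h4 : cexp (-((4 * Real.pi * κ : ℝ) : ℂ) ^ 2 / (4 * ((2 * Real.pi : ℝ) : ℂ))) =
      ((Real.exp (-(2 * Real.pi * κ ^ 2)) : ℝ) : ℂ) := by
    rw [Complex.ofReal_exp]
    congr 1
    push_cast
    have : (Real.pi : ℂ) ≠ 0 := by exact_mod_cast hpi.ne'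
    field_simp
    ring
  rw [h4, enorm_mul, mul_pow]
  have h5 : ‖((Real.pi : ℂ) / ((2 * Real.pi : ℝ) : ℂ)) ^ (1 / 2 : ℂ)‖ₑ ≤ 1 := by
    rw [← ofReal_norm, ENNReal.ofReal_le_one]
    exact h2
  have h6 : ‖((Real.exp (-(2 * Real.pi * κ ^ 2)) : ℝ) : ℂ)‖ₑ ^ 2 =
      ENNReal.ofReal (Real.exp (-(4 * Real.pi * κ ^ 2))) := by
    rw [← ofReal_norm, Complex.norm_real, Real.norm_eq_abs, abs_of_pos (Real.exp_pos _),
      ← ENNReal.ofReal_pow (Real.exp_pos _).le, ← Real.exp_nat_mul]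
    congr 2
    push_cast
    ring
  rw [h6]
  calc _ ≤ 1 ^ 2 * ENNReal.ofReal (Real.exp (-(4 * Real.pi * κ ^ 2))) := by gcongr
    _ = _ := by simp

end Pool.Agent.P8H66.QP
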