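import Mathlib
import Pool.Agent.P8H66.QP.B
set_option autoImplicit false
set_option linter.unusedSectionVars false

/-! The autocorrelation of a rough function of one coordinate times a quadratic phase. -/

namespace Pool.Agent.P8H66.QP

open MeasureTheory Set Complex FourierTransform
open Pool.Agent.TH277.HT (ch ch_norm ch_enorm ch_add ch_conj ch_cont plancherel fourier_ae_eq planch1)
open scoped ENNReal NNReal RealInnerProductSpace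

variable {m : ℕ}

/-- the quadratic phase -/
noncomputable def Qf (β b : Fin m → ℝ) (t : ℝ) (ξ : EuclideanSpace ℝ (Fin (m + 1))) : ℝ :=
  t * ξ 0 ^ 2 + ∑ i, (2 * β i * (ξ 0 * ξ i.succ) + (t + b i) * ξ i.succ ^ 2)

/-- the function `a(ξ_0) exp(-π|ξ|²) e(Q(ξ))` -/
noncomputable def FF (a : ℝ → ℂ) (β b : Fin m → ℝ) (t : ℝ)
    (ξ : EuclideanSpace ℝ (Fin (m + 1))) : ℂ :=
  a (ξ 0) * ((Real.exp (-(Real.pi * ∑ j, ξ j ^ 2)) : ℝ) : ℂ) * ch (Qf β b t ξ)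

/-- the first dual variable -/
noncomputable def k0 (β : Fin m → ℝ) (t : ℝ) (h : Fin (m + 1) → ℝ) : ℝ :=
  t * h 0 + ∑ i, β i * h i.succ

/-- the other dual variables -/
noncomputable def ki (β b : Fin m → ℝ) (t : ℝ) (h : Fin (m + 1) → ℝ) (i : Fin m) : ℝ :=
  β i * h 0 + (t + b i) * h i.succ

/-- the weight -/
noncomputable def ww (κ : ℝ) : ℝ≥0∞ := ENNReal.ofReal (Real.exp (-(4 * Real.pi * κ ^ 2)))

lemma Qf_diff (β b : Fin m → ℝ) (t : ℝ) (ξ h : EuclideanSpace ℝ (Fin (m + 1))) :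
    Qf β b t (ξ + (1 / 2 : ℝ) • h) - Qf β b t (ξ - (1 / 2 : ℝ) • h) =
      ξ 0 * (2 * k0 β t h) + ∑ i, ξ i.succ * (2 * ki β b t h i) := by
  unfold Qf k0 ki
  simp only [PiLp.add_apply, PiLp.sub_apply, PiLp.smul_apply, smul_eq_mul]
  rw [show ∀ A B C D : ℝ, A + B - (C + D) = (A - C) + (B - D) by intros; ring,
    ← Finset.sum_sub_distrib]
  have h1 : ξ 0 * (2 * (t * h 0 + ∑ i, β i * h i.succ)) =
      2 * ξ 0 * (t * h 0) + ∑ i, 2 * ξ 0 * (β i * h i.succ) := by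
    rw [← Finset.mul_sum]
    ring
  rw [h1, add_assoc, ← Finset.sum_add_distrib]
  congr 1
  · ring
  · refine Finset.sum_congr rfl fun i _ => ?_
    ring

/-- the factors -/
noncomputable def fac (a : ℝ → ℂ) (β b : Fin m → ℝ) (t : ℝ) (h : Fin (m + 1) → ℝ) :
    Fin (m + 1) → ℝ → ℂ :=
  Fin.cons (fun u => ch (u * (2 * k0 β t h)) * pr a (h 0) u)
    (fun i u => ch (u * (2 * ki β b t h i)) * gs u)

lemma ch_sum' {ι : Type*} (s : Finset ι) (f : ι → ℝ) : ch (∑ j ∈ s, f j) = ∏ j ∈ s, ch (f j) :=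
  Pool.Agent.TH277.HT.ch_sum s f

lemma prod_eq (a : ℝ → ℂ) (β b : Fin m → ℝ) (t : ℝ) (ξ h : EuclideanSpace ℝ (Fin (m + 1))) :
    FF a β b t (ξ + (1 / 2 : ℝ) • h) * (starRingEnd ℂ) (FF a β b t (ξ - (1 / 2 : ℝ) • h)) =
      ((Real.exp (-(Real.pi / 2 * ∑ j, h j ^ 2)) : ℝ) : ℂ) * ∏ j, fac a β b t h j (ξ j) := by
  unfold FF
  simp only [map_mul, Complex.conj_ofReal, ch_conj]
  have e1 : ch (Qf β b t (ξ + (1 / 2 : ℝ) • h)) * ch (-Qf β b t (ξ - (1 / 2 : ℝ) • h)) =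
      ch (ξ 0 * (2 * k0 β t h)) * ∏ i : Fin m, ch (ξ i.succ * (2 * ki β b t h i)) := by
    rw [← ch_add, ← sub_eq_add_neg, Qf_diff, ch_add, ch_sum']
  have e2 : Real.exp (-(Real.pi * ∑ j, (ξ + (1 / 2 : ℝ) • h) j ^ 2)) *
      Real.exp (-(Real.pi * ∑ j, (ξ - (1 / 2 : ℝ) • h) j ^ 2)) =
      Real.exp (-(Real.pi / 2 * ∑ j, h j ^ 2)) * ∏ j, Real.exp (-(2 * Real.pi * ξ j ^ 2)) := by
    rw [← Real.exp_sum, ← Real.exp_add, ← Real.exp_add]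
    congr 1
    simp only [PiLp.add_apply, PiLp.sub_apply, PiLp.smul_apply, smul_eq_mul, Finset.mul_sum]
    rw [← Finset.sum_neg_distrib, ← Finset.sum_neg_distrib, ← Finset.sum_neg_distrib,
      ← Finset.sum_add_distrib, ← Finset.sum_add_distrib]
    refine Finset.sum_congr rfl fun i _ => ?_
    ring
  have e3 : ∏ j, fac a β b t h j (ξ j) =
      (ch (ξ 0 * (2 * k0 β t h)) * pr a (h 0) (ξ 0)) *
        ∏ i : Fin m, (ch (ξ i.succ * (2 * ki β b t h i)) * gs (ξ i.succ)) := by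
    rw [Fin.prod_univ_succ]
    unfold fac
    simp
  rw [e3]
  have e4 : ∏ i : Fin m, (ch (ξ i.succ * (2 * ki β b t h i)) * gs (ξ i.succ)) =
      (∏ i : Fin m, ch (ξ i.succ * (2 * ki β b t h i))) * ∏ i : Fin m, gs (ξ i.succ) :=
    Finset.prod_mul_distrib
  rw [e4]
  have e5 : ((∏ j, Real.exp (-(2 * Real.pi * ξ j ^ 2)) : ℝ) : ℂ) =
      gs (ξ 0) * ∏ i : Fin m, gs (ξ i.succ) := by
    rw [Complex.ofReal_prod, Fin.prod_univ_succ]
    rfl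
  have e2' : ((Real.exp (-(Real.pi * ∑ j, (ξ + (1 / 2 : ℝ) • h) j ^ 2)) : ℝ) : ℂ) *
      ((Real.exp (-(Real.pi * ∑ j, (ξ - (1 / 2 : ℝ) • h) j ^ 2)) : ℝ) : ℂ) =
      ((Real.exp (-(Real.pi / 2 * ∑ j, h j ^ 2)) : ℝ) : ℂ) *
        (gs (ξ 0) * ∏ i : Fin m, gs (ξ i.succ)) := by
    rw [← Complex.ofReal_mul, e2, Complex.ofReal_mul, e5]
  have e6 : pr a (h 0) (ξ 0) = a ((ξ + (1 / 2 : ℝ) • h) 0) *
      (starRingEnd ℂ) (a ((ξ - (1 / 2 : ℝ) • h) 0)) * gs (ξ 0) := by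
    unfold pr
    simp only [PiLp.add_apply, PiLp.sub_apply, PiLp.smul_apply, smul_eq_mul]
    rw [show (1 / 2 : ℝ) * h 0 = h 0 / 2 by ring]
  rw [e6]
  set A1 := a ((ξ + (1 / 2 : ℝ) • h) 0)
  set A2 := (starRingEnd ℂ) (a ((ξ - (1 / 2 : ℝ) • h) 0))
  set G1 := ((Real.exp (-(Real.pi * ∑ j, (ξ + (1 / 2 : ℝ) • h) j ^ 2)) : ℝ) : ℂ)
  set G2 := ((Real.exp (-(Real.pi * ∑ j, (ξ - (1 / 2 : ℝ) • h) j ^ 2)) : ℝ) : ℂ)
  set C1 := ch (Qf β b t (ξ + (1 / 2 : ℝ) • h))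
  set C2 := ch (-Qf β b t (ξ - (1 / 2 : ℝ) • h))
  calc A1 * G1 * C1 * (A2 * G2 * C2) = A1 * A2 * (G1 * G2) * (C1 * C2) := by ring
    _ = _ := by
        rw [e1, e2']
        ring

lemma AA_bd {a : ℝ → ℂ} (ha : Bd a) (β b : Fin m → ℝ) (t : ℝ)
    (h : EuclideanSpace ℝ (Fin (m + 1))) :
    ‖AA (FF a β b t) h‖ₑ ^ 2 ≤ (∏ j, gg (h j)) * (Phi a (h 0) (2 * k0 β t h) *
      ∏ i, ww (ki β b t h i)) := by
  unfold AA
  simp only [prod_eq]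
  rw [integral_const_mul]
  have h1 := (PiLp.volume_preserving_toLp (Fin (m + 1))).integral_comp
    (MeasurableEquiv.toLp 2 (Fin (m + 1) → ℝ)).measurableEmbedding
    (fun ξ : EuclideanSpace ℝ (Fin (m + 1)) => ∏ j, fac a β b t h j (ξ j))
  rw [← h1]
  have h2 : ∫ x : Fin (m + 1) → ℝ, ∏ j, fac a β b t h j ((WithLp.toLp 2 x : EuclideanSpace ℝ (Fin (m + 1))) j)
      = ∏ j, ∫ x, fac a β b t h j x := by
    simp only [PiLp.toLp_apply]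
    exact integral_fintype_prod_volume_eq_prod _
  rw [h2, Fin.prod_univ_succ]
  simp only [fac, Fin.cons_zero, Fin.cons_succ]
  rw [enorm_mul, enorm_mul, mul_pow, mul_pow]
  have h3 : ‖((Real.exp (-(Real.pi / 2 * ∑ j, h j ^ 2)) : ℝ) : ℂ)‖ₑ ^ 2 = ∏ j, gg (h j) := by
    rw [← ofReal_norm, Complex.norm_real, Real.norm_eq_abs, abs_of_pos (Real.exp_pos _),
      ← ENNReal.ofReal_pow (Real.exp_pos _).le, ← Real.exp_nat_mul]
    unfold gg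
    rw [← ENNReal.ofReal_prod_of_nonneg (fun _ _ => (Real.exp_pos _).le), ← Real.exp_sum]
    congr 2
    rw [Finset.sum_neg_distrib, ← Finset.mul_sum]
    push_cast
    ring
  rw [h3]
  have h4 : ‖∏ i : Fin m, ∫ u, ch (u * (2 * ki β b t h i)) * gs u‖ₑ ^ 2 ≤
      ∏ i, ww (ki β b t h i) := by
    have h5 : ‖∏ i : Fin m, ∫ u, ch (u * (2 * ki β b t h i)) * gs u‖ₑ =
        ∏ i : Fin m, ‖∫ u, ch (u * (2 * ki β b t h i)) * gs u‖ₑ := by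
      rw [← ofReal_norm, norm_prod, ENNReal.ofReal_prod_of_nonneg (fun _ _ => norm_nonneg _)]
      simp only [ofReal_norm]
    rw [h5, ← Finset.prod_pow]
    exact Finset.prod_le_prod' fun i _ => gs_ft _
  unfold Phi
  gcongr

end Pool.Agent.P8H66.QP
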