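import Mathlib
import Pool.Agent.P8H66.QP.C
set_option autoImplicit false
set_option linter.unusedSectionVars false

/-! The change of variables in time. -/

namespace Pool.Agent.P8H66.QP

open MeasureTheory Set
open Pool.Agent.TH277.HT (lint_mul lint_pi)
open scoped ENNReal NNReal

variable {m : ℕ}

/-- the phase function after integration in the smooth variables -/
noncomputable def om (β b κ : Fin m → ℝ) (h0 t : ℝ) : ℝ :=
  t * h0 + ∑ i, β i * (κ i - β i * h0) / (t + b i)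

/-- its derivative -/
noncomputable def dom (β b κ : Fin m → ℝ) (h0 t : ℝ) : ℝ :=
  h0 - ∑ i, β i * (κ i - β i * h0) / (t + b i) ^ 2

lemma om_deriv (β b κ : Fin m → ℝ) (h0 t : ℝ) (ht : ∀ i, t + b i ≠ 0) :
    HasDerivAt (om β b κ h0) (dom β b κ h0 t) t := by
  have h1 : ∀ i ∈ (Finset.univ : Finset (Fin m)),
      HasDerivAt (fun t => β i * (κ i - β i * h0) / (t + b i))
        (-(β i * (κ i - β i * h0) / (t + b i) ^ 2)) t := by
    intro i _
    have h2 : HasDerivAt (fun t : ℝ => t + b i) 1 t := (hasDerivAt_id t).add_const _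
    refine ((hasDerivAt_const t (β i * (κ i - β i * h0))).div h2 (ht i)).congr_deriv ?_
    rw [zero_mul, mul_one, zero_sub, neg_div]
  have h4 := HasDerivAt.fun_sum h1
  have h5 : HasDerivAt (fun t : ℝ => t * h0) h0 t := by
    simpa using (hasDerivAt_id t).mul_const h0
  refine (h5.fun_add h4).congr_deriv ?_
  unfold dom
  rw [Finset.sum_neg_distrib, sub_eq_add_neg]

lemma term_ge (M h0 β κ τ : ℝ) (hM : 1 ≤ M) (hτ : 1 ≤ |τ|) (hκ : |κ| * M ≤ |h0| * |τ|) :
    -(h0 ^ 2 / (2 * M)) ≤ -(h0 * (β * (κ - β * h0) / τ ^ 2)) := by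
  have hτ0 : τ ≠ 0 := by
    intro h
    rw [h, abs_zero] at hτ
    linarith
  set x := β / τ with hx
  set y := κ / τ with hy
  have h1 : -(h0 * (β * (κ - β * h0) / τ ^ 2)) = h0 ^ 2 * x ^ 2 - h0 * (x * y) := by
    rw [hx, hy]
    field_simp
    ring
  have h2 : |y| * M ≤ |h0| := by
    rw [hy, abs_div, div_mul_eq_mul_div, div_le_iff₀ (by linarith)]
    exact hκ
  have hM0 : 0 < M := by linarith
  have h3 : |h0 * (x * y)| * M ≤ h0 ^ 2 * |x| := by
    rw [abs_mul, abs_mul, ← sq_abs h0]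
    calc |h0| * (|x| * |y|) * M = |h0| * |x| * (|y| * M) := by ring
      _ ≤ |h0| * |x| * |h0| := by gcongr
      _ = _ := by ring
  have h4 : h0 * (x * y) ≤ h0 ^ 2 * |x| / M := by
    rw [le_div_iff₀ hM0]
    exact (mul_le_mul_of_nonneg_right (le_abs_self _) hM0.le).trans h3
  have h5 : h0 ^ 2 * |x| / M ≤ h0 ^ 2 * x ^ 2 + h0 ^ 2 / (2 * M) := by
    rw [div_le_iff₀ hM0]
    have e : (h0 ^ 2 * x ^ 2 + h0 ^ 2 / (2 * M)) * M = h0 ^ 2 * (x ^ 2 * M + 1 / 2) := by
      field_simp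
    rw [e]
    apply mul_le_mul_of_nonneg_left _ (sq_nonneg _)
    have h6 := sq_abs x
    nlinarith [sq_nonneg (|x| - 1), abs_nonneg x, sq_nonneg (|x| - 1 / 2)]
  rw [h1]
  linarith

lemma dom_ge (β b κ : Fin m → ℝ) (h0 t : ℝ) (ht : ∀ i, 1 ≤ |t + b i|)
    (hκ : ∀ i, |κ i| * (m + 1) ≤ |h0| * |t + b i|) :
    h0 ^ 2 / 2 ≤ h0 * dom β b κ h0 t := by
  unfold dom
  rw [mul_sub, Finset.mul_sum, sub_eq_add_neg, ← Finset.sum_neg_distrib]
  have hm1 : (1 : ℝ) ≤ m + 1 := by
    have : (0 : ℝ) ≤ m := Nat.cast_nonneg m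
    linarith
  have h1 : ∑ i : Fin m, -(h0 ^ 2 / (2 * ((m : ℝ) + 1))) ≤
      ∑ i, -(h0 * (β i * (κ i - β i * h0) / (t + b i) ^ 2)) :=
    Finset.sum_le_sum fun i _ => term_ge _ _ _ _ _ hm1 (ht i) (hκ i)
  rw [Finset.sum_const, Finset.card_univ, Fintype.card_fin, nsmul_eq_mul] at h1
  have h2 : (m : ℝ) * -(h0 ^ 2 / (2 * ((m : ℝ) + 1))) ≥ -(h0 ^ 2 / 2) := by
    have hm0 : (0 : ℝ) ≤ m := Nat.cast_nonneg m
    have : (m : ℝ) * (h0 ^ 2 / (2 * ((m : ℝ) + 1))) ≤ h0 ^ 2 / 2 := by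
      rw [mul_div_assoc', div_le_div_iff₀ (by positivity) (by norm_num)]
      nlinarith [sq_nonneg h0]
    linarith
  nlinarith [sq_nonneg h0]

/-- sign of a pattern -/
def sg (s : Bool) : ℝ := if s then 1 else -1

lemma sg_abs (s : Bool) (x : ℝ) : sg s * x ≤ |x| := by
  cases s
  · simp only [sg]
    simpa using neg_le_abs x
  · simpa [sg] using le_abs_self x

/-- the set on which all `t + b_i` are large with signs given by `σ` -/
def Ts (b R : Fin m → ℝ) (σ : Fin m → Bool) : Set ℝ :=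
  {t | ∀ i, max 1 (R i) ≤ sg (σ i) * (t + b i)}

lemma Ts_meas (b R : Fin m → ℝ) (σ : Fin m → Bool) : MeasurableSet (Ts b R σ) := by
  unfold Ts
  rw [ofPred_forall]
  exact MeasurableSet.iInter fun i => measurableSet_le measurable_const (by fun_prop)

lemma Ts_conv (b R : Fin m → ℝ) (σ : Fin m → Bool) : Convex ℝ (Ts b R σ) := by
  intro x hx y hy p q hp hq hpq i
  have h1 := hx i
  have h2 := hy i
  simp only [smul_eq_mul]
  have e : sg (σ i) * (p * x + q * y + b i) =
      p * (sg (σ i) * (x + b i)) + q * (sg (σ i) * (y + b i)) := by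
    have : b i = (p + q) * b i := by rw [hpq, one_mul]
    calc sg (σ i) * (p * x + q * y + b i) = sg (σ i) * (p * x + q * y + (p + q) * b i) := by
          rw [← this]
      _ = _ := by ring
  rw [e]
  calc max 1 (R i) = p * max 1 (R i) + q * max 1 (R i) := by rw [← add_mul, hpq, one_mul]
    _ ≤ _ := by gcongr

/-- the integral over one piece -/
lemma piece (β b κ : Fin m → ℝ) (h0 : ℝ) (hh : h0 ≠ 0) (σ : Fin m → Bool) (Φ : ℝ → ℝ≥0∞)
    (hΦm : Measurable Φ) (hΦ : ∫⁻ ω, Φ ω ≤ 1) :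
    ∫⁻ t in Ts b (fun i => |κ i| * (m + 1) / |h0|) σ, Φ (2 * om β b κ h0 t) ≤
      ENNReal.ofReal (1 / |h0|) := by
  set D := Ts b (fun i => |κ i| * (m + 1) / |h0|) σ with hD
  have hh' : 0 < |h0| := abs_pos.2 hh
  have h1 : ∀ t ∈ D, ∀ i, 1 ≤ |t + b i| := fun t ht i =>
    ((le_max_left _ _).trans (ht i)).trans (sg_abs _ _)
  have h2 : ∀ t ∈ D, ∀ i, |κ i| * (m + 1) ≤ |h0| * |t + b i| := by
    intro t ht i
    have h3 := ((le_max_right _ _).trans (ht i)).trans (sg_abs _ _)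
    simp only at h3
    rw [div_le_iff₀ hh'] at h3
    linarith
  have h3 : ∀ t ∈ D, ∀ i, t + b i ≠ 0 := by
    intro t ht i h
    have := h1 t ht i
    rw [h, abs_zero] at this
    linarith
  have h4 : ∀ t ∈ D, HasDerivAt (om β b κ h0) (dom β b κ h0 t) t := fun t ht =>
    om_deriv _ _ _ _ _ (h3 t ht)
  have h5 : ∀ t ∈ D, h0 ^ 2 / 2 ≤ h0 * dom β b κ h0 t := fun t ht =>
    dom_ge _ _ _ _ _ (h1 t ht) (h2 t ht)
  have h6 : StrictMonoOn (fun t => h0 * om β b κ h0 t) D := by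
    apply strictMonoOn_of_deriv_pos (Ts_conv _ _ _)
    · intro t ht
      exact ((h4 t ht).continuousAt.continuousWithinAt).const_mul _ 
    · intro t ht
      have ht' := interior_subset ht
      rw [((h4 t ht').const_mul h0).deriv]
      have := h5 t ht'
      have : 0 < h0 ^ 2 := by positivity
      linarith
  have h7 : InjOn (fun t => 2 * om β b κ h0 t) D := by
    intro x hx y hy hxy
    apply h6.injOn hx hy
    simp only at hxy ⊢
    have : om β b κ h0 x = om β b κ h0 y := by linarith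
    rw [this]
  have h8 := lintegral_image_eq_lintegral_abs_deriv_mul (Ts_meas _ _ _)
    (fun t ht => ((h4 t ht).const_mul 2).hasDerivWithinAt) h7 Φ
  have h9 : ENNReal.ofReal |h0| * ∫⁻ t in D, Φ (2 * om β b κ h0 t) ≤ 1 := by
    rw [← lintegral_const_mul' _ _ ENNReal.ofReal_ne_top]
    calc ∫⁻ t in D, ENNReal.ofReal |h0| * Φ (2 * om β b κ h0 t)
        ≤ ∫⁻ t in D, ENNReal.ofReal |2 * dom β b κ h0 t| * Φ (2 * om β b κ h0 t) := by
          apply setLIntegral_mono' (Ts_meas _ _ _)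
          intro t ht
          refine mul_le_mul_left (ENNReal.ofReal_le_ofReal ?_) _
          have h10 := h5 t ht
          have h11 : h0 * dom β b κ h0 t ≤ |h0| * |dom β b κ h0 t| := by
            rw [← abs_mul]
            exact le_abs_self _
          have h12 : |h0| * |h0| ≤ |h0| * (2 * |dom β b κ h0 t|) := by
            rw [abs_mul_abs_self]
            nlinarith
          rw [abs_mul, abs_of_pos (two_pos : (0 : ℝ) < 2)]
          exact le_of_mul_le_mul_left h12 hh'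
      _ = ∫⁻ x in (fun t => 2 * om β b κ h0 t) '' D, Φ x := h8.symm
      _ ≤ ∫⁻ x, Φ x := setLIntegral_le_lintegral _ _
      _ ≤ 1 := hΦ
  have h13 : ENNReal.ofReal (1 / |h0|) * ENNReal.ofReal |h0| = 1 := by
    rw [← ENNReal.ofReal_mul (by positivity), one_div_mul_cancel hh'.ne', ENNReal.ofReal_one]
  calc ∫⁻ t in D, Φ (2 * om β b κ h0 t)
      = ENNReal.ofReal (1 / |h0|) * (ENNReal.ofReal |h0| * ∫⁻ t in D, Φ (2 * om β b κ h0 t)) := by
        rw [← mul_assoc, h13, one_mul]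
    _ ≤ ENNReal.ofReal (1 / |h0|) * 1 := by gcongr
    _ = _ := mul_one _

/-- the set on which all `|t + b_i|` are at least one -/
def T1 (b : Fin m → ℝ) : Set ℝ := {t | ∀ i, 1 ≤ |t + b i|}

lemma T1_meas (b : Fin m → ℝ) : MeasurableSet (T1 b) := by
  unfold T1
  rw [ofPred_forall]
  exact MeasurableSet.iInter fun i => measurableSet_le measurable_const (by fun_prop)

lemma ball_vol (c R : ℝ) : volume {t : ℝ | |t + c| < R} = ENNReal.ofReal (2 * R) := by
  have : {t : ℝ | |t + c| < R} = Ioo (-c - R) (-c + R) := by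
    ext t
    simp only [mem_ofPred_eq, abs_lt, mem_Ioo]
    constructor <;> rintro ⟨h1, h2⟩ <;> constructor <;> linarith
  rw [this, Real.volume_Ioo]
  congr 1
  ring

/-- the time integral for fixed dual variables -/
lemma inner_time (β b κ : Fin m → ℝ) (h0 : ℝ) (hh : h0 ≠ 0) (Φ : ℝ → ℝ≥0∞)
    (hΦm : Measurable Φ) (hΦ1 : ∀ ω, Φ ω ≤ 1) (hΦ : ∫⁻ ω, Φ ω ≤ 1) :
    ∫⁻ t in T1 b, Φ (2 * om β b κ h0 t) ≤
      ENNReal.ofReal (1 / |h0|) * ((2 * (m + 1) * m + 2 ^ m) *
        ∏ i, ENNReal.ofReal (1 + |κ i|)) := by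
  set R : Fin m → ℝ := fun i => |κ i| * (m + 1) / |h0| with hR
  have hh' : 0 < |h0| := abs_pos.2 hh
  have hsub : T1 b ⊆ (⋃ i, {t : ℝ | |t + b i| < R i}) ∪ ⋃ σ : Fin m → Bool, Ts b R σ := by
    intro t ht
    by_cases hc : ∃ i, |t + b i| < R i
    · obtain ⟨i, hi⟩ := hc
      exact Or.inl (mem_iUnion.2 ⟨i, hi⟩)
    · push Not at hc
      refine Or.inr (mem_iUnion.2 ⟨fun i => decide (0 ≤ t + b i), fun i => ?_⟩)
      have h1 : sg (decide (0 ≤ t + b i)) * (t + b i) = |t + b i| := by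
        by_cases h : 0 ≤ t + b i
        · simp [sg, h, abs_of_nonneg h]
        · simp [sg, h, abs_of_neg (not_le.1 h)]
      simp only
      rw [h1]
      exact max_le (ht i) (hc i)
  have hprod : ∀ i, ENNReal.ofReal |κ i| ≤ ∏ j, ENNReal.ofReal (1 + |κ j|) := by
    intro i
    have h2 : ∀ j ∈ (Finset.univ : Finset (Fin m)), (1 : ℝ≥0∞) ≤ ENNReal.ofReal (1 + |κ j|) := by
      intro j _
      rw [← ENNReal.ofReal_one]
      exact ENNReal.ofReal_le_ofReal (by linarith [abs_nonneg (κ j)])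
    refine le_trans (ENNReal.ofReal_le_ofReal ?_) (Finset.single_le_prod' h2 (Finset.mem_univ i))
    linarith
  have hone : (1 : ℝ≥0∞) ≤ ∏ j, ENNReal.ofReal (1 + |κ j|) := by
    apply Finset.one_le_prod''
    intro j
    rw [← ENNReal.ofReal_one]
    exact ENNReal.ofReal_le_ofReal (by linarith [abs_nonneg (κ j)])
  set Pk : ℝ≥0∞ := ∏ j, ENNReal.ofReal (1 + |κ j|) with hPk
  calc ∫⁻ t in T1 b, Φ (2 * om β b κ h0 t)
      ≤ ∫⁻ t in (⋃ i, {t : ℝ | |t + b i| < R i}) ∪ ⋃ σ : Fin m → Bool, Ts b R σ,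
          Φ (2 * om β b κ h0 t) := lintegral_mono_set hsub
    _ ≤ (∫⁻ t in (⋃ i, {t : ℝ | |t + b i| < R i}), Φ (2 * om β b κ h0 t)) +
        ∫⁻ t in (⋃ σ : Fin m → Bool, Ts b R σ), Φ (2 * om β b κ h0 t) := lintegral_union_le _ _ _
    _ ≤ (∑' i, ∫⁻ t in {t : ℝ | |t + b i| < R i}, Φ (2 * om β b κ h0 t)) +
        ∑' σ : Fin m → Bool, ∫⁻ t in Ts b R σ, Φ (2 * om β b κ h0 t) := by
        gcongr
        · exact lintegral_iUnion_le _ _
        · exact lintegral_iUnion_le _ _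
    _ ≤ (∑' _i : Fin m, ENNReal.ofReal (1 / |h0|) * (2 * (m + 1) * Pk)) +
        ∑' _σ : Fin m → Bool, ENNReal.ofReal (1 / |h0|) * Pk := by
        gcongr with i σ
        · calc ∫⁻ t in {t : ℝ | |t + b i| < R i}, Φ (2 * om β b κ h0 t)
              ≤ ∫⁻ t in {t : ℝ | |t + b i| < R i}, 1 := lintegral_mono fun t => hΦ1 _
            _ = ENNReal.ofReal (2 * R i) := by rw [setLIntegral_one, ball_vol]
            _ = ENNReal.ofReal (1 / |h0|) * (2 * (m + 1) * ENNReal.ofReal |κ i|) := by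
                rw [hR]
                simp only
                have e1 : (2 * ((m : ℝ≥0∞) + 1)) = ENNReal.ofReal (2 * ((m : ℝ) + 1)) := by
                  rw [ENNReal.ofReal_mul (by norm_num), ENNReal.ofReal_add (by positivity)
                    (by norm_num), ENNReal.ofReal_natCast]
                  norm_num
                rw [e1, ← ENNReal.ofReal_mul (by positivity), ← ENNReal.ofReal_mul (by positivity)]
                congr 1
                field_simp
            _ ≤ _ := by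
                gcongr
                exact hprod i
        · calc ∫⁻ t in Ts b R σ, Φ (2 * om β b κ h0 t) ≤ ENNReal.ofReal (1 / |h0|) :=
                piece β b κ h0 hh σ Φ hΦm hΦ
            _ = ENNReal.ofReal (1 / |h0|) * 1 := (mul_one _).symm
            _ ≤ _ := by gcongr
    _ = _ := by
        rw [tsum_fintype, tsum_fintype, Finset.sum_const, Finset.sum_const, Finset.card_univ,
          Finset.card_univ, Fintype.card_fin, Fintype.card_fun, Fintype.card_bool,
          Fintype.card_fin, nsmul_eq_mul, nsmul_eq_mul]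
        push_cast
        ring

end Pool.Agent.P8H66.QP
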