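import Mathlib
import Pool.Agent.P8H66.QP.D
set_option autoImplicit false
set_option linter.unusedSectionVars false

/-! The time integral for a fixed first dual variable. -/

namespace Pool.Agent.P8H66.QP

open MeasureTheory Set
open Pool.Agent.TH277.HT (lint_mul lint_pi)
open scoped ENNReal NNReal

variable {m : ℕ}

lemma ww_meas : Measurable ww := by unfold ww; fun_prop

lemma ww_le (κ : ℝ) : ww κ ≤ 1 := by
  unfold ww
  rw [ENNReal.ofReal_le_one, Real.exp_le_one_iff]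
  have := Real.pi_pos
  nlinarith [sq_nonneg κ]

lemma ww_int : ∫⁻ κ, ww κ ≤ 1 := by
  unfold ww
  rw [lint_gauss _ (by positivity), ENNReal.ofReal_le_one, Real.sqrt_le_one,
    div_le_one (by positivity)]
  linarith [Real.pi_pos]

lemma ww_mom : ∫⁻ κ, ww κ * ENNReal.ofReal (1 + |κ|) ≤ 2 := by
  calc ∫⁻ κ, ww κ * ENNReal.ofReal (1 + |κ|) ≤ ∫⁻ κ, 2 * gg κ := by
        refine lintegral_mono fun κ => ?_
        unfold ww gg
        rw [show (2 : ℝ≥0∞) = ENNReal.ofReal 2 by norm_num, ← ENNReal.ofReal_mul (Real.exp_pos _).le,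
          ← ENNReal.ofReal_mul (by norm_num)]
        apply ENNReal.ofReal_le_ofReal
        have h1 : 1 + |κ| ≤ 2 * Real.exp (κ ^ 2) := by
          have h2 := Real.add_one_le_exp (κ ^ 2)
          have h3 : |κ| ≤ 1 + κ ^ 2 := by
            rw [← sq_abs]
            nlinarith [sq_nonneg (|κ| - 1), abs_nonneg κ]
          nlinarith [sq_nonneg κ]
        calc Real.exp (-(4 * Real.pi * κ ^ 2)) * (1 + |κ|)
            ≤ Real.exp (-(4 * Real.pi * κ ^ 2)) * (2 * Real.exp (κ ^ 2)) := by gcongr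
          _ = 2 * Real.exp (-(4 * Real.pi * κ ^ 2) + κ ^ 2) := by
              rw [Real.exp_add]
              ring
          _ ≤ 2 * Real.exp (-(Real.pi * κ ^ 2)) := by
              gcongr
              nlinarith [sq_nonneg κ, Real.pi_gt_three]
    _ = 2 := by
        rw [lintegral_const_mul' _ _ (by norm_num), gg_int, mul_one]

/-- the integral over the smooth dual variables -/
noncomputable def JJ (Φ : ℝ → ℝ≥0∞) (β b : Fin m → ℝ) (h0 t : ℝ) : ℝ≥0∞ :=
  ∫⁻ k : Fin m → ℝ, Φ (2 * (t * h0 + ∑ i, β i * k i)) *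
    ∏ i, (gg (k i) * ww (β i * h0 + (t + b i) * k i))

/-- the weight in time -/
noncomputable def PP (b : Fin m → ℝ) (t : ℝ) : ℝ≥0∞ := ∏ i, ENNReal.ofReal (1 + |t + b i|)

lemma PP_meas (b : Fin m → ℝ) : Measurable (PP b) := by
  unfold PP
  fun_prop

lemma one_bd (c τ : ℝ) : ENNReal.ofReal (1 + |τ|) * ∫⁻ k, gg k * ww (c + τ * k) ≤ 2 := by
  by_cases h : |τ| ≤ 1
  · calc ENNReal.ofReal (1 + |τ|) * ∫⁻ k, gg k * ww (c + τ * k)
        ≤ ENNReal.ofReal 2 * ∫⁻ k, gg k := by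
          refine mul_le_mul' (ENNReal.ofReal_le_ofReal (by linarith)) (lintegral_mono fun k => ?_)
          calc gg k * ww (c + τ * k) ≤ gg k * 1 := by gcongr; exact ww_le _
            _ = gg k := mul_one _
      _ = 2 := by
          rw [gg_int, mul_one]
          norm_num
  · push Not at h
    have hτ : τ ≠ 0 := by
      intro h0
      rw [h0, abs_zero] at h
      linarith
    calc ENNReal.ofReal (1 + |τ|) * ∫⁻ k, gg k * ww (c + τ * k)
        ≤ ENNReal.ofReal (2 * |τ|) * ∫⁻ k, ww (c + τ * k) := by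
          refine mul_le_mul' (ENNReal.ofReal_le_ofReal (by linarith)) (lintegral_mono fun k => ?_)
          calc gg k * ww (c + τ * k) ≤ 1 * ww (c + τ * k) := by gcongr; exact gg_le _
            _ = _ := one_mul _
      _ = ENNReal.ofReal (2 * |τ|) * (ENNReal.ofReal |τ⁻¹| * ∫⁻ k, ww (c + k)) := by
          rw [lint_mul τ hτ (fun k => ww (c + k))]
      _ = 2 * ∫⁻ k, ww k := by
          rw [lintegral_add_left_eq_self ww c, ← mul_assoc, ← ENNReal.ofReal_mul (by positivity),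
            abs_inv, mul_assoc, mul_inv_cancel₀ (by positivity)]
          norm_num
      _ ≤ 2 * 1 := by
          gcongr
          exact ww_int
      _ = 2 := mul_one _

lemma JJ_le {Φ : ℝ → ℝ≥0∞} (hΦ : ∀ ω, Φ ω ≤ 1) (β b : Fin m → ℝ) (h0 t : ℝ) :
    PP b t * JJ Φ β b h0 t ≤ 2 ^ m := by
  have h1 : JJ Φ β b h0 t ≤ ∏ i, ∫⁻ k, gg k * ww (β i * h0 + (t + b i) * k) := by
    rw [← lint_pi (fun i k => gg k * ww (β i * h0 + (t + b i) * k)) (fun i =>
      gg_meas.mul (ww_meas.comp (by fun_prop)))]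
    refine lintegral_mono fun k => ?_
    simp only
    calc _ ≤ 1 * ∏ i, (gg (k i) * ww (β i * h0 + (t + b i) * k i)) := by
          gcongr
          exact hΦ _
      _ = _ := one_mul _
  calc PP b t * JJ Φ β b h0 t ≤ PP b t * ∏ i, ∫⁻ k, gg k * ww (β i * h0 + (t + b i) * k) := by
        gcongr
    _ = ∏ i, (ENNReal.ofReal (1 + |t + b i|) * ∫⁻ k, gg k * ww (β i * h0 + (t + b i) * k)) := by
        unfold PP
        rw [Finset.prod_mul_distrib]
    _ ≤ ∏ _i : Fin m, (2 : ℝ≥0∞) := Finset.prod_le_prod' fun i _ => one_bd _ _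
    _ = 2 ^ m := by simp

/-- change of variables by a diagonal map -/
lemma diag (c τ : Fin m → ℝ) (hτ : ∀ i, τ i ≠ 0) (g : (Fin m → ℝ) → ℝ≥0∞) (hg : Measurable g) :
    (∏ i, ENNReal.ofReal |τ i|) * ∫⁻ k : Fin m → ℝ, g (fun i => c i + τ i * k i) = ∫⁻ κ, g κ := by
  classical
  have hdet : (Matrix.diagonal τ).det ≠ 0 := by
    rw [Matrix.det_diagonal]
    exact Finset.prod_ne_zero_iff.2 fun i _ => hτ i
  have h1 := Real.smul_map_diagonal_volume_pi hdet
  have h2 : ∫⁻ κ, g κ = ∫⁻ κ, g (c + κ) := (lintegral_add_left_eq_self g c).symm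
  rw [h2]
  have hg' : Measurable fun κ : Fin m → ℝ => g (c + κ) := hg.comp (measurable_const_add c)
  conv_rhs => rw [← h1]
  rw [lintegral_smul_measure, lintegral_map hg'
    (by
      have : Continuous (Matrix.toLin' (Matrix.diagonal τ)) :=
        LinearMap.continuous_of_finiteDimensional _
      exact this.measurable), Matrix.det_diagonal, Finset.abs_prod,
    ENNReal.ofReal_prod_of_nonneg (fun _ _ => abs_nonneg _), smul_eq_mul]
  congr 1
  apply lintegral_congr
  intro k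
  congr 1
  ext i
  simp [Matrix.mulVec_diagonal]

lemma om_meas (β b : Fin m → ℝ) (h0 : ℝ) :
    Measurable fun p : ℝ × (Fin m → ℝ) => om β b p.2 h0 p.1 := by
  unfold om
  apply Measurable.add
  · fun_prop
  · apply Finset.measurable_fun_sum
    intro i _
    have h1 : Measurable fun p : ℝ × (Fin m → ℝ) => p.2 i := (measurable_pi_apply i).comp measurable_snd
    exact (((h1.sub_const _).const_mul _)).div (measurable_fst.add_const _)

lemma JJ_good {Φ : ℝ → ℝ≥0∞} (hΦm : Measurable Φ) (β b : Fin m → ℝ) (h0 t : ℝ) (ht : t ∈ T1 b) :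
    PP b t * JJ Φ β b h0 t ≤
      2 ^ m * ∫⁻ κ : Fin m → ℝ, Φ (2 * om β b κ h0 t) * ∏ i, ww (κ i) := by
  have hτ : ∀ i, t + b i ≠ 0 := by
    intro i h
    have := ht i
    rw [h, abs_zero] at this
    linarith
  have h1 := diag (fun i => β i * h0) (fun i => t + b i) hτ
    (fun κ => Φ (2 * om β b κ h0 t) * ∏ i, ww (κ i)) (by
      apply Measurable.mul
      · exact hΦm.comp (((om_meas β b h0).comp (by fun_prop :
          Measurable fun κ : Fin m → ℝ => (t, κ))).const_mul 2)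
      · exact Finset.measurable_fun_prod _ fun i _ => ww_meas.comp (measurable_pi_apply i))
  rw [← h1, ← mul_assoc]
  have h2 : PP b t ≤ 2 ^ m * ∏ i, ENNReal.ofReal |t + b i| := by
    unfold PP
    have h3 : (2 : ℝ≥0∞) ^ m = ∏ _i : Fin m, (2 : ℝ≥0∞) := by simp
    rw [h3, ← Finset.prod_mul_distrib]
    apply Finset.prod_le_prod'
    intro i _
    rw [show (2 : ℝ≥0∞) = ENNReal.ofReal 2 by norm_num, ← ENNReal.ofReal_mul (by norm_num)]
    apply ENNReal.ofReal_le_ofReal
    linarith [ht i]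
  refine mul_le_mul' h2 ?_
  unfold JJ
  refine lintegral_mono fun k => ?_
  simp only
  have h4 : om β b (fun i => β i * h0 + (t + b i) * k i) h0 t = t * h0 + ∑ i, β i * k i := by
    unfold om
    congr 1
    refine Finset.sum_congr rfl fun i _ => ?_
    rw [add_sub_cancel_left, ← mul_assoc, mul_comm (β i) (t + b i), mul_assoc,
      mul_div_cancel_left₀ _ (hτ i)]
  rw [h4]
  gcongr with i _
  calc gg (k i) * ww (β i * h0 + (t + b i) * k i) ≤ 1 * ww (β i * h0 + (t + b i) * k i) := by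
        gcongr
        exact gg_le _
    _ = _ := one_mul _

/-- the constant -/
noncomputable def Cm (m : ℕ) : ℝ≥0∞ := 2 ^ m * (2 * m) + 2 ^ m * ((2 * (m + 1) * m + 2 ^ m) * 2 ^ m)

lemma Cm_ne (m : ℕ) : Cm m ≠ ∞ := by
  unfold Cm
  have h2 : (2 : ℝ≥0∞) ^ m ≠ ∞ := ENNReal.pow_ne_top (by norm_num)
  have hm : (m : ℝ≥0∞) ≠ ∞ := ENNReal.natCast_ne_top m
  finiteness

lemma JJ_time {Φ : ℝ → ℝ≥0∞} (hΦm : Measurable Φ) (hΦ1 : ∀ ω, Φ ω ≤ 1) (hΦ : ∫⁻ ω, Φ ω ≤ 1)
    (β b : Fin m → ℝ) (h0 : ℝ) (hh : h0 ≠ 0) :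
    ∫⁻ t, PP b t * JJ Φ β b h0 t ≤ Cm m * (1 + ENNReal.ofReal (1 / |h0|)) := by
  have hbad : volume (T1 b)ᶜ ≤ 2 * m := by
    have h1 : (T1 b)ᶜ ⊆ ⋃ i, {t : ℝ | |t + b i| < 1} := by
      intro t ht
      rw [mem_compl_iff] at ht
      unfold T1 at ht
      rw [mem_ofPred_eq] at ht
      push Not at ht
      obtain ⟨i, hi⟩ := ht
      exact mem_iUnion.2 ⟨i, hi⟩
    calc volume (T1 b)ᶜ ≤ volume (⋃ i, {t : ℝ | |t + b i| < 1}) := measure_mono h1
      _ ≤ ∑' i : Fin m, volume {t : ℝ | |t + b i| < 1} := measure_iUnion_le _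
      _ = 2 * m := by
          simp only [ball_vol]
          rw [tsum_fintype, Finset.sum_const, Finset.card_univ, Fintype.card_fin, nsmul_eq_mul]
          norm_num
          ring
  have h1 : ∫⁻ t in (T1 b)ᶜ, PP b t * JJ Φ β b h0 t ≤ 2 ^ m * (2 * m) := by
    calc ∫⁻ t in (T1 b)ᶜ, PP b t * JJ Φ β b h0 t ≤ ∫⁻ _t in (T1 b)ᶜ, (2 : ℝ≥0∞) ^ m :=
          lintegral_mono fun t => JJ_le hΦ1 _ _ _ _
      _ = 2 ^ m * volume (T1 b)ᶜ := setLIntegral_const _ _
      _ ≤ _ := by gcongr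
  have h2 : ∫⁻ t in T1 b, PP b t * JJ Φ β b h0 t ≤
      2 ^ m * ((2 * (m + 1) * m + 2 ^ m) * 2 ^ m) * ENNReal.ofReal (1 / |h0|) := by
    calc ∫⁻ t in T1 b, PP b t * JJ Φ β b h0 t
        ≤ ∫⁻ t in T1 b, 2 ^ m * ∫⁻ κ : Fin m → ℝ, Φ (2 * om β b κ h0 t) * ∏ i, ww (κ i) := by
          apply setLIntegral_mono' (T1_meas b)
          intro t ht
          exact JJ_good hΦm _ _ _ _ ht
      _ = 2 ^ m * ∫⁻ t in T1 b, ∫⁻ κ : Fin m → ℝ, Φ (2 * om β b κ h0 t) * ∏ i, ww (κ i) :=
          lintegral_const_mul' _ _ (ENNReal.pow_ne_top (by norm_num))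
      _ = 2 ^ m * ∫⁻ κ : Fin m → ℝ, ∫⁻ t in T1 b, Φ (2 * om β b κ h0 t) * ∏ i, ww (κ i) := by
          congr 1
          apply lintegral_lintegral_swap
          apply Measurable.aemeasurable
          apply Measurable.mul
          · exact hΦm.comp ((om_meas β b h0).const_mul 2)
          · exact Finset.measurable_fun_prod _ fun i _ =>
              ww_meas.comp ((measurable_pi_apply i).comp measurable_snd)
      _ ≤ 2 ^ m * ∫⁻ κ : Fin m → ℝ, ENNReal.ofReal (1 / |h0|) * ((2 * (m + 1) * m + 2 ^ m) *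
            ∏ i, (ww (κ i) * ENNReal.ofReal (1 + |κ i|))) := by
          gcongr with κ
          rw [lintegral_mul_const' _ _ (by
            apply ENNReal.prod_ne_top
            intro i _
            exact ne_top_of_le_ne_top ENNReal.one_ne_top (ww_le _)), Finset.prod_mul_distrib]
          calc (∫⁻ t in T1 b, Φ (2 * om β b κ h0 t)) * ∏ i, ww (κ i)
              ≤ (ENNReal.ofReal (1 / |h0|) * ((2 * (m + 1) * m + 2 ^ m) *
                  ∏ i, ENNReal.ofReal (1 + |κ i|))) * ∏ i, ww (κ i) := by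
                gcongr
                exact inner_time β b κ h0 hh Φ hΦm hΦ1 hΦ
            _ = _ := by ring
      _ ≤ 2 ^ m * (ENNReal.ofReal (1 / |h0|) * ((2 * (m + 1) * m + 2 ^ m) * 2 ^ m)) := by
          gcongr
          rw [lintegral_const_mul' _ _ ENNReal.ofReal_ne_top, lintegral_const_mul' _ _ (by
            have hm : (m : ℝ≥0∞) ≠ ∞ := ENNReal.natCast_ne_top m
            have h2 : (2 : ℝ≥0∞) ^ m ≠ ∞ := ENNReal.pow_ne_top (by norm_num)
            finiteness)]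
          gcongr
          rw [lint_pi (fun _ κ => ww κ * ENNReal.ofReal (1 + |κ|)) (fun _ =>
            ww_meas.mul (by fun_prop))]
          calc ∏ _i : Fin m, ∫⁻ κ, ww κ * ENNReal.ofReal (1 + |κ|) ≤ ∏ _i : Fin m, (2 : ℝ≥0∞) :=
                Finset.prod_le_prod' fun i _ => ww_mom
            _ = 2 ^ m := by simp
      _ = _ := by ring
  rw [← lintegral_add_compl _ (T1_meas b)]
  unfold Cm
  calc _ ≤ 2 ^ m * ((2 * (m + 1) * m + 2 ^ m) * 2 ^ m) * ENNReal.ofReal (1 / |h0|) +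
        2 ^ m * (2 * m) := add_le_add h2 h1
    _ ≤ 2 ^ m * ((2 * (m + 1) * m + 2 ^ m) * 2 ^ m) * (1 + ENNReal.ofReal (1 / |h0|)) +
        2 ^ m * (2 * m) * (1 + ENNReal.ofReal (1 / |h0|)) := by
        refine add_le_add (mul_le_mul' le_rfl le_add_self) ?_
        exact le_mul_of_one_le_right (by positivity) le_self_add
    _ = _ := by ring

end Pool.Agent.P8H66.QP
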