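import Mathlib
import Pool.Agent.P8H66.QP.E
set_option autoImplicit false
set_option linter.unusedSectionVars false

/-! The integral over the first dual variable. -/

namespace Pool.Agent.P8H66.QP

open MeasureTheory Set
open Pool.Agent.TH277.HT (lint_mul lint_pi)
open scoped ENNReal NNReal

variable {m : ℕ}

/-- moments of the Gaussian -/
lemma mom {s : ℝ} (hs : -1 < s) : ∫⁻ h : ℝ, gg h * ENNReal.ofReal (|h| ^ s) ≠ ∞ := by
  set f : ℝ → ℝ≥0∞ := fun h => gg h * ENNReal.ofReal (|h| ^ s) with hf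
  have h1 : ∫⁻ h in Ioi (0 : ℝ), f h ≠ ∞ := by
    have h2 := integrableOn_rpow_mul_exp_neg_mul_sq Real.pi_pos hs
    have h3 := h2.2
    rw [hasFiniteIntegral_iff_enorm] at h3
    refine ne_top_of_le_ne_top h3.ne ?_
    apply setLIntegral_mono' measurableSet_Ioi
    intro h hh
    rw [mem_Ioi] at hh
    rw [hf]
    simp only
    unfold gg
    rw [abs_of_pos hh, ← ENNReal.ofReal_mul (Real.exp_pos _).le, ← ofReal_norm, Real.norm_eq_abs,
      abs_of_nonneg (by positivity), mul_comm, neg_mul]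
  have h4 : ∫⁻ h in Iic (0 : ℝ), f h = ∫⁻ h in Ioi (0 : ℝ), f h := by
    rw [← setLIntegral_congr (Iio_ae_eq_Iic (μ := (volume : Measure ℝ)) (a := (0 : ℝ))),
      ← lintegral_indicator measurableSet_Iio, ← lintegral_indicator measurableSet_Ioi,
      ← lintegral_neg_eq_self]
    apply lintegral_congr
    intro h
    by_cases hh : 0 < h
    · rw [indicator_of_mem (by simpa using hh), indicator_of_mem (by simpa using hh)]
      simp [hf, gg]
    · rw [indicator_of_notMem (by simpa using hh), indicator_of_notMem (by simpa using hh)]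
  have h5 := lintegral_add_compl (μ := (volume : Measure ℝ)) f
    (measurableSet_Ioi : MeasurableSet (Ioi (0 : ℝ)))
  rw [← h5, compl_Ioi, h4]
  exact ENNReal.add_ne_top.2 ⟨h1, h1⟩

attribute [local irreducible] Phi

/-- the fourth power of the norm at a fixed time, up to the weight -/
noncomputable def ZZ (a : ℝ → ℂ) (β b : Fin m → ℝ) (t : ℝ) : ℝ≥0∞ :=
  ∫⁻ h, gg h * (PP b t * JJ (Phi a h) β b h t)

lemma JJ_meas {a : ℝ → ℂ} (ha : Bd a) (β b : Fin m → ℝ) :
    Measurable fun p : ℝ × ℝ => JJ (Phi a p.1) β b p.1 p.2 := by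
  unfold JJ
  apply Measurable.lintegral_prod_right' (f := fun (q : (ℝ × ℝ) × (Fin m → ℝ)) =>
    Phi a q.1.1 (2 * (q.1.2 * q.1.1 + ∑ i, β i * q.2 i)) *
      ∏ i, (gg (q.2 i) * ww (β i * q.1.1 + (q.1.2 + b i) * q.2 i)))
  have hk : ∀ i, Measurable fun q : (ℝ × ℝ) × (Fin m → ℝ) => q.2 i := fun i =>
    (measurable_pi_apply i).comp measurable_snd
  apply Measurable.mul
  · have h1 : Measurable fun q : (ℝ × ℝ) × (Fin m → ℝ) =>
        (q.1.1, 2 * (q.1.2 * q.1.1 + ∑ i, β i * q.2 i)) := by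
      apply Measurable.prodMk (by fun_prop)
      apply Measurable.const_mul
      apply Measurable.add (by fun_prop)
      exact Finset.measurable_fun_sum _ fun i _ => (hk i).const_mul _
    exact (Phi_meas ha).comp h1
  · apply Finset.measurable_fun_prod
    intro i _
    have h2 := hk i
    have h3 : Measurable fun q : (ℝ × ℝ) × (Fin m → ℝ) =>
        β i * q.1.1 + (q.1.2 + b i) * q.2 i :=
      ((measurable_fst.comp measurable_fst).const_mul _).add
        (((measurable_snd.comp measurable_fst).add_const _).mul h2)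
    exact (gg_meas.comp h2).mul (ww_meas.comp h3)

attribute [local irreducible] JJ PP gg ww

/-- The `L^r` bound, `r > 1`. -/
lemma ZZ_time (r : ℝ) (hr : 1 < r) : ∃ C : ℝ≥0∞, C ≠ ∞ ∧ ∀ (a : ℝ → ℂ) (β b : Fin m → ℝ), Bd a →
    ∫⁻ t, ZZ a β b t ^ r ≤ C := by
  set K : ℝ≥0∞ := ∫⁻ h : ℝ, gg h * ENNReal.ofReal (|h| ^ (-(1 / 2) : ℝ)) with hK
  have hKt : K ≠ ∞ := mom (by norm_num)
  set L1 : ℝ≥0∞ := ∫⁻ h : ℝ, gg h * ENNReal.ofReal (|h| ^ ((r - 1) / 2)) with hL1
  have hL1t : L1 ≠ ∞ := mom (by linarith)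
  set L2 : ℝ≥0∞ := ∫⁻ h : ℝ, gg h * ENNReal.ofReal (|h| ^ ((r - 1) / 2 - 1)) with hL2
  have hL2t : L2 ≠ ∞ := mom (by linarith)
  have hr0 : 0 < r := by linarith
  refine ⟨K ^ (r - 1) * ((2 ^ m) ^ (r - 1) * (Cm m * (L1 + L2))), ?_, ?_⟩
  · have h1 : K ^ (r - 1) ≠ ∞ := ENNReal.rpow_ne_top_of_nonneg (by linarith) hKt
    have h2 : ((2 : ℝ≥0∞) ^ m) ^ (r - 1) ≠ ∞ :=
      ENNReal.rpow_ne_top_of_nonneg (by linarith) (ENNReal.pow_ne_top (by norm_num))
    have h3 := Cm_ne m
    finiteness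
  intro a β b ha
  have hJm := JJ_meas ha β b
  have hne : ∀ᵐ h : ℝ, h ≠ 0 := by
    rw [ae_iff]
    simp
  have h1 : ∀ t, ZZ a β b t ^ r ≤ K ^ (r - 1) *
      ∫⁻ h, gg h * (ENNReal.ofReal (|h| ^ ((r - 1) / 2)) * (PP b t * JJ (Phi a h) β b h t) ^ r) := by
    intro t
    set G : ℝ → ℝ≥0∞ := fun h =>
      gg h * (ENNReal.ofReal (|h| ^ ((r - 1) / 2)) * (PP b t * JJ (Phi a h) β b h t) ^ r) with hG
    have hGm : Measurable G := by
      apply gg_meas.mul
      apply Measurable.mul (by fun_prop)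
      exact ((hJm.comp (by fun_prop : Measurable fun h : ℝ => (h, t))).const_mul _).pow_const _
    have h2 : ZZ a β b t ≤ K ^ (1 - 1 / r) * (∫⁻ h, G h) ^ (1 / r) := by
      have h3 := ENNReal.lintegral_mul_norm_pow_le (μ := (volume : Measure ℝ))
        (f := fun h => gg h * ENNReal.ofReal (|h| ^ (-(1 / 2) : ℝ))) (g := G)
        (by
          apply Measurable.aemeasurable
          exact gg_meas.mul (by fun_prop)) hGm.aemeasurable (p := 1 - 1 / r) (q := 1 / r)
        (by
          rw [sub_nonneg, div_le_one hr0]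
          exact hr.le) (by positivity) (by ring)
      refine le_trans ?_ h3
      unfold ZZ
      apply lintegral_mono_ae
      filter_upwards [hne] with h hh
      have hh' : 0 < |h| := abs_pos.2 hh
      simp only [hG]
      have hg0 : gg h ≠ 0 := by
        unfold gg
        simpa using Real.exp_pos _
      have hgt : gg h ≠ ∞ := ne_top_of_le_ne_top ENNReal.one_ne_top (gg_le h)
      have hp1 : (0 : ℝ) ≤ 1 - 1 / r := by
        rw [sub_nonneg, div_le_one hr0]
        exact hr.le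
      rw [ENNReal.mul_rpow_of_nonneg _ _ hp1, ENNReal.mul_rpow_of_nonneg _ _ (by positivity),
        ENNReal.mul_rpow_of_nonneg _ _ (by positivity : (0 : ℝ) ≤ 1 / r), ← ENNReal.rpow_mul,
        mul_one_div_cancel hr0.ne', ENNReal.rpow_one,
        ENNReal.ofReal_rpow_of_pos (by positivity), ENNReal.ofReal_rpow_of_pos (by positivity),
        ← Real.rpow_mul hh'.le, ← Real.rpow_mul hh'.le]
      have e1 : gg h ^ (1 - 1 / r) * gg h ^ (1 / r) = gg h := by
        rw [← ENNReal.rpow_add _ _ hg0 hgt]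
        simp
      have e2 : ENNReal.ofReal (|h| ^ (-(1 / 2) * (1 - 1 / r))) *
          ENNReal.ofReal (|h| ^ ((r - 1) / 2 * (1 / r))) = 1 := by
        rw [← ENNReal.ofReal_mul (by positivity), ← Real.rpow_add hh']
        have : -(1 / 2) * (1 - 1 / r) + (r - 1) / 2 * (1 / r) = 0 := by
          field_simp
          ring
        rw [this, Real.rpow_zero, ENNReal.ofReal_one]
      calc gg h * (PP b t * JJ (Phi a h) β b h t)
          = (gg h ^ (1 - 1 / r) * gg h ^ (1 / r)) *
            (ENNReal.ofReal (|h| ^ (-(1 / 2) * (1 - 1 / r))) *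
              ENNReal.ofReal (|h| ^ ((r - 1) / 2 * (1 / r)))) *
              (PP b t * JJ (Phi a h) β b h t) := by rw [e1, e2, mul_one]
        _ ≤ _ := le_of_eq (by ring)
    calc ZZ a β b t ^ r ≤ (K ^ (1 - 1 / r) * (∫⁻ h, G h) ^ (1 / r)) ^ r := by gcongr
      _ = K ^ (r - 1) * ∫⁻ h, G h := by
          rw [ENNReal.mul_rpow_of_nonneg _ _ hr0.le, ← ENNReal.rpow_mul, ← ENNReal.rpow_mul,
            one_div_mul_cancel hr0.ne', ENNReal.rpow_one]
          congr 2
          field_simp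
  have hJ2 : ∀ h t, (PP b t * JJ (Phi a h) β b h t) ^ r ≤
      (2 ^ m) ^ (r - 1) * (PP b t * JJ (Phi a h) β b h t) := by
    intro h t
    have h2 := JJ_le (Phi_le ha h) β b h t
    set x := PP b t * JJ (Phi a h) β b h t
    calc x ^ r = x ^ ((r - 1) + 1) := by ring_nf
      _ = x ^ (r - 1) * x := by
          rw [ENNReal.rpow_add_of_nonneg _ _ (by linarith) zero_le_one, ENNReal.rpow_one]
      _ ≤ _ := by
          gcongr
  calc ∫⁻ t, ZZ a β b t ^ r
      ≤ ∫⁻ t, K ^ (r - 1) * ∫⁻ h, gg h * (ENNReal.ofReal (|h| ^ ((r - 1) / 2)) *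
          ((2 ^ m) ^ (r - 1) * (PP b t * JJ (Phi a h) β b h t))) := by
        refine lintegral_mono fun t => (h1 t).trans ?_
        gcongr with h
        exact hJ2 h t
    _ = K ^ (r - 1) * ∫⁻ t, ∫⁻ h, gg h * (ENNReal.ofReal (|h| ^ ((r - 1) / 2)) *
          ((2 ^ m) ^ (r - 1) * (PP b t * JJ (Phi a h) β b h t))) :=
        lintegral_const_mul' _ _ (ENNReal.rpow_ne_top_of_nonneg (by linarith) hKt)
    _ = K ^ (r - 1) * ∫⁻ h, ∫⁻ t, gg h * (ENNReal.ofReal (|h| ^ ((r - 1) / 2)) *
          ((2 ^ m) ^ (r - 1) * (PP b t * JJ (Phi a h) β b h t))) := by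
        congr 1
        apply lintegral_lintegral_swap
        apply Measurable.aemeasurable
        apply Measurable.mul (gg_meas.comp measurable_snd)
        apply Measurable.mul (by fun_prop)
        apply Measurable.const_mul
        apply Measurable.mul ((PP_meas b).comp measurable_fst)
        exact hJm.comp (by fun_prop : Measurable fun p : ℝ × ℝ => (p.2, p.1))
    _ ≤ K ^ (r - 1) * ∫⁻ h, ((2 ^ m) ^ (r - 1) * Cm m) *
          (gg h * ENNReal.ofReal (|h| ^ ((r - 1) / 2)) +
            gg h * ENNReal.ofReal (|h| ^ ((r - 1) / 2 - 1))) := by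
        refine mul_le_mul_right (lintegral_mono_ae ?_) _
        filter_upwards [hne] with h hh
        have hh' : 0 < |h| := abs_pos.2 hh
        have h2 : ((2 : ℝ≥0∞) ^ m) ^ (r - 1) ≠ ∞ :=
          ENNReal.rpow_ne_top_of_nonneg (by linarith) (ENNReal.pow_ne_top (by norm_num))
        have hgt : gg h ≠ ∞ := ne_top_of_le_ne_top ENNReal.one_ne_top (gg_le h)
        rw [lintegral_const_mul' _ _ hgt, lintegral_const_mul' _ _ ENNReal.ofReal_ne_top,
          lintegral_const_mul' _ _ h2]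
        have hPm : Measurable (Phi a h) :=
          (Phi_meas ha).comp (by fun_prop : Measurable fun ω : ℝ => (h, ω))
        have hJt := JJ_time hPm (Phi_le ha h) (Phi_int ha h) β b h hh
        calc gg h * (ENNReal.ofReal (|h| ^ ((r - 1) / 2)) * ((2 ^ m) ^ (r - 1) *
              ∫⁻ t, PP b t * JJ (Phi a h) β b h t))
            ≤ gg h * (ENNReal.ofReal (|h| ^ ((r - 1) / 2)) * ((2 ^ m) ^ (r - 1) *
              (Cm m * (1 + ENNReal.ofReal (1 / |h|))))) := by
              gcongr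
          _ = (2 ^ m) ^ (r - 1) * Cm m * (gg h * ENNReal.ofReal (|h| ^ ((r - 1) / 2)) +
              gg h * (ENNReal.ofReal (|h| ^ ((r - 1) / 2)) * ENNReal.ofReal (1 / |h|))) := by
              ring
          _ = _ := by
              rw [← ENNReal.ofReal_mul (by positivity)]
              congr 5
              rw [Real.rpow_sub_one hh'.ne']
              ring
    _ = K ^ (r - 1) * ((2 ^ m) ^ (r - 1) * (Cm m * (L1 + L2))) := by
        rw [lintegral_const_mul', lintegral_add_left]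
        · rw [hL1, hL2]
          ring
        · exact gg_meas.mul (by fun_prop)
        · have h2 : ((2 : ℝ≥0∞) ^ m) ^ (r - 1) ≠ ∞ :=
            ENNReal.rpow_ne_top_of_nonneg (by linarith) (ENNReal.pow_ne_top (by norm_num))
          exact ENNReal.mul_ne_top h2 (Cm_ne m)

end Pool.Agent.P8H66.QP
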