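import Mathlib
import Pool.Agent.P8H66.QP.F
set_option autoImplicit false
set_option linter.unusedSectionVars false

/-! The bound for the Gaussian window, in adapted coordinates. -/

namespace Pool.Agent.P8H66.QP

open MeasureTheory Set
open Pool.Agent.TH277.HT (lint_mul lint_pi ch ch_norm ch_cont)
open scoped ENNReal NNReal

variable {m : ℕ}

/-- Fubini's theorem for the first coordinate. -/
lemma lint_cons (f : (Fin (m + 1) → ℝ) → ℝ≥0∞) (hf : Measurable f) :
    ∫⁻ x, f x = ∫⁻ u : ℝ, ∫⁻ k : Fin m → ℝ, f (Fin.cons u k) := by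
  have h1 := (measurePreserving_piFinSuccAbove (fun _ : Fin (m + 1) => (volume : Measure ℝ)) 0).symm
  rw [volume_pi, ← h1.lintegral_comp_emb (MeasurableEquiv.measurableEmbedding _)]
  have h2 : ∀ p : ℝ × (Fin m → ℝ), (MeasurableEquiv.piFinSuccAbove
      (fun _ : Fin (m + 1) => ℝ) 0).symm p = Fin.cons p.1 p.2 := by
    intro p
    simp [MeasurableEquiv.piFinSuccAbove_symm_apply, Fin.insertNthEquiv]
  simp only [h2]
  rw [lintegral_prod]
  · rw [← volume_pi]
  · apply Measurable.aemeasurable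
    apply hf.comp
    have h3 : (fun p : ℝ × (Fin m → ℝ) => (Fin.cons p.1 p.2 : Fin (m + 1) → ℝ)) =
        fun p => (MeasurableEquiv.piFinSuccAbove (fun _ : Fin (m + 1) => ℝ) 0).symm p := by
      ext1 p
      exact (h2 p).symm
    rw [h3]
    exact MeasurableEquiv.measurable _

lemma lint_E (f : EuclideanSpace ℝ (Fin (m + 1)) → ℝ≥0∞) :
    ∫⁻ x, f x = ∫⁻ y : Fin (m + 1) → ℝ, f (WithLp.toLp 2 y) :=
  ((PiLp.volume_preserving_toLp (Fin (m + 1))).lintegral_comp_emb
    (MeasurableEquiv.toLp 2 (Fin (m + 1) → ℝ)).measurableEmbedding f).symm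

lemma Qf_cont (β b : Fin m → ℝ) (t : ℝ) : Continuous (Qf β b t) := by
  unfold Qf
  fun_prop

lemma FF_meas {a : ℝ → ℂ} (ha : Bd a) (β b : Fin m → ℝ) (t : ℝ) : Measurable (FF a β b t) := by
  unfold FF
  have h1 : Measurable fun ξ : EuclideanSpace ℝ (Fin (m + 1)) => a (ξ 0) :=
    ha.meas.comp (by fun_prop)
  have h2 : Continuous fun ξ : EuclideanSpace ℝ (Fin (m + 1)) =>
      ((Real.exp (-(Real.pi * ∑ j, ξ j ^ 2)) : ℝ) : ℂ) := by fun_prop
  exact (h1.mul h2.measurable).mul (ch_cont.comp (Qf_cont β b t)).measurable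

lemma FF_enorm {a : ℝ → ℂ} (ha : Bd a) (β b : Fin m → ℝ) (t : ℝ)
    (ξ : EuclideanSpace ℝ (Fin (m + 1))) : ‖FF a β b t ξ‖ₑ ≤ ∏ j, gg (ξ j) := by
  unfold FF gg
  rw [← ENNReal.ofReal_prod_of_nonneg (fun _ _ => (Real.exp_pos _).le), ← Real.exp_sum,
    ← ofReal_norm, norm_mul, norm_mul, ch_norm, mul_one, Complex.norm_real, Real.norm_eq_abs,
    abs_of_pos (Real.exp_pos _)]
  apply ENNReal.ofReal_le_ofReal
  rw [Finset.sum_neg_distrib, ← Finset.mul_sum]
  calc ‖a (ξ 0)‖ * Real.exp (-(Real.pi * ∑ i, ξ i ^ 2))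
      ≤ 1 * Real.exp (-(Real.pi * ∑ i, ξ i ^ 2)) := by
        gcongr
        exact ha.bd _
    _ = _ := one_mul _

lemma FF_le {a : ℝ → ℂ} (ha : Bd a) (β b : Fin m → ℝ) (t : ℝ)
    (ξ : EuclideanSpace ℝ (Fin (m + 1))) : ‖FF a β b t ξ‖ ≤ 1 := by
  rw [← ENNReal.ofReal_le_one, ofReal_norm]
  refine (FF_enorm ha β b t ξ).trans ?_
  calc ∏ j, gg (ξ j) ≤ ∏ _j : Fin (m + 1), (1 : ℝ≥0∞) := Finset.prod_le_prod' fun i _ => gg_le _
    _ = 1 := by simp

lemma FF_lint {a : ℝ → ℂ} (ha : Bd a) (β b : Fin m → ℝ) (t : ℝ) :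
    ∫⁻ ξ, ‖FF a β b t ξ‖ₑ ≤ 1 := by
  calc ∫⁻ ξ, ‖FF a β b t ξ‖ₑ ≤ ∫⁻ ξ : EuclideanSpace ℝ (Fin (m + 1)), ∏ j, gg (ξ j) :=
        lintegral_mono fun ξ => FF_enorm ha β b t ξ
    _ = 1 := by
        rw [lint_E]
        simp only [PiLp.toLp_apply]
        rw [lint_pi (fun _ => gg) (fun _ => gg_meas)]
        simp [gg_int]

lemma FF_int {a : ℝ → ℂ} (ha : Bd a) (β b : Fin m → ℝ) (t : ℝ) : Integrable (FF a β b t) :=
  ⟨(FF_meas ha β b t).aestronglyMeasurable, lt_of_le_of_lt (FF_lint ha β b t) ENNReal.one_lt_top⟩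

lemma UU_L2 {a : ℝ → ℂ} (ha : Bd a) (β b : Fin m → ℝ) (t : ℝ) :
    ∫⁻ x, ‖UU (FF a β b t) x‖ₑ ^ 2 ≤ 1 := by
  rw [planchV _ (FF_int ha β b t) (memLp_two_of_bdd (FF_int ha β b t) (FF_le ha β b t))]
  refine le_trans (lintegral_mono fun ξ => ?_) (FF_lint ha β b t)
  rw [pow_two]
  calc ‖FF a β b t ξ‖ₑ * ‖FF a β b t ξ‖ₑ ≤ ‖FF a β b t ξ‖ₑ * 1 := by
        gcongr
        rw [← ofReal_norm, ENNReal.ofReal_le_one]
        exact FF_le ha β b t ξ
    _ = _ := mul_one _

attribute [local irreducible] Phi gg ww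

lemma UU_L4 {a : ℝ → ℂ} (ha : Bd a) (β b : Fin m → ℝ) (t : ℝ) :
    PP b t * ∫⁻ x, ‖UU (FF a β b t) x‖ₑ ^ 4 ≤ ZZ a β b t := by
  rw [L4 _ (FF_int ha β b t) (FF_le ha β b t)]
  have hP : PP b t ≠ ∞ := by
    unfold PP
    exact ENNReal.prod_ne_top fun _ _ => ENNReal.ofReal_ne_top
  have h1 : ∫⁻ h, ‖AA (FF a β b t) h‖ₑ ^ 2 ≤ ∫⁻ h, gg h * JJ (Phi a h) β b h t := by
    calc ∫⁻ h, ‖AA (FF a β b t) h‖ₑ ^ 2
        ≤ ∫⁻ h : EuclideanSpace ℝ (Fin (m + 1)), (∏ j, gg (h j)) * (Phi a (h 0) (2 * k0 β t h) *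
            ∏ i, ww (ki β b t h i)) := lintegral_mono fun h => AA_bd ha β b t h
      _ = ∫⁻ y : Fin (m + 1) → ℝ, (∏ j, gg (y j)) * (Phi a (y 0) (2 * k0 β t y) *
            ∏ i, ww (ki β b t y i)) := lint_E _
      _ = ∫⁻ u : ℝ, ∫⁻ k : Fin m → ℝ, gg u * (Phi a u (2 * (t * u + ∑ i, β i * k i)) *
            ∏ i, (gg (k i) * ww (β i * u + (t + b i) * k i))) := by
          rw [lint_cons]
          · apply lintegral_congr
            intro u
            apply lintegral_congr
            intro k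
            rw [Fin.prod_univ_succ, Finset.prod_mul_distrib]
            unfold k0 ki
            simp only [Fin.cons_zero, Fin.cons_succ]
            ring
          · have hy : ∀ i, Measurable fun y : Fin (m + 1) → ℝ => y i := fun i =>
              measurable_pi_apply i
            apply Measurable.mul
            · exact Finset.measurable_fun_prod _ fun i _ => gg_meas.comp (hy i)
            · apply Measurable.mul
              · have h2 : Measurable fun y : Fin (m + 1) → ℝ => (y 0, 2 * k0 β t y) := by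
                  apply Measurable.prodMk (hy 0)
                  unfold k0
                  apply Measurable.const_mul
                  apply Measurable.add ((hy 0).const_mul _)
                  exact Finset.measurable_fun_sum _ fun i _ => (hy _).const_mul _
                exact (Phi_meas ha).comp h2
              · apply Finset.measurable_fun_prod
                intro i _
                apply ww_meas.comp
                unfold ki
                exact ((hy 0).const_mul _).add ((hy _).const_mul _)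
      _ = ∫⁻ h, gg h * JJ (Phi a h) β b h t := by
          apply lintegral_congr
          intro u
          unfold JJ
          rw [lintegral_const_mul' _ _ (ne_top_of_le_ne_top ENNReal.one_ne_top (gg_le u))]
  unfold ZZ
  calc PP b t * ∫⁻ h, ‖AA (FF a β b t) h‖ₑ ^ 2
      ≤ PP b t * ∫⁻ h, gg h * JJ (Phi a h) β b h t := by gcongr
    _ = _ := by
        rw [← lintegral_const_mul' _ _ hP]
        apply lintegral_congr
        intro h
        ring

lemma UU_cont {a : ℝ → ℂ} (ha : Bd a) (β b : Fin m → ℝ) (t : ℝ) :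
    Continuous (UU (FF a β b t)) := by
  have h1 : UU (FF a β b t) = fun x => FourierTransform.fourier (FF a β b t) (-x) := by
    ext x
    exact UU_eq _ x
  rw [h1]
  have h2 : Continuous (FourierTransform.fourier (FF a β b t)) :=
    VectorFourier.fourierIntegral_continuous Real.continuous_fourierChar
      (by exact continuous_inner) (FF_int ha β b t)
  exact h2.comp continuous_neg

attribute [local irreducible] JJ PP ZZ UU FF

/-- The bound for the Gaussian window. -/
theorem baseG (hm : 1 ≤ m) (q : ℝ) (hq : 2 + 2 / ((m : ℝ) + 1) < q) (hq4 : q < 4) :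
    ∃ C : ℝ≥0∞, C ≠ ∞ ∧ ∀ (a : ℝ → ℂ) (β b : Fin m → ℝ), Bd a →
      ∫⁻ t, ∫⁻ x, ‖UU (FF a β b t) x‖ₑ ^ q ≤ C := by
  set n : ℝ := (m : ℝ) + 1 with hn
  have hm1 : (1 : ℝ) ≤ m := by exact_mod_cast hm
  have hn0 : 0 < n := by linarith
  set θ : ℝ := (q - 2) / 2 with hθ
  have hq2 : 2 < q := by
    have : 0 < 2 / n := by positivity
    linarith
  have hθ0 : 0 < θ := by rw [hθ]; linarith
  have hθ1 : θ < 1 := by rw [hθ]; linarith
  have hnθ : 1 < n * θ := by
    have h1 : 2 / n < q - 2 := by linarith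
    rw [div_lt_iff₀ hn0] at h1
    rw [hθ]
    linarith
  obtain ⟨C1, hC1, H1⟩ := ZZ_time (m := m) (n * θ) hnθ
  set C2 : ℝ≥0∞ := ∫⁻ t : ℝ, (ENNReal.ofReal (1 + |t|)) ^ (-(n * θ)) with hC2
  have hC2t : C2 ≠ ∞ := by
    have h1 := finite_integral_one_add_norm (E := ℝ) (μ := volume) (r := n * θ) (by simpa using hnθ)
    rw [hC2]
    refine ne_of_lt (lt_of_le_of_lt (le_of_eq ?_) h1)
    apply lintegral_congr
    intro t
    rw [ENNReal.ofReal_rpow_of_pos (by positivity), Real.norm_eq_abs]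
  refine ⟨C1 ^ (1 / n) * ∏ _i : Fin m, C2 ^ (1 / n), ?_, ?_⟩
  · apply ENNReal.mul_ne_top (ENNReal.rpow_ne_top_of_nonneg (by positivity) hC1)
    exact ENNReal.prod_ne_top fun _ _ => ENNReal.rpow_ne_top_of_nonneg (by positivity) hC2t
  intro a β b ha
  have hZm : Measurable (ZZ a β b) := by
    unfold ZZ
    apply Measurable.lintegral_prod_right' (f := fun p : ℝ × ℝ =>
      gg p.2 * (PP b p.1 * JJ (Phi a p.2) β b p.2 p.1))
    apply (gg_meas.comp measurable_snd).mul
    apply ((PP_meas b).comp measurable_fst).mul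
    exact (JJ_meas ha β b).comp (by fun_prop : Measurable fun p : ℝ × ℝ => (p.2, p.1))
  -- fixed time
  have h1 : ∀ t, ∫⁻ x, ‖UU (FF a β b t) x‖ₑ ^ q ≤
      ZZ a β b t ^ θ * ∏ i, (ENNReal.ofReal (1 + |t + b i|)) ^ (-θ) := by
    intro t
    have hm2 : Measurable fun x => ‖UU (FF a β b t) x‖ₑ := (UU_cont ha β b t).measurable.enorm
    have h2 : ∀ x, ‖UU (FF a β b t) x‖ₑ ^ q =
        (‖UU (FF a β b t) x‖ₑ ^ 2) ^ (1 - θ) * (‖UU (FF a β b t) x‖ₑ ^ 4) ^ θ := by
      intro x
      rw [← ENNReal.rpow_natCast, ← ENNReal.rpow_natCast, ← ENNReal.rpow_mul, ← ENNReal.rpow_mul,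
        ← ENNReal.rpow_add_of_nonneg _ _ (by
          have : 0 ≤ 1 - θ := by linarith
          positivity) (by positivity)]
      congr 1
      rw [hθ]
      push_cast
      ring
    simp only [h2]
    refine (ENNReal.lintegral_mul_norm_pow_le (hm2.pow_const 2).aemeasurable
      (hm2.pow_const 4).aemeasurable (by linarith) hθ0.le (by ring)).trans ?_
    have h3 : (∫⁻ x, ‖UU (FF a β b t) x‖ₑ ^ 2) ^ (1 - θ) ≤ 1 :=
      ENNReal.rpow_le_one (UU_L2 ha β b t) (by linarith)
    have hP0 : PP b t ≠ 0 := by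
      rw [PP]
      rw [Finset.prod_ne_zero_iff]
      intro i _
      simp only [ne_eq, ENNReal.ofReal_eq_zero, not_le]
      positivity
    have hP : PP b t ≠ ∞ := by
      unfold PP
      exact ENNReal.prod_ne_top fun _ _ => ENNReal.ofReal_ne_top
    have h4 : ∫⁻ x, ‖UU (FF a β b t) x‖ₑ ^ 4 ≤ ZZ a β b t * (PP b t)⁻¹ := by
      rw [← div_eq_mul_inv, ENNReal.le_div_iff_mul_le (Or.inl hP0) (Or.inl hP), mul_comm]
      exact UU_L4 ha β b t
    calc _ ≤ 1 * (ZZ a β b t * (PP b t)⁻¹) ^ θ := by gcongr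
      _ = ZZ a β b t ^ θ * (PP b t) ^ (-θ) := by
          rw [one_mul, ENNReal.mul_rpow_of_nonneg _ _ hθ0.le, ENNReal.inv_rpow, ENNReal.rpow_neg]
      _ = _ := by
          congr 1
          unfold PP
          rw [← ENNReal.prod_rpow_of_ne_top]
          intro i _
          exact ENNReal.ofReal_ne_top
  set f : Fin (m + 1) → ℝ → ℝ≥0∞ := Fin.cons (fun t => ZZ a β b t ^ (n * θ))
    (fun i t => (ENNReal.ofReal (1 + |t + b i|)) ^ (-(n * θ))) with hf
  calc ∫⁻ t, ∫⁻ x, ‖UU (FF a β b t) x‖ₑ ^ q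
      ≤ ∫⁻ t, ZZ a β b t ^ θ * ∏ i, (ENNReal.ofReal (1 + |t + b i|)) ^ (-θ) := lintegral_mono h1
    _ = ∫⁻ t, ∏ j, f j t ^ (1 / n) := by
        apply lintegral_congr
        intro t
        rw [Fin.prod_univ_succ]
        simp only [hf, Fin.cons_zero, Fin.cons_succ]
        rw [← ENNReal.rpow_mul]
        congr 2
        · field_simp
        · ext i
          rw [← ENNReal.rpow_mul]
          congr 1
          field_simp
    _ ≤ ∏ j, (∫⁻ t, f j t) ^ (1 / n) := by
        apply ENNReal.lintegral_prod_norm_pow_le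
        · intro j _
          apply Measurable.aemeasurable
          refine Fin.cases ?_ (fun i => ?_) j
          · simp only [hf, Fin.cons_zero]
            exact hZm.pow_const _
          · simp only [hf, Fin.cons_succ]
            fun_prop
        · rw [Finset.sum_const, Finset.card_univ, Fintype.card_fin, nsmul_eq_mul]
          push_cast
          rw [← hn]
          field_simp
        · intro _ _
          positivity
    _ ≤ _ := by
        rw [Fin.prod_univ_succ]
        simp only [hf, Fin.cons_zero, Fin.cons_succ]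
        gcongr with i _
        · exact H1 a β b ha
        · rw [hC2]
          exact le_of_eq (lintegral_add_right_eq_self
            (fun t => (ENNReal.ofReal (1 + |t|)) ^ (-(n * θ))) (b i))

end Pool.Agent.P8H66.QP
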