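import Mathlib
import Pool.Agent.P8H66.QP.G
set_option autoImplicit false
set_option linter.unusedSectionVars false

/-! Adapted orthonormal bases; the bound in general position. -/

namespace Pool.Agent.P8H66.QP

open MeasureTheory Set
open Pool.Agent.TH277.HT (lint_mul lint_pi ch ch_norm ch_enorm ch_add ch_cont)
open scoped ENNReal NNReal RealInnerProductSpace

variable {m : ℕ}

/-- There is an orthonormal basis which starts with a given unit vector and diagonalises the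
compression of a given symmetric map to its orthogonal complement. -/
lemma exists_basis (ω : EuclideanSpace ℝ (Fin (m + 1))) (hω : ‖ω‖ = 1)
    (B : EuclideanSpace ℝ (Fin (m + 1)) →ₗ[ℝ] EuclideanSpace ℝ (Fin (m + 1)))
    (hB : B.IsSymmetric) :
    ∃ e : OrthonormalBasis (Fin (m + 1)) ℝ (EuclideanSpace ℝ (Fin (m + 1))), e 0 = ω ∧
      ∀ i j : Fin m, i ≠ j → ⟪e i.succ, B (e j.succ)⟫ = 0 := by
  set W : Submodule ℝ (EuclideanSpace ℝ (Fin (m + 1))) := (ℝ ∙ ω)ᗮ with hW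
  have hω0 : ω ≠ 0 := by
    intro h
    rw [h, norm_zero] at hω
    exact zero_ne_one hω
  have hfr : Module.finrank ℝ W = m := by
    have h1 := Submodule.finrank_orthogonal_span_singleton (𝕜 := ℝ) (n := m) (v := ω)
      (_i := ⟨by simp⟩) hω0
    exact h1
  set T : W →ₗ[ℝ] W := (W.orthogonalProjectionOnto : _ →ₗ[ℝ] W) ∘ₗ B ∘ₗ W.subtype with hT
  have hTs : T.IsSymmetric := by
    intro u v
    simp only [hT, LinearMap.comp_apply, Submodule.subtype_apply, ContinuousLinearMap.coe_coe]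
    rw [Submodule.inner_orthogonalProjectionOnto_eq_of_mem_right,
      Submodule.inner_orthogonalProjectionOnto_eq_of_mem_left]
    exact hB _ _
  set f := hTs.eigenvectorBasis hfr with hf
  set v : Fin (m + 1) → EuclideanSpace ℝ (Fin (m + 1)) :=
    Fin.cons ω (fun i => (f i : EuclideanSpace ℝ (Fin (m + 1)))) with hv
  have hmem : ∀ i : Fin m, ⟪ω, (f i : EuclideanSpace ℝ (Fin (m + 1)))⟫ = 0 := by
    intro i
    have h1 : (f i : EuclideanSpace ℝ (Fin (m + 1))) ∈ (ℝ ∙ ω)ᗮ := (f i).2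
    exact Submodule.mem_orthogonal_singleton_iff_inner_right.1 h1
  have hvo : Orthonormal ℝ v := by
    rw [orthonormal_iff_ite]
    intro i j
    refine Fin.cases ?_ (fun i' => ?_) i <;> refine Fin.cases ?_ (fun j' => ?_) j
    · simp [hv, hω]
    · simp only [hv, Fin.cons_zero, Fin.cons_succ, hmem]
      rw [if_neg (Fin.succ_ne_zero j').symm]
    · simp only [hv, Fin.cons_zero, Fin.cons_succ]
      rw [real_inner_comm, hmem, if_neg (Fin.succ_ne_zero i')]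
    · simp only [hv, Fin.cons_succ, Fin.succ_inj]
      rw [← Submodule.coe_inner]
      exact (orthonormal_iff_ite.1 f.orthonormal) i' j'
  have hvo' : Orthonormal ℝ ((univ : Set (Fin (m + 1))).domRestrict v) :=
    hvo.comp _ Subtype.val_injective
  obtain ⟨e, he⟩ := hvo'.exists_orthonormalBasis_extension_of_card_eq (by simp)
  refine ⟨e, ?_, ?_⟩
  · rw [he 0 (mem_univ _)]
    simp [hv]
  · intro i j hij
    rw [he _ (mem_univ _), he _ (mem_univ _)]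
    simp only [hv, Fin.cons_succ]
    have h1 : ⟪(f i : EuclideanSpace ℝ (Fin (m + 1))), B (f j : EuclideanSpace ℝ (Fin (m + 1)))⟫ =
        ⟪f i, T (f j)⟫ := by
      simp only [hT, LinearMap.comp_apply, Submodule.subtype_apply, ContinuousLinearMap.coe_coe]
      rw [Submodule.inner_orthogonalProjectionOnto_eq_of_mem_left]
    rw [h1, hf, hTs.apply_eigenvectorBasis, inner_smul_right]
    have h2 := (orthonormal_iff_ite.1 f.orthonormal) i j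
    rw [hf] at h2
    rw [h2, if_neg hij, mul_zero]

/-- the extension operator on functions on the whole space -/
noncomputable def EX {n : ℕ} (f : EuclideanSpace ℝ (Fin n) → ℂ) (t : ℝ)
    (x : EuclideanSpace ℝ (Fin n)) : ℂ := ∫ ξ, ch (⟪ξ, x⟫ + ‖ξ‖ ^ 2 * t) * f ξ

/-- the atoms -/
noncomputable def att {n : ℕ} (a : ℝ → ℂ) (ω y : EuclideanSpace ℝ (Fin n))
    (B : EuclideanSpace ℝ (Fin n) →ₗ[ℝ] EuclideanSpace ℝ (Fin n))
    (ξ : EuclideanSpace ℝ (Fin n)) : ℂ := a ⟪ω, ξ⟫ * ch (⟪ξ, B ξ⟫ + ⟪y, ξ⟫)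

/-- the Gaussian window -/
noncomputable def GG {n : ℕ} (ξ : EuclideanSpace ℝ (Fin n)) : ℂ :=
  ((Real.exp (-(Real.pi * ‖ξ‖ ^ 2)) : ℝ) : ℂ)

lemma quad_form (e : OrthonormalBasis (Fin (m + 1)) ℝ (EuclideanSpace ℝ (Fin (m + 1))))
    (B : EuclideanSpace ℝ (Fin (m + 1)) →ₗ[ℝ] EuclideanSpace ℝ (Fin (m + 1)))
    (hB : B.IsSymmetric) (he : ∀ i j : Fin m, i ≠ j → ⟪e i.succ, B (e j.succ)⟫ = 0)
    (ξ : EuclideanSpace ℝ (Fin (m + 1))) :
    ⟪ξ, B ξ⟫ = e.repr ξ 0 ^ 2 * ⟪e 0, B (e 0)⟫ +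
      ∑ i : Fin m, (2 * ⟪e 0, B (e i.succ)⟫ * (e.repr ξ 0 * e.repr ξ i.succ) +
        ⟪e i.succ, B (e i.succ)⟫ * e.repr ξ i.succ ^ 2) := by
  have h1 : ∀ i, ⟪e i, B ξ⟫ = ∑ j, e.repr ξ j * ⟪e i, B (e j)⟫ := by
    intro i
    conv_lhs => rw [← e.sum_repr ξ]
    rw [map_sum, inner_sum]
    refine Finset.sum_congr rfl fun j _ => ?_
    rw [map_smul, inner_smul_right]
  have h2 : ⟪ξ, B ξ⟫ = ∑ i, e.repr ξ i * ⟪e i, B ξ⟫ := by
    nth_rewrite 1 [← e.sum_repr ξ]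
    rw [sum_inner]
    refine Finset.sum_congr rfl fun j _ => ?_
    rw [inner_smul_left]
    simp
  rw [h2]
  simp only [h1]
  rw [Fin.sum_univ_succ]
  simp only [Fin.sum_univ_succ]
  have h3 : ∀ i : Fin m, ∑ j : Fin m, e.repr ξ j.succ * ⟪e i.succ, B (e j.succ)⟫ =
      e.repr ξ i.succ * ⟪e i.succ, B (e i.succ)⟫ := by
    intro i
    rw [Finset.sum_eq_single i]
    · intro j _ hj
      rw [he i j hj.symm, mul_zero]
    · intro h
      exact absurd (Finset.mem_univ _) h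
  simp only [h3]
  have h4 : ∀ i : Fin m, ⟪e i.succ, B (e 0)⟫ = ⟪e 0, B (e i.succ)⟫ := by
    intro i
    rw [← hB, real_inner_comm]
  simp only [h4]
  rw [mul_add, Finset.mul_sum, add_assoc, ← Finset.sum_add_distrib]
  congr 1
  · ring
  · refine Finset.sum_congr rfl fun i _ => ?_
    ring

lemma att_eq (e : OrthonormalBasis (Fin (m + 1)) ℝ (EuclideanSpace ℝ (Fin (m + 1))))
    (B : EuclideanSpace ℝ (Fin (m + 1)) →ₗ[ℝ] EuclideanSpace ℝ (Fin (m + 1)))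
    (hB : B.IsSymmetric) (he : ∀ i j : Fin m, i ≠ j → ⟪e i.succ, B (e j.succ)⟫ = 0)
    (a : ℝ → ℂ) (y : EuclideanSpace ℝ (Fin (m + 1))) (t : ℝ)
    (x ξ : EuclideanSpace ℝ (Fin (m + 1))) :
    ch (⟪ξ, x⟫ + ‖ξ‖ ^ 2 * t) * (att a (e 0) y B ξ * GG ξ) =
      ch ⟪e.repr ξ, e.repr (x + y)⟫ * FF (fun u => a u * ch (u ^ 2 * ⟪e 0, B (e 0)⟫))
        (fun i => ⟪e 0, B (e i.succ)⟫) (fun i => ⟪e i.succ, B (e i.succ)⟫) t (e.repr ξ) := by
  have h0 : ‖ξ‖ ^ 2 = ∑ j, e.repr ξ j ^ 2 := by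
    rw [← e.repr.norm_map ξ, EuclideanSpace.real_norm_sq_eq]
  have h1 : ⟪e 0, ξ⟫ = e.repr ξ 0 := (e.repr_apply_apply ξ 0).symm
  have h2 : ⟪e.repr ξ, e.repr (x + y)⟫ = ⟪ξ, x⟫ + ⟪y, ξ⟫ := by
    rw [e.repr.inner_map_map, inner_add_right, real_inner_comm y ξ]
  unfold att GG FF
  rw [h1, h2, quad_form e B hB he ξ, h0]
  have h3 : ⟪ξ, x⟫ + (∑ j, e.repr ξ j ^ 2) * t + (e.repr ξ 0 ^ 2 * ⟪e 0, B (e 0)⟫ +
      ∑ i : Fin m, (2 * ⟪e 0, B (e i.succ)⟫ * (e.repr ξ 0 * e.repr ξ i.succ) +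
        ⟪e i.succ, B (e i.succ)⟫ * e.repr ξ i.succ ^ 2) + ⟪y, ξ⟫) =
      (⟪ξ, x⟫ + ⟪y, ξ⟫) + (e.repr ξ 0 ^ 2 * ⟪e 0, B (e 0)⟫ +
        Qf (fun i => ⟪e 0, B (e i.succ)⟫) (fun i => ⟪e i.succ, B (e i.succ)⟫) t (e.repr ξ)) := by
    unfold Qf
    rw [Fin.sum_univ_succ, add_mul, Finset.sum_mul]
    have h4 : ∑ i : Fin m, (2 * ⟪e 0, B (e i.succ)⟫ * (e.repr ξ 0 * e.repr ξ i.succ) +
        (t + ⟪e i.succ, B (e i.succ)⟫) * e.repr ξ i.succ ^ 2) =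
        ∑ i : Fin m, e.repr ξ i.succ ^ 2 * t +
        ∑ i : Fin m, (2 * ⟪e 0, B (e i.succ)⟫ * (e.repr ξ 0 * e.repr ξ i.succ) +
        ⟪e i.succ, B (e i.succ)⟫ * e.repr ξ i.succ ^ 2) := by
      rw [← Finset.sum_add_distrib]
      refine Finset.sum_congr rfl fun i _ => ?_
      ring
    rw [h4]
    ring
  have h5 := congrArg ch h3
  rw [ch_add, ch_add (⟪ξ, x⟫ + ⟪y, ξ⟫), ch_add (e.repr ξ 0 ^ 2 * ⟪e 0, B (e 0)⟫)] at h5
  calc _ = (ch (⟪ξ, x⟫ + (∑ j, e.repr ξ j ^ 2) * t) * ch (e.repr ξ 0 ^ 2 * ⟪e 0, B (e 0)⟫ +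
      ∑ i : Fin m, (2 * ⟪e 0, B (e i.succ)⟫ * (e.repr ξ 0 * e.repr ξ i.succ) +
        ⟪e i.succ, B (e i.succ)⟫ * e.repr ξ i.succ ^ 2) + ⟪y, ξ⟫)) * a (e.repr ξ 0) *
        ((Real.exp (-(Real.pi * ∑ j, e.repr ξ j ^ 2)) : ℝ) : ℂ) := by ring
    _ = _ := by
        rw [h5]
        ring

lemma EX_att (e : OrthonormalBasis (Fin (m + 1)) ℝ (EuclideanSpace ℝ (Fin (m + 1))))
    (B : EuclideanSpace ℝ (Fin (m + 1)) →ₗ[ℝ] EuclideanSpace ℝ (Fin (m + 1)))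
    (hB : B.IsSymmetric) (he : ∀ i j : Fin m, i ≠ j → ⟪e i.succ, B (e j.succ)⟫ = 0)
    (a : ℝ → ℂ) (y : EuclideanSpace ℝ (Fin (m + 1))) (t : ℝ)
    (x : EuclideanSpace ℝ (Fin (m + 1))) :
    EX (fun ξ => att a (e 0) y B ξ * GG ξ) t x =
      UU (FF (fun u => a u * ch (u ^ 2 * ⟪e 0, B (e 0)⟫))
        (fun i => ⟪e 0, B (e i.succ)⟫) (fun i => ⟪e i.succ, B (e i.succ)⟫) t) (e.repr (x + y)) := by
  unfold EX UU
  simp only [att_eq e B hB he]
  exact e.measurePreserving_repr.integral_comp e.repr.toHomeomorph.measurableEmbedding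
    (fun η => ch ⟪η, e.repr (x + y)⟫ * FF (fun u => a u * ch (u ^ 2 * ⟪e 0, B (e 0)⟫))
        (fun i => ⟪e 0, B (e i.succ)⟫) (fun i => ⟪e i.succ, B (e i.succ)⟫) t η)

/-- The bound for the Gaussian window in general position. -/
theorem genG (hm : 1 ≤ m) (q : ℝ) (hq : 2 + 2 / ((m : ℝ) + 1) < q) (hq4 : q < 4) :
    ∃ C : ℝ≥0∞, C ≠ ∞ ∧ ∀ (a : ℝ → ℂ) (ω y : EuclideanSpace ℝ (Fin (m + 1)))
      (B : EuclideanSpace ℝ (Fin (m + 1)) →ₗ[ℝ] EuclideanSpace ℝ (Fin (m + 1))),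
      Bd a → B.IsSymmetric →
      ∫⁻ t, ∫⁻ x, ‖EX (fun ξ => att a ω y B ξ * GG ξ) t x‖ₑ ^ q ≤ C := by
  obtain ⟨C, hC, H⟩ := baseG hm q hq hq4
  refine ⟨C, hC, ?_⟩
  -- unit vectors
  have hunit : ∀ (a : ℝ → ℂ) (ω y : EuclideanSpace ℝ (Fin (m + 1)))
      (B : EuclideanSpace ℝ (Fin (m + 1)) →ₗ[ℝ] EuclideanSpace ℝ (Fin (m + 1))),
      Bd a → B.IsSymmetric → ‖ω‖ = 1 →
      ∫⁻ t, ∫⁻ x, ‖EX (fun ξ => att a ω y B ξ * GG ξ) t x‖ₑ ^ q ≤ C := by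
    intro a ω y B ha hB hω
    obtain ⟨e, he0, he⟩ := exists_basis ω hω B hB
    subst he0
    have ha' : Bd (fun u => a u * ch (u ^ 2 * ⟪e 0, B (e 0)⟫)) := by
      constructor
      · exact ha.meas.mul (ch_cont.comp (by fun_prop)).measurable
      · intro u
        rw [norm_mul, ch_norm, mul_one]
        exact ha.bd u
    refine le_trans (le_of_eq ?_) (H _ (fun i => ⟪e 0, B (e i.succ)⟫)
      (fun i => ⟪e i.succ, B (e i.succ)⟫) ha')
    apply lintegral_congr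
    intro t
    simp only [EX_att e B hB he]
    set F := UU (FF (fun u => a u * ch (u ^ 2 * ⟪e 0, B (e 0)⟫))
        (fun i => ⟪e 0, B (e i.succ)⟫) (fun i => ⟪e i.succ, B (e i.succ)⟫) t) with hF
    rw [lintegral_add_right_eq_self (fun x => ‖F (e.repr x)‖ₑ ^ q) y]
    exact e.measurePreserving_repr.lintegral_comp_emb e.repr.toHomeomorph.measurableEmbedding
      (fun z => ‖F z‖ₑ ^ q)
  intro a ω y B ha hB
  by_cases hω : ω = 0
  · set ω' : EuclideanSpace ℝ (Fin (m + 1)) := EuclideanSpace.single 0 1 with hω'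
    have h1 : ‖ω'‖ = 1 := by rw [hω']; simp
    have h2 := hunit (fun _ => a 0) ω' y B ⟨measurable_const, fun _ => ha.bd 0⟩ hB h1
    refine le_trans (le_of_eq ?_) h2
    have h3 : att a ω y B = att (fun _ => a 0) ω' y B := by
      ext ξ
      unfold att
      rw [hω, inner_zero_left]
    rw [h3]
  · have hn : 0 < ‖ω‖ := norm_pos_iff.2 hω
    set ω' : EuclideanSpace ℝ (Fin (m + 1)) := ‖ω‖⁻¹ • ω with hω'
    have h1 : ‖ω'‖ = 1 := by
      rw [hω', norm_smul, norm_inv, norm_norm, inv_mul_cancel₀ hn.ne']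
    have h2 := hunit (fun u => a (‖ω‖ * u)) ω' y B
      ⟨ha.meas.comp (by fun_prop), fun _ => ha.bd _⟩ hB h1
    refine le_trans (le_of_eq ?_) h2
    have h3 : att a ω y B = att (fun u => a (‖ω‖ * u)) ω' y B := by
      ext ξ
      have h4 : ‖ω‖ * ⟪ω', ξ⟫ = ⟪ω, ξ⟫ := by
        rw [hω', real_inner_smul_left, ← mul_assoc, mul_inv_cancel₀ hn.ne', one_mul]
      unfold att
      simp only [h4]
    rw [h3]

end Pool.Agent.P8H66.QP
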