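import Mathlib
import Pool.Agent.P8H66.QP.H
set_option autoImplicit false
set_option linter.unusedSectionVars false

/-! The tent function and multiplication by functions with integrable Fourier transform. -/

namespace Pool.Agent.P8H66.QP

open MeasureTheory Set FourierTransform
open Pool.Agent.TH277.HT (lint_mul lint_pi ch ch_norm ch_enorm ch_add ch_cont ch_conj plancherel)
open scoped ENNReal NNReal RealInnerProductSpace

/-- the tent function -/
noncomputable def tent (s : ℝ) : ℝ := max 0 (1 - |s|)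

/-- the indicator function of `[-1/2,1/2]` -/
noncomputable def I0 : ℝ → ℂ := (Icc (-(1 / 2) : ℝ) (1 / 2)).indicator fun _ => 1

lemma I0_int : Integrable I0 := by
  unfold I0
  rw [integrable_indicator_iff measurableSet_Icc]
  exact integrableOn_const (by simp) (by simp)

lemma I0_norm (u : ℝ) : ‖I0 u‖ ≤ 1 := by
  unfold I0
  by_cases h : u ∈ Icc (-(1 / 2) : ℝ) (1 / 2)
  · rw [indicator_of_mem h]; simp
  · rw [indicator_of_notMem h]; simp

/-- the Fourier transform of the tent function -/
noncomputable def kt (η : ℝ) : ℂ := ((‖𝓕 I0 η‖ ^ 2 : ℝ) : ℂ)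

lemma kt_lint : ∫⁻ η, ‖kt η‖ₑ = 1 := by
  have h1 := plancherel I0 I0_int (memLp_two_of_bdd I0_int I0_norm)
  have h2 : ∀ η, ‖kt η‖ₑ = ‖𝓕 I0 η‖ₑ ^ 2 := by
    intro η
    unfold kt
    rw [← ofReal_norm, Complex.norm_real, Real.norm_eq_abs, abs_of_nonneg (by positivity),
      ENNReal.ofReal_pow (norm_nonneg _), ofReal_norm]
  simp only [h2]
  rw [h1]
  have h3 : ∀ u, ‖I0 u‖ₑ ^ 2 = (Icc (-(1 / 2) : ℝ) (1 / 2)).indicator (fun _ => 1) u := by
    intro u
    unfold I0
    by_cases h : u ∈ Icc (-(1 / 2) : ℝ) (1 / 2)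
    · rw [indicator_of_mem h, indicator_of_mem h]; simp
    · rw [indicator_of_notMem h, indicator_of_notMem h]; simp
  simp only [h3]
  rw [lintegral_indicator measurableSet_Icc, setLIntegral_one, Real.volume_Icc]
  norm_num

lemma kt_meas : Measurable kt := by
  unfold kt
  have h2 : Continuous (𝓕 I0) :=
    VectorFourier.fourierIntegral_continuous Real.continuous_fourierChar
      (by exact continuous_inner) I0_int
  fun_prop

lemma kt_int : Integrable kt :=
  ⟨kt_meas.aestronglyMeasurable, by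
    rw [HasFiniteIntegral, kt_lint]
    exact ENNReal.one_lt_top⟩

lemma shift_ft (s η : ℝ) : 𝓕 (fun u => I0 (u - s)) η = ch (-(η * s)) * 𝓕 I0 η := by
  rw [Real.fourier_eq, Real.fourier_eq,
    ← integral_add_right_eq_self (fun u => Real.fourierChar (-⟪u, η⟫) • I0 (u - s)) s,
    ← integral_const_mul]
  apply integral_congr_ae
  refine ae_of_all _ fun u => ?_
  simp only [add_sub_cancel_right]
  rw [Circle.smul_def, Circle.smul_def, Real.fourierChar_apply, Real.fourierChar_apply, smul_eq_mul,
    smul_eq_mul, ← mul_assoc]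
  congr 1
  unfold ch
  rw [← Complex.exp_add]
  congr 1
  simp only [RCLike.inner_apply, conj_trivial]
  push_cast
  ring

lemma overlap (s : ℝ) : ∫ u, (starRingEnd ℂ) (I0 u) * I0 (u - s) = ((tent s : ℝ) : ℂ) := by
  have h1 : ∀ u, (starRingEnd ℂ) (I0 u) * I0 (u - s) =
      (Icc (max (-(1 / 2)) (s - 1 / 2)) (min (1 / 2) (s + 1 / 2))).indicator (fun _ => (1 : ℂ)) u := by
    intro u
    unfold I0
    by_cases h : u ∈ Icc (-(1 / 2) : ℝ) (1 / 2)
    · by_cases h' : u - s ∈ Icc (-(1 / 2) : ℝ) (1 / 2)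
      · rw [indicator_of_mem h, indicator_of_mem h', indicator_of_mem]
        · simp
        · obtain ⟨h1, h2⟩ := h
          obtain ⟨h3, h4⟩ := h'
          exact ⟨max_le h1 (by linarith), le_min h2 (by linarith)⟩
      · rw [indicator_of_notMem h', mul_zero, indicator_of_notMem]
        rintro ⟨h1, h2⟩
        exact h' ⟨by linarith [(max_le_iff.1 h1).2], by linarith [(le_min_iff.1 h2).2]⟩
    · rw [indicator_of_notMem h, map_zero, zero_mul, indicator_of_notMem]
      rintro ⟨h1, h2⟩
      exact h ⟨(max_le_iff.1 h1).1, (le_min_iff.1 h2).1⟩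
  simp only [h1]
  rw [integral_indicator measurableSet_Icc, setIntegral_const, Measure.real, Real.volume_Icc,
    ENNReal.toReal_ofReal']
  simp only [Complex.real_smul, mul_one]
  congr 1
  unfold tent
  rw [max_comm]
  congr 1
  rcases le_total 0 s with h | h
  · rw [max_eq_right (by linarith), min_eq_left (by linarith), abs_of_nonneg h]
    ring
  · rw [max_eq_left (by linarith), min_eq_right (by linarith), abs_of_nonpos h]
    ring

lemma tent_ft (s : ℝ) : ((tent s : ℝ) : ℂ) = ∫ η, kt η * ch (η * s) := by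
  have hs : Integrable fun u => I0 (u - -s) := I0_int.comp_sub_right (-s)
  have h1 := parseval I0 (fun u => I0 (u - -s)) I0_int hs
    (memLp_two_of_bdd I0_int I0_norm) (memLp_two_of_bdd hs fun u => I0_norm _)
  rw [overlap] at h1
  have h2 : tent (-s) = tent s := by unfold tent; rw [abs_neg]
  rw [h2] at h1
  rw [← h1]
  apply integral_congr_ae
  refine ae_of_all _ fun η => ?_
  simp only
  rw [shift_ft]
  unfold kt
  have h3 : (starRingEnd ℂ) (𝓕 I0 η) * 𝓕 I0 η = ((‖𝓕 I0 η‖ ^ 2 : ℝ) : ℂ) := by
    rw [mul_comm, Complex.mul_conj, Complex.normSq_eq_norm_sq]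
  rw [show -(η * -s) = η * s by ring, ← h3]
  ring

end Pool.Agent.P8H66.QP
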