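import Mathlib
import Pool.Agent.P8H66.QP.I
set_option autoImplicit false
set_option linter.unusedSectionVars false

/-! The extension operator and multiplication by functions with integrable Fourier transform. -/

namespace Pool.Agent.P8H66.QP

open MeasureTheory Set FourierTransform
open Pool.Agent.TH277.HT (lint_mul lint_pi ch ch_norm ch_enorm ch_add ch_cont ch_conj plancherel)
open scoped ENNReal NNReal RealInnerProductSpace

variable {n : ℕ}

/-- the extension operator on functions on the whole space, as a function of `(x, t)` -/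
noncomputable def EP (f : EuclideanSpace ℝ (Fin n) → ℂ)
    (p : EuclideanSpace ℝ (Fin n) × ℝ) : ℂ := EX f p.2 p.1

lemma ph_cont (t : ℝ) (x : EuclideanSpace ℝ (Fin n)) :
    Continuous fun ξ : EuclideanSpace ℝ (Fin n) => ch (⟪ξ, x⟫ + ‖ξ‖ ^ 2 * t) :=
  ch_cont.comp (by fun_prop)

lemma EP_int {f : EuclideanSpace ℝ (Fin n) → ℂ} (hf : Integrable f) (t : ℝ)
    (x : EuclideanSpace ℝ (Fin n)) : Integrable fun ξ => ch (⟪ξ, x⟫ + ‖ξ‖ ^ 2 * t) * f ξ :=
  hf.bdd_mul (ph_cont t x).aestronglyMeasurable (ae_of_all _ fun ξ => (ch_norm _).le)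

lemma EP_meas {f : EuclideanSpace ℝ (Fin n) → ℂ} (hf : Measurable f) : Measurable (EP f) := by
  unfold EP EX
  have h1 : StronglyMeasurable (Function.uncurry fun (p : EuclideanSpace ℝ (Fin n) × ℝ)
      (ξ : EuclideanSpace ℝ (Fin n)) => ch (⟪ξ, p.1⟫ + ‖ξ‖ ^ 2 * p.2) * f ξ) := by
    apply Measurable.stronglyMeasurable
    apply Measurable.mul
    · have : Continuous fun q : (EuclideanSpace ℝ (Fin n) × ℝ) × EuclideanSpace ℝ (Fin n) =>
          ch (⟪q.2, q.1.1⟫ + ‖q.2‖ ^ 2 * q.1.2) := ch_cont.comp (by fun_prop)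
      exact this.measurable
    · exact hf.comp measurable_snd
  exact (h1.integral_prod_right (ν := (volume : Measure _))).measurable

lemma EP_le (f : EuclideanSpace ℝ (Fin n) → ℂ) (p : EuclideanSpace ℝ (Fin n) × ℝ) :
    ‖EP f p‖ₑ ≤ ∫⁻ ξ, ‖f ξ‖ₑ := by
  unfold EP EX
  refine (enorm_integral_le_lintegral_enorm _).trans (le_of_eq ?_)
  apply lintegral_congr
  intro ξ
  rw [enorm_mul, ch_enorm, one_mul]

lemma EP_add {f g : EuclideanSpace ℝ (Fin n) → ℂ} (hf : Integrable f) (hg : Integrable g)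
    (p : EuclideanSpace ℝ (Fin n) × ℝ) : EP (fun ξ => f ξ + g ξ) p = EP f p + EP g p := by
  unfold EP EX
  rw [← integral_add (EP_int hf _ _) (EP_int hg _ _)]
  simp only [mul_add]

lemma EP_smul (f : EuclideanSpace ℝ (Fin n) → ℂ) (c : ℂ)
    (p : EuclideanSpace ℝ (Fin n) × ℝ) : EP (fun ξ => c * f ξ) p = c * EP f p := by
  unfold EP EX
  rw [← integral_const_mul]
  apply integral_congr_ae
  refine ae_of_all _ fun ξ => ?_
  ring

/-- the `q`-th power of the norm -/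
noncomputable def Nq (q : ℝ) (f : EuclideanSpace ℝ (Fin n) → ℂ) : ℝ≥0∞ :=
  ∫⁻ p : EuclideanSpace ℝ (Fin n) × ℝ, ‖EP f p‖ₑ ^ q

lemma Nq_eq (q : ℝ) {f : EuclideanSpace ℝ (Fin n) → ℂ} (hf : Measurable f) :
    Nq q f = ∫⁻ t, ∫⁻ x, ‖EX f t x‖ₑ ^ q := by
  unfold Nq
  rw [Measure.volume_eq_prod, lintegral_prod_symm _ ((EP_meas hf).enorm.pow_const q).aemeasurable]
  rfl

lemma Nq_sup {q q' : ℝ} (hq' : 0 ≤ q') (hqq : q' ≤ q) {f : EuclideanSpace ℝ (Fin n) → ℂ}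
    {δ : ℝ≥0∞} (hδ : δ ≠ ∞) (h : ∀ p, ‖EP f p‖ₑ ≤ δ) : Nq q f ≤ δ ^ (q - q') * Nq q' f := by
  unfold Nq
  rw [← lintegral_const_mul' _ _ (ENNReal.rpow_ne_top_of_nonneg (by linarith) hδ)]
  refine lintegral_mono fun p => ?_
  simp only
  calc ‖EP f p‖ₑ ^ q = ‖EP f p‖ₑ ^ ((q - q') + q') := by ring_nf
    _ = ‖EP f p‖ₑ ^ (q - q') * ‖EP f p‖ₑ ^ q' :=
        ENNReal.rpow_add_of_nonneg _ _ (by linarith) hq'
    _ ≤ _ := by
        gcongr
        exact h p

lemma Nq_add {q : ℝ} (hq : 1 ≤ q) {f g : EuclideanSpace ℝ (Fin n) → ℂ} (hf : Integrable f)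
    (hg : Integrable g) (hfm : Measurable f) (hgm : Measurable g) :
    Nq q (fun ξ => f ξ + g ξ) ^ (1 / q) ≤ Nq q f ^ (1 / q) + Nq q g ^ (1 / q) := by
  unfold Nq
  refine le_trans ?_ (ENNReal.lintegral_Lp_add_le (EP_meas hfm).enorm.aemeasurable
    (EP_meas hgm).enorm.aemeasurable hq)
  have hq0 : 0 < q := by linarith
  gcongr with p
  simp only [Pi.add_apply]
  rw [EP_add hf hg]
  exact enorm_add_le _ _

/-- multiplication by a function with integrable Fourier transform -/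
lemma mulW {q : ℝ} (hq : 1 ≤ q) {κ : ℝ → ℂ} (hκ : Integrable κ) (hκm : Measurable κ) {ψ : ℝ → ℂ}
    (hψ : ∀ s, ψ s = ∫ η, κ η * ch (η * s)) {f : EuclideanSpace ℝ (Fin n) → ℂ}
    (hf : Integrable f) (hfm : Measurable f) (μ : EuclideanSpace ℝ (Fin n)) (β : ℝ) :
    Nq q (fun ξ => f ξ * ψ (⟪μ, ξ⟫ + β)) ≤ (∫⁻ η, ‖κ η‖ₑ) ^ q * Nq q f := by
  have hq0 : 0 < q := by linarith
  set K : ℝ≥0∞ := ∫⁻ η, ‖κ η‖ₑ with hK
  have hKt : K ≠ ∞ := by
    have := hκ.2
    rw [hasFiniteIntegral_iff_enorm] at this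
    exact this.ne
  -- the identity
  have h1 : ∀ p : EuclideanSpace ℝ (Fin n) × ℝ, EP (fun ξ => f ξ * ψ (⟪μ, ξ⟫ + β)) p =
      ∫ η, κ η * ch (η * β) * EP f (p.1 + η • μ, p.2) := by
    intro p
    unfold EP EX
    have h2 : ∀ ξ : EuclideanSpace ℝ (Fin n),
        ch (⟪ξ, p.1⟫ + ‖ξ‖ ^ 2 * p.2) * (f ξ * ψ (⟪μ, ξ⟫ + β)) =
        ∫ η, (κ η * ch (η * β)) * (ch (⟪ξ, p.1 + η • μ⟫ + ‖ξ‖ ^ 2 * p.2) * f ξ) := by
      intro ξ
      rw [hψ, ← integral_const_mul, ← integral_const_mul]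
      apply integral_congr_ae
      refine ae_of_all _ fun η => ?_
      simp only
      have h3 : ch (⟪ξ, p.1 + η • μ⟫ + ‖ξ‖ ^ 2 * p.2) =
          ch (⟪ξ, p.1⟫ + ‖ξ‖ ^ 2 * p.2) * ch (η * ⟪μ, ξ⟫) := by
        rw [← ch_add]
        congr 1
        rw [inner_add_right, inner_smul_right, real_inner_comm μ ξ]
        ring
      have h4 : ch (η * (⟪μ, ξ⟫ + β)) = ch (η * ⟪μ, ξ⟫) * ch (η * β) := by
        rw [← ch_add, mul_add]
      rw [h3, h4]
      ring
    simp only [h2]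
    rw [integral_integral_swap]
    · simp only [integral_const_mul]
    · have h5 : Integrable (fun q : EuclideanSpace ℝ (Fin n) × ℝ => f q.1 * κ q.2)
          (volume.prod volume) := hf.mul_prod hκ
      refine h5.mono ?_ (ae_of_all _ fun q => ?_)
      · apply Measurable.aestronglyMeasurable
        have hc1 : Continuous fun q : EuclideanSpace ℝ (Fin n) × ℝ => ch (q.2 * β) :=
          ch_cont.comp (by fun_prop)
        have hc2 : Continuous fun q : EuclideanSpace ℝ (Fin n) × ℝ =>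
            ch (⟪q.1, p.1 + q.2 • μ⟫ + ‖q.1‖ ^ 2 * p.2) := ch_cont.comp (by fun_prop)
        exact ((hκm.comp measurable_snd).mul hc1.measurable).mul
          (hc2.measurable.mul (hfm.comp measurable_fst))
      · simp only [Function.uncurry]
        rw [norm_mul, norm_mul, norm_mul, ch_norm, ch_norm, norm_mul]
        apply le_of_eq
        ring
  -- Hölder
  have h6 : ∀ p : EuclideanSpace ℝ (Fin n) × ℝ, ‖EP (fun ξ => f ξ * ψ (⟪μ, ξ⟫ + β)) p‖ₑ ^ q ≤
      K ^ (q - 1) * ∫⁻ η, ‖κ η‖ₑ * ‖EP f (p.1 + η • μ, p.2)‖ₑ ^ q := by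
    intro p
    have hgm : Measurable fun η : ℝ => ‖EP f (p.1 + η • μ, p.2)‖ₑ :=
      ((EP_meas hfm).comp (by fun_prop :
        Measurable fun η : ℝ => (p.1 + η • μ, p.2))).enorm
    have h7 : ‖EP (fun ξ => f ξ * ψ (⟪μ, ξ⟫ + β)) p‖ₑ ≤
        ∫⁻ η, ‖κ η‖ₑ * ‖EP f (p.1 + η • μ, p.2)‖ₑ := by
      rw [h1]
      refine (enorm_integral_le_lintegral_enorm _).trans (le_of_eq ?_)
      apply lintegral_congr
      intro η
      rw [enorm_mul, enorm_mul, ch_enorm, mul_one]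
    have h8 : ∫⁻ η, ‖κ η‖ₑ * ‖EP f (p.1 + η • μ, p.2)‖ₑ ≤
        K ^ (1 - 1 / q) * (∫⁻ η, ‖κ η‖ₑ * ‖EP f (p.1 + η • μ, p.2)‖ₑ ^ q) ^ (1 / q) := by
      have h9 := ENNReal.lintegral_mul_norm_pow_le (μ := (volume : Measure ℝ))
        (f := fun η => ‖κ η‖ₑ) (g := fun η => ‖κ η‖ₑ * ‖EP f (p.1 + η • μ, p.2)‖ₑ ^ q)
        hκm.enorm.aemeasurable (hκm.enorm.mul (hgm.pow_const q)).aemeasurable
        (p := 1 - 1 / q) (q := 1 / q) (by
          rw [sub_nonneg, div_le_one hq0]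
          exact hq) (by positivity) (by ring)
      refine le_trans (le_of_eq ?_) h9
      apply lintegral_congr
      intro η
      rw [ENNReal.mul_rpow_of_nonneg _ _ (by positivity : (0 : ℝ) ≤ 1 / q), ← ENNReal.rpow_mul,
        mul_one_div_cancel hq0.ne', ENNReal.rpow_one, ← mul_assoc,
        ← ENNReal.rpow_add_of_nonneg _ _ (by
          rw [sub_nonneg, div_le_one hq0]
          exact hq) (by positivity)]
      simp
    calc _ ≤ (K ^ (1 - 1 / q) *
          (∫⁻ η, ‖κ η‖ₑ * ‖EP f (p.1 + η • μ, p.2)‖ₑ ^ q) ^ (1 / q)) ^ q := by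
          gcongr
          exact h7.trans h8
      _ = _ := by
          rw [ENNReal.mul_rpow_of_nonneg _ _ hq0.le, ← ENNReal.rpow_mul, ← ENNReal.rpow_mul,
            one_div_mul_cancel hq0.ne', ENNReal.rpow_one]
          congr 2
          field_simp
  -- integration
  unfold Nq
  calc ∫⁻ p, ‖EP (fun ξ => f ξ * ψ (⟪μ, ξ⟫ + β)) p‖ₑ ^ q
      ≤ ∫⁻ p : EuclideanSpace ℝ (Fin n) × ℝ,
          K ^ (q - 1) * ∫⁻ η, ‖κ η‖ₑ * ‖EP f (p.1 + η • μ, p.2)‖ₑ ^ q := lintegral_mono h6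
    _ = K ^ (q - 1) * ∫⁻ p : EuclideanSpace ℝ (Fin n) × ℝ,
          ∫⁻ η, ‖κ η‖ₑ * ‖EP f (p.1 + η • μ, p.2)‖ₑ ^ q :=
        lintegral_const_mul' _ _ (ENNReal.rpow_ne_top_of_nonneg (by linarith) hKt)
    _ = K ^ (q - 1) * ∫⁻ η, ∫⁻ p : EuclideanSpace ℝ (Fin n) × ℝ,
          ‖κ η‖ₑ * ‖EP f (p.1 + η • μ, p.2)‖ₑ ^ q := by
        congr 1
        apply lintegral_lintegral_swap
        apply Measurable.aemeasurable
        apply Measurable.mul (hκm.enorm.comp measurable_snd)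
        have h10 : Measurable fun r : (EuclideanSpace ℝ (Fin n) × ℝ) × ℝ =>
            (r.1.1 + r.2 • μ, r.1.2) := by fun_prop
        exact ((EP_meas hfm).comp h10).enorm.pow_const q
    _ = K ^ (q - 1) * ∫⁻ η, ‖κ η‖ₑ * ∫⁻ p : EuclideanSpace ℝ (Fin n) × ℝ, ‖EP f p‖ₑ ^ q := by
        congr 1
        apply lintegral_congr
        intro η
        rw [lintegral_const_mul' _ _ enorm_ne_top]
        congr 1
        have h11 : ∀ p : EuclideanSpace ℝ (Fin n) × ℝ, (p.1 + η • μ, p.2) = (η • μ, 0) + p := by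
          intro p
          ext <;> simp [add_comm]
        simp only [h11]
        rw [Measure.volume_eq_prod]
        exact lintegral_add_left_eq_self (fun p : EuclideanSpace ℝ (Fin n) × ℝ => ‖EP f p‖ₑ ^ q) _
    _ = K ^ q * ∫⁻ p : EuclideanSpace ℝ (Fin n) × ℝ, ‖EP f p‖ₑ ^ q := by
        rw [lintegral_mul_const'' _ hκm.enorm.aemeasurable, ← hK, ← mul_assoc]
        congr 1
        nth_rewrite 2 [← ENNReal.rpow_one K]
        rw [← ENNReal.rpow_add_of_nonneg _ _ (by linarith) zero_le_one]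
        simp

end Pool.Agent.P8H66.QP
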