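import Mathlib
import Pool.Agent.P8H66.QP.J
set_option autoImplicit false
set_option linter.unusedSectionVars false

/-! Cutting off with a strip. -/

namespace Pool.Agent.P8H66.QP

open MeasureTheory Set Filter Topology
open Pool.Agent.TH277.HT (lint_mul lint_pi ch ch_norm ch_enorm ch_add ch_cont ch_conj plancherel)
open scoped ENNReal NNReal RealInnerProductSpace

variable {m : ℕ}

lemma GG_enorm (ξ : EuclideanSpace ℝ (Fin (m + 1))) : ‖GG ξ‖ₑ = ∏ j, gg (ξ j) := by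
  unfold GG gg
  rw [← ENNReal.ofReal_prod_of_nonneg (fun _ _ => (Real.exp_pos _).le), ← Real.exp_sum,
    ← ofReal_norm, Complex.norm_real, Real.norm_eq_abs, abs_of_pos (Real.exp_pos _),
    EuclideanSpace.real_norm_sq_eq, Finset.sum_neg_distrib, ← Finset.mul_sum]

lemma GG_meas : Measurable (GG : EuclideanSpace ℝ (Fin (m + 1)) → ℂ) := by
  unfold GG
  fun_prop

lemma GG_norm_inv (e : EuclideanSpace ℝ (Fin (m + 1)) ≃ₗᵢ[ℝ] EuclideanSpace ℝ (Fin (m + 1)))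
    (ξ : EuclideanSpace ℝ (Fin (m + 1))) : GG (e ξ) = GG ξ := by
  unfold GG
  rw [e.norm_map]

/-- the measure of slabs -/
lemma slab (μ : EuclideanSpace ℝ (Fin (m + 1))) (hμ : μ ≠ 0) (β : ℝ) (φ : ℝ → ℝ≥0∞)
    (hφ : Measurable φ) :
    ∫⁻ ξ : EuclideanSpace ℝ (Fin (m + 1)), ‖GG ξ‖ₑ * φ (⟪μ, ξ⟫ + β) ≤
      ENNReal.ofReal ‖μ‖⁻¹ * ∫⁻ u, φ u := by
  have hn : 0 < ‖μ‖ := norm_pos_iff.2 hμ
  set ν : EuclideanSpace ℝ (Fin (m + 1)) := ‖μ‖⁻¹ • μ with hν
  have h1 : ‖ν‖ = 1 := by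
    rw [hν, norm_smul, norm_inv, norm_norm, inv_mul_cancel₀ hn.ne']
  obtain ⟨e, he0, -⟩ := exists_basis ν h1 0 (LinearMap.IsSymmetric.zero)
  have h2 : ∀ ξ, ⟪μ, ξ⟫ = ‖μ‖ * e.repr ξ 0 := by
    intro ξ
    rw [e.repr_apply_apply, he0, hν, real_inner_smul_left, ← mul_assoc, mul_inv_cancel₀ hn.ne',
      one_mul]
  calc ∫⁻ ξ : EuclideanSpace ℝ (Fin (m + 1)), ‖GG ξ‖ₑ * φ (⟪μ, ξ⟫ + β)
      = ∫⁻ ξ : EuclideanSpace ℝ (Fin (m + 1)),
          (fun η : EuclideanSpace ℝ (Fin (m + 1)) => ‖GG η‖ₑ * φ (‖μ‖ * η 0 + β)) (e.repr ξ) := by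
        apply lintegral_congr
        intro ξ
        simp only
        rw [GG_norm_inv, h2]
    _ = ∫⁻ η : EuclideanSpace ℝ (Fin (m + 1)), ‖GG η‖ₑ * φ (‖μ‖ * η 0 + β) :=
        e.measurePreserving_repr.lintegral_comp_emb e.repr.toHomeomorph.measurableEmbedding
          (fun η => ‖GG η‖ₑ * φ (‖μ‖ * η 0 + β))
    _ = ∫⁻ y : Fin (m + 1) → ℝ, ∏ j, (Fin.cons (fun u => gg u * φ (‖μ‖ * u + β))
          (fun _ => gg) : Fin (m + 1) → ℝ → ℝ≥0∞) j (y j) := by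
        rw [lint_E]
        apply lintegral_congr
        intro y
        rw [GG_enorm, Fin.prod_univ_succ, Fin.prod_univ_succ]
        simp only [Fin.cons_zero, Fin.cons_succ]
        ring
    _ = ∏ j, ∫⁻ u, (Fin.cons (fun u => gg u * φ (‖μ‖ * u + β))
          (fun _ => gg) : Fin (m + 1) → ℝ → ℝ≥0∞) j u := by
        apply lint_pi
        intro j
        refine Fin.cases ?_ (fun i => ?_) j
        · simp only [Fin.cons_zero]
          exact gg_meas.mul (hφ.comp (by fun_prop))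
        · simp only [Fin.cons_succ]
          exact gg_meas
    _ = ∫⁻ u, gg u * φ (‖μ‖ * u + β) := by
        rw [Fin.prod_univ_succ]
        simp only [Fin.cons_zero, Fin.cons_succ, gg_int]
        simp
    _ ≤ ∫⁻ u, φ (‖μ‖ * u + β) := by
        refine lintegral_mono fun u => ?_
        calc gg u * φ (‖μ‖ * u + β) ≤ 1 * φ (‖μ‖ * u + β) := by
              gcongr
              exact gg_le u
          _ = _ := one_mul _
    _ = ENNReal.ofReal ‖μ‖⁻¹ * ∫⁻ u, φ u := by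
        rw [lint_mul ‖μ‖ hn.ne' (fun u => φ (u + β)), lintegral_add_right_eq_self φ β,
          abs_of_pos (by positivity)]

/-- `f` is dominated by the Gaussian -/
structure Dom (f : EuclideanSpace ℝ (Fin (m + 1)) → ℂ) : Prop where
  meas : Measurable f
  le : ∀ ξ, ‖f ξ‖ ≤ ‖GG ξ‖

lemma GG_lint : ∫⁻ ξ : EuclideanSpace ℝ (Fin (m + 1)), ‖GG ξ‖ₑ = 1 := by
  simp only [GG_enorm]
  rw [lint_E]
  have := lint_pi (n := m + 1) (fun _ => gg) (fun _ => gg_meas)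
  simpa [gg_int] using this

lemma GG_int : Integrable (GG : EuclideanSpace ℝ (Fin (m + 1)) → ℂ) :=
  ⟨GG_meas.aestronglyMeasurable, by
    rw [HasFiniteIntegral, GG_lint]
    exact ENNReal.one_lt_top⟩

lemma Dom.int {f : EuclideanSpace ℝ (Fin (m + 1)) → ℂ} (hf : Dom f) : Integrable f :=
  GG_int.mono hf.meas.aestronglyMeasurable (ae_of_all _ hf.le)

lemma Dom.lint {f : EuclideanSpace ℝ (Fin (m + 1)) → ℂ} (hf : Dom f) : ∫⁻ ξ, ‖f ξ‖ₑ ≤ 1 := by
  rw [← GG_lint (m := m)]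
  refine lintegral_mono fun ξ => ?_
  rw [← ofReal_norm, ← ofReal_norm]
  exact ENNReal.ofReal_le_ofReal (hf.le ξ)

lemma Dom.mul {f : EuclideanSpace ℝ (Fin (m + 1)) → ℂ} (hf : Dom f)
    {g : EuclideanSpace ℝ (Fin (m + 1)) → ℂ} (hg : Measurable g) (hg1 : ∀ ξ, ‖g ξ‖ ≤ 1) :
    Dom (fun ξ => f ξ * g ξ) := by
  refine ⟨hf.meas.mul hg, fun ξ => ?_⟩
  rw [norm_mul]
  calc ‖f ξ‖ * ‖g ξ‖ ≤ ‖GG ξ‖ * 1 := by
        gcongr
        · exact hf.le ξ
        · exact hg1 ξ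
    _ = _ := mul_one _

lemma tent_nonneg (s : ℝ) : 0 ≤ tent s := le_max_left _ _

lemma tent_le_one (s : ℝ) : tent s ≤ 1 := by
  unfold tent
  exact max_le zero_le_one (by linarith [abs_nonneg s])

lemma tent_cont : Continuous tent := by
  unfold tent
  fun_prop

lemma tent_lint : ∫⁻ u, ENNReal.ofReal (tent u) ≤ 2 := by
  calc ∫⁻ u, ENNReal.ofReal (tent u) ≤ ∫⁻ u, (Icc (-1 : ℝ) 1).indicator (fun _ => 1) u := by
        refine lintegral_mono fun u => ?_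
        by_cases h : u ∈ Icc (-1 : ℝ) 1
        · rw [indicator_of_mem h, ENNReal.ofReal_le_one]
          exact tent_le_one u
        · rw [indicator_of_notMem h]
          have h1 : 1 < |u| := by
            by_contra hc
            exact h (abs_le.1 (not_lt.1 hc))
          unfold tent
          rw [max_eq_left (by linarith)]
          simp
    _ = 2 := by
        rw [lintegral_indicator measurableSet_Icc, setLIntegral_one, Real.volume_Icc]
        norm_num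

/-- multiplication by a tent -/
noncomputable def mt (μ : EuclideanSpace ℝ (Fin (m + 1))) (β : ℝ)
    (ξ : EuclideanSpace ℝ (Fin (m + 1))) : ℂ := ((tent (⟪μ, ξ⟫ + β) : ℝ) : ℂ)

lemma mt_meas (μ : EuclideanSpace ℝ (Fin (m + 1))) (β : ℝ) : Measurable (mt μ β) := by
  unfold mt
  have : Continuous fun ξ : EuclideanSpace ℝ (Fin (m + 1)) => tent (⟪μ, ξ⟫ + β) :=
    tent_cont.comp (by fun_prop)
  exact Complex.measurable_ofReal.comp this.measurable

lemma mt_le (μ : EuclideanSpace ℝ (Fin (m + 1))) (β : ℝ)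
    (ξ : EuclideanSpace ℝ (Fin (m + 1))) : ‖mt μ β ξ‖ ≤ 1 := by
  unfold mt
  rw [Complex.norm_real, Real.norm_eq_abs, abs_of_nonneg (tent_nonneg _)]
  exact tent_le_one _

lemma mt_sup {f : EuclideanSpace ℝ (Fin (m + 1)) → ℂ} (hf : Dom f)
    (μ : EuclideanSpace ℝ (Fin (m + 1))) (hμ : μ ≠ 0) (β : ℝ)
    (p : EuclideanSpace ℝ (Fin (m + 1)) × ℝ) :
    ‖EP (fun ξ => f ξ * mt μ β ξ) p‖ₑ ≤ ENNReal.ofReal (2 * ‖μ‖⁻¹) := by
  refine (EP_le _ _).trans ?_
  calc ∫⁻ ξ, ‖f ξ * mt μ β ξ‖ₑ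
      ≤ ∫⁻ ξ : EuclideanSpace ℝ (Fin (m + 1)), ‖GG ξ‖ₑ *
          (fun u => ENNReal.ofReal (tent u)) (⟪μ, ξ⟫ + β) := by
        refine lintegral_mono fun ξ => ?_
        simp only
        rw [enorm_mul]
        have h1 : ‖mt μ β ξ‖ₑ = ENNReal.ofReal (tent (⟪μ, ξ⟫ + β)) := by
          unfold mt
          rw [← ofReal_norm, Complex.norm_real, Real.norm_eq_abs, abs_of_nonneg (tent_nonneg _)]
        rw [h1]
        gcongr
        rw [← ofReal_norm, ← ofReal_norm]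
        exact ENNReal.ofReal_le_ofReal (hf.le ξ)
    _ ≤ ENNReal.ofReal ‖μ‖⁻¹ * ∫⁻ u, ENNReal.ofReal (tent u) :=
        slab μ hμ β _ (by
          have := tent_cont.measurable
          fun_prop)
    _ ≤ ENNReal.ofReal ‖μ‖⁻¹ * 2 := by
        gcongr
        exact tent_lint
    _ = _ := by
        rw [mul_comm 2, ENNReal.ofReal_mul (by positivity)]
        norm_num

lemma mt_Nq {q : ℝ} (hq : 1 ≤ q) {f : EuclideanSpace ℝ (Fin (m + 1)) → ℂ} (hf : Dom f)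
    (μ : EuclideanSpace ℝ (Fin (m + 1))) (β : ℝ) :
    Nq q (fun ξ => f ξ * mt μ β ξ) ≤ Nq q f := by
  have h1 := mulW hq kt_int kt_meas tent_ft hf.int hf.meas μ β
  rw [kt_lint, ENNReal.one_rpow, one_mul] at h1
  exact h1

lemma mt_both {q q' : ℝ} (hq' : 1 ≤ q') (hqq : q' ≤ q)
    {f : EuclideanSpace ℝ (Fin (m + 1)) → ℂ} (hf : Dom f)
    (μ : EuclideanSpace ℝ (Fin (m + 1))) (hμ : μ ≠ 0) (β : ℝ) :
    Nq q (fun ξ => f ξ * mt μ β ξ) ≤ ENNReal.ofReal (2 * ‖μ‖⁻¹) ^ (q - q') * Nq q' f :=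
  (Nq_sup (by linarith) hqq ENNReal.ofReal_ne_top (mt_sup hf μ hμ β)).trans (by
    gcongr
    exact mt_Nq hq' hf μ β)

/-- the clamped functions -/
noncomputable def cl (L : ℕ) (s : ℝ) : ℝ := min 1 (max 0 (2 ^ L * (1 - |s|)))

lemma cl_zero (s : ℝ) : cl 0 s = tent s := by
  unfold cl tent
  rw [pow_zero, one_mul, min_eq_right]
  exact max_le zero_le_one (by linarith [abs_nonneg s])

lemma cl_aux (x : ℝ) : min 1 (max 0 (2 * x)) - min 1 (max 0 x) = 1 / 2 * tent (2 * x - 1) := by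
  unfold tent
  rcases le_total x 0 with h | h
  · rw [max_eq_left (by linarith), max_eq_left h, abs_of_nonpos (by linarith),
      max_eq_left (by linarith)]
    ring
  · rw [max_eq_right (by linarith : 0 ≤ 2 * x), max_eq_right h]
    rcases le_total x 1 with h1 | h1
    · rw [min_eq_right h1]
      rcases le_total (2 * x) 1 with h2 | h2
      · rw [min_eq_right h2, abs_of_nonpos (by linarith), max_eq_right (by linarith)]
        ring
      · rw [min_eq_left h2, abs_of_nonneg (by linarith), max_eq_right (by linarith)]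
        ring
    · rw [min_eq_left h1, min_eq_left (by linarith), abs_of_nonneg (by linarith),
        max_eq_left (by linarith)]
      ring

lemma tent_big {y : ℝ} (h : 1 ≤ y) : tent y = 0 := by
  unfold tent
  rw [abs_of_nonneg (by linarith), max_eq_left (by linarith)]

lemma cl_succ (L : ℕ) (s : ℝ) : cl (L + 1) s = cl L s +
    (1 / 2 * tent (2 ^ (L + 1) * (1 - s) - 1) + 1 / 2 * tent (2 ^ (L + 1) * (1 + s) - 1)) := by
  have h2 : (1 : ℝ) ≤ 2 ^ L := one_le_pow₀ (by norm_num)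
  have h1 := cl_aux (2 ^ L * (1 - |s|))
  have h3 : cl (L + 1) s = cl L s + 1 / 2 * tent (2 ^ (L + 1) * (1 - |s|) - 1) := by
    unfold cl
    rw [show (2 : ℝ) ^ (L + 1) * (1 - |s|) = 2 * (2 ^ L * (1 - |s|)) by ring]
    linarith
  rw [h3]
  rcases le_total 0 s with h | h
  · rw [abs_of_nonneg h, tent_big (y := 2 ^ (L + 1) * (1 + s) - 1)]
    · ring
    · rw [pow_succ]
      nlinarith
  · rw [abs_of_nonpos h, tent_big (y := 2 ^ (L + 1) * (1 - s) - 1)]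
    · ring_nf
    · rw [pow_succ]
      nlinarith

/-- multiplication by the clamped function -/
noncomputable def mc (L : ℕ) (μ : EuclideanSpace ℝ (Fin (m + 1))) (β : ℝ)
    (ξ : EuclideanSpace ℝ (Fin (m + 1))) : ℂ := ((cl L (⟪μ, ξ⟫ + β) : ℝ) : ℂ)

lemma cl_cont (L : ℕ) : Continuous (cl L) := by
  unfold cl
  fun_prop

lemma mc_meas (L : ℕ) (μ : EuclideanSpace ℝ (Fin (m + 1))) (β : ℝ) : Measurable (mc L μ β) := by
  unfold mc
  have : Continuous fun ξ : EuclideanSpace ℝ (Fin (m + 1)) => cl L (⟪μ, ξ⟫ + β) :=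
    (cl_cont L).comp (by fun_prop)
  exact Complex.measurable_ofReal.comp this.measurable

lemma cl_nonneg (L : ℕ) (s : ℝ) : 0 ≤ cl L s := le_min zero_le_one (le_max_left _ _)

lemma mc_le (L : ℕ) (μ : EuclideanSpace ℝ (Fin (m + 1))) (β : ℝ)
    (ξ : EuclideanSpace ℝ (Fin (m + 1))) : ‖mc L μ β ξ‖ ≤ 1 := by
  unfold mc
  rw [Complex.norm_real, Real.norm_eq_abs, abs_of_nonneg (cl_nonneg _ _)]
  exact min_le_left _ _

lemma mc_succ (L : ℕ) (μ : EuclideanSpace ℝ (Fin (m + 1))) (β : ℝ)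
    (ξ : EuclideanSpace ℝ (Fin (m + 1))) : mc (L + 1) μ β ξ = mc L μ β ξ +
      (1 / 2 * mt (-(2 ^ (L + 1) : ℝ) • μ) (2 ^ (L + 1) * (1 - β) - 1) ξ +
        1 / 2 * mt ((2 ^ (L + 1) : ℝ) • μ) (2 ^ (L + 1) * (1 + β) - 1) ξ) := by
  unfold mc mt
  rw [cl_succ, inner_smul_left, inner_smul_left]
  simp only [conj_trivial]
  rw [show (-2 ^ (L + 1) : ℝ) * ⟪μ, ξ⟫ + (2 ^ (L + 1) * (1 - β) - 1) =
      2 ^ (L + 1) * (1 - (⟪μ, ξ⟫ + β)) - 1 by ring,
    show (2 ^ (L + 1) : ℝ) * ⟪μ, ξ⟫ + (2 ^ (L + 1) * (1 + β) - 1) =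
      2 ^ (L + 1) * (1 + (⟪μ, ξ⟫ + β)) - 1 by ring]
  push_cast
  ring

end Pool.Agent.P8H66.QP
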