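import Mathlib
import Pool.Agent.P8H66.QP.K
set_option autoImplicit false
set_option linter.unusedSectionVars false

/-! Cutting off with a strip: the estimate. -/

namespace Pool.Agent.P8H66.QP

open MeasureTheory Set Filter Topology
open Pool.Agent.TH277.HT (lint_mul lint_pi ch ch_norm ch_enorm ch_add ch_cont ch_conj plancherel)
open scoped ENNReal NNReal RealInnerProductSpace

variable {m : ℕ}

/-- the indicator function of a strip -/
noncomputable def st (μ : EuclideanSpace ℝ (Fin (m + 1))) (β : ℝ)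
    (ξ : EuclideanSpace ℝ (Fin (m + 1))) : ℂ := if |⟪μ, ξ⟫ + β| < 1 then 1 else 0

lemma st_meas (μ : EuclideanSpace ℝ (Fin (m + 1))) (β : ℝ) : Measurable (st μ β) := by
  unfold st
  apply Measurable.ite _ measurable_const measurable_const
  exact measurableSet_lt (by fun_prop) measurable_const

lemma st_le (μ : EuclideanSpace ℝ (Fin (m + 1))) (β : ℝ)
    (ξ : EuclideanSpace ℝ (Fin (m + 1))) : ‖st μ β ξ‖ ≤ 1 := by
  unfold st
  split_ifs <;> simp

lemma cl_lim (s : ℝ) : Tendsto (fun L => cl L s) atTop (𝓝 (if |s| < 1 then 1 else 0)) := by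
  by_cases h : |s| < 1
  · rw [if_pos h]
    have h1 : Tendsto (fun L : ℕ => (2 : ℝ) ^ L * (1 - |s|)) atTop atTop :=
      (tendsto_pow_atTop_atTop_of_one_lt (by norm_num)).atTop_mul_const (by linarith)
    have h2 : ∀ᶠ L : ℕ in atTop, cl L s = 1 := by
      filter_upwards [h1.eventually_ge_atTop 1] with L hL
      unfold cl
      rw [max_eq_right (by linarith), min_eq_left hL]
    exact tendsto_const_nhds.congr' (h2.mono fun _ h => h.symm)
  · rw [if_neg h]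
    have h2 : ∀ L : ℕ, cl L s = 0 := by
      intro L
      unfold cl
      have h3 : (2 : ℝ) ^ L * (1 - |s|) ≤ 0 :=
        mul_nonpos_of_nonneg_of_nonpos (by positivity) (by linarith [not_lt.1 h])
      rw [max_eq_left h3, min_eq_right zero_le_one]
    simp only [h2]
    exact tendsto_const_nhds

lemma mc_lim (μ : EuclideanSpace ℝ (Fin (m + 1))) (β : ℝ)
    (ξ : EuclideanSpace ℝ (Fin (m + 1))) :
    Tendsto (fun L => mc L μ β ξ) atTop (𝓝 (st μ β ξ)) := by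
  have h1 := (Complex.continuous_ofReal.tendsto _).comp (cl_lim (⟪μ, ξ⟫ + β))
  have h2 : ((if |⟪μ, ξ⟫ + β| < 1 then (1 : ℝ) else 0 : ℝ) : ℂ) = st μ β ξ := by
    unfold st
    split_ifs <;> simp
  rw [h2] at h1
  exact h1

lemma EP_lim {f : EuclideanSpace ℝ (Fin (m + 1)) → ℂ} (hf : Dom f)
    (μ : EuclideanSpace ℝ (Fin (m + 1))) (β : ℝ) (p : EuclideanSpace ℝ (Fin (m + 1)) × ℝ) :
    Tendsto (fun L => EP (fun ξ => f ξ * mc L μ β ξ) p) atTop
      (𝓝 (EP (fun ξ => f ξ * st μ β ξ) p)) := by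
  unfold EP EX
  apply tendsto_integral_of_dominated_convergence (fun ξ => ‖GG ξ‖)
  · intro L
    exact (EP_int (hf.mul (mc_meas L μ β) (mc_le L μ β)).int _ _).aestronglyMeasurable
  · exact GG_int.norm
  · intro L
    refine ae_of_all _ fun ξ => ?_
    rw [norm_mul, ch_norm, one_mul]
    exact (hf.mul (mc_meas L μ β) (mc_le L μ β)).le ξ
  · refine ae_of_all _ fun ξ => ?_
    exact ((mc_lim μ β ξ).const_mul (f ξ)).const_mul _

/-- the decay factor -/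
noncomputable def rho (δ γ : ℝ) (l : ℕ) : ℝ≥0∞ := ENNReal.ofReal (2 * (δ⁻¹ * (1 / 2) ^ (l + 1))) ^ γ

lemma rho_sum {δ γ : ℝ} (hδ : 0 < δ) (hγ : 0 < γ) : ∑' l, 2 * rho δ γ l ≠ ∞ := by
  have h1 : ∀ l, 2 * rho δ γ l =
      (2 * ENNReal.ofReal (2 * δ⁻¹ * (1 / 2)) ^ γ) * (ENNReal.ofReal (1 / 2) ^ γ) ^ l := by
    intro l
    unfold rho
    rw [mul_assoc, ← ENNReal.rpow_natCast, ← ENNReal.rpow_mul, mul_comm γ (l : ℝ),
      ENNReal.rpow_mul, ← ENNReal.mul_rpow_of_nonneg _ _ hγ.le, ENNReal.rpow_natCast,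
      ← ENNReal.ofReal_pow (by norm_num), ← ENNReal.ofReal_mul (by positivity)]
    congr 3
    rw [pow_succ]
    ring
  simp only [h1]
  rw [ENNReal.tsum_mul_left, ENNReal.tsum_geometric]
  apply ENNReal.mul_ne_top
  · exact ENNReal.mul_ne_top (by norm_num) (ENNReal.rpow_ne_top_of_nonneg hγ.le ENNReal.ofReal_ne_top)
  · rw [ne_eq, ENNReal.inv_eq_top, tsub_eq_zero_iff_le, not_le]
    apply ENNReal.rpow_lt_one _ hγ
    rw [← ENNReal.ofReal_one]
    exact (ENNReal.ofReal_lt_ofReal_iff one_pos).2 (by norm_num)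

lemma half_Nq {q : ℝ} (hq : 0 < q) {f g : EuclideanSpace ℝ (Fin (m + 1)) → ℂ} :
    Nq q (fun ξ => f ξ * (1 / 2 * g ξ)) ≤ Nq q (fun ξ => f ξ * g ξ) := by
  unfold Nq
  refine lintegral_mono fun p => ?_
  have h1 : (fun ξ => f ξ * (1 / 2 * g ξ)) = fun ξ => (1 / 2 : ℂ) * (f ξ * g ξ) := by
    ext ξ
    ring
  simp only
  rw [h1, EP_smul, enorm_mul]
  gcongr
  have h2 : ‖(1 / 2 : ℂ)‖ₑ ≤ 1 := by
    rw [← ofReal_norm, ENNReal.ofReal_le_one]
    norm_num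
  calc ‖(1 / 2 : ℂ)‖ₑ * ‖EP (fun ξ => f ξ * g ξ) p‖ₑ ≤ 1 * ‖EP (fun ξ => f ξ * g ξ) p‖ₑ := by gcongr
    _ = _ := one_mul _

lemma mc_Nq {q q' δ : ℝ} (hq' : 1 ≤ q') (hqq : q' ≤ q) (hδ : 0 < δ)
    {f : EuclideanSpace ℝ (Fin (m + 1)) → ℂ} (hf : Dom f)
    (μ : EuclideanSpace ℝ (Fin (m + 1))) (hμ : δ ≤ ‖μ‖) (β : ℝ) (L : ℕ) :
    Nq q (fun ξ => f ξ * mc L μ β ξ) ^ (1 / q) ≤ Nq q f ^ (1 / q) +
      (∑ l ∈ Finset.range L, 2 * rho δ ((q - q') / q) l) * Nq q' f ^ (1 / q) := by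
  have hq0 : 0 < q := by linarith
  have hμ0 : μ ≠ 0 := by
    intro h
    rw [h, norm_zero] at hμ
    linarith
  induction L with
  | zero =>
    simp only [Finset.range_zero, Finset.sum_empty, zero_mul, add_zero]
    have h1 : (fun ξ => f ξ * mc 0 μ β ξ) = fun ξ => f ξ * mt μ β ξ := by
      ext ξ
      unfold mc mt
      rw [cl_zero]
    rw [h1]
    gcongr
    exact mt_Nq (hq'.trans hqq) hf μ β
  | succ L ih =>
    have hp : (0 : ℝ) < 2 ^ (L + 1) := by positivity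
    -- one tent
    have key : ∀ (s : ℝ) (β' : ℝ), |s| = 2 ^ (L + 1) →
        Nq q (fun ξ => f ξ * (1 / 2 * mt (s • μ) β' ξ)) ^ (1 / q) ≤
          rho δ ((q - q') / q) L * Nq q' f ^ (1 / q) := by
      intro s β' hs
      have hs0 : s ≠ 0 := by
        intro h
        rw [h, abs_zero] at hs
        exact hp.ne hs
      have h1 := mt_both hq' hqq hf (s • μ) (smul_ne_zero hs0 hμ0) β'
      have h2 : ENNReal.ofReal (2 * ‖s • μ‖⁻¹) ≤
          ENNReal.ofReal (2 * (δ⁻¹ * (1 / 2) ^ (L + 1))) := by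
        apply ENNReal.ofReal_le_ofReal
        rw [norm_smul, Real.norm_eq_abs, hs, mul_inv, mul_comm δ⁻¹, one_div, inv_pow]
        gcongr
      calc Nq q (fun ξ => f ξ * (1 / 2 * mt (s • μ) β' ξ)) ^ (1 / q)
          ≤ (ENNReal.ofReal (2 * (δ⁻¹ * (1 / 2) ^ (L + 1))) ^ (q - q') * Nq q' f) ^ (1 / q) := by
            gcongr
            refine ((half_Nq hq0).trans h1).trans ?_
            gcongr
        _ = _ := by
            rw [ENNReal.mul_rpow_of_nonneg _ _ (by positivity), ← ENNReal.rpow_mul]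
            unfold rho
            congr 2
            ring
    have hm1 : Measurable (fun ξ => f ξ * mc L μ β ξ) := hf.meas.mul (mc_meas L μ β)
    have hd1 : Dom (fun ξ => f ξ * mc L μ β ξ) := hf.mul (mc_meas L μ β) (mc_le L μ β)
    have hd2 : ∀ (μ' : EuclideanSpace ℝ (Fin (m + 1))) (β' : ℝ),
        Dom (fun ξ => f ξ * (1 / 2 * mt μ' β' ξ)) := by
      intro μ' β'
      apply hf.mul ((mt_meas μ' β').const_mul _)
      intro ξ
      rw [norm_mul]
      have := mt_le μ' β' ξ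
      norm_num
      linarith
    set g1 : EuclideanSpace ℝ (Fin (m + 1)) → ℂ := fun ξ =>
      f ξ * (1 / 2 * mt (-(2 ^ (L + 1) : ℝ) • μ) (2 ^ (L + 1) * (1 - β) - 1) ξ) with hg1
    set g2 : EuclideanSpace ℝ (Fin (m + 1)) → ℂ := fun ξ =>
      f ξ * (1 / 2 * mt ((2 ^ (L + 1) : ℝ) • μ) (2 ^ (L + 1) * (1 + β) - 1) ξ) with hg2
    have h3 : (fun ξ => f ξ * mc (L + 1) μ β ξ) = fun ξ => f ξ * mc L μ β ξ + (g1 ξ + g2 ξ) := by
      ext ξ
      rw [mc_succ, hg1, hg2]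
      ring
    have hg1d : Dom g1 := hd2 _ _
    have hg2d : Dom g2 := hd2 _ _
    rw [h3]
    have h4 := Nq_add (q := q) (hq'.trans hqq) hd1.int (hg1d.int.add hg2d.int) hm1
      (hg1d.meas.add hg2d.meas)
    have h5 := Nq_add (q := q) (hq'.trans hqq) hg1d.int hg2d.int hg1d.meas hg2d.meas
    have k1 := key (-(2 ^ (L + 1) : ℝ)) (2 ^ (L + 1) * (1 - β) - 1) (by
      rw [abs_neg, abs_of_pos hp])
    have k2 := key ((2 ^ (L + 1) : ℝ)) (2 ^ (L + 1) * (1 + β) - 1) (abs_of_pos hp)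
    simp only [Pi.add_apply] at h4
    rw [Finset.sum_range_succ]
    calc _ ≤ Nq q (fun ξ => f ξ * mc L μ β ξ) ^ (1 / q) + Nq q (fun ξ => g1 ξ + g2 ξ) ^ (1 / q) := h4
      _ ≤ (Nq q f ^ (1 / q) +
          (∑ l ∈ Finset.range L, 2 * rho δ ((q - q') / q) l) * Nq q' f ^ (1 / q)) +
          (rho δ ((q - q') / q) L * Nq q' f ^ (1 / q) +
            rho δ ((q - q') / q) L * Nq q' f ^ (1 / q)) := by
          gcongr
          exact h5.trans (add_le_add k1 k2)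
      _ = _ := by ring

lemma st_Nq {q q' δ : ℝ} (hq' : 1 ≤ q') (hqq : q' < q) (hδ : 0 < δ)
    {f : EuclideanSpace ℝ (Fin (m + 1)) → ℂ} (hf : Dom f)
    (μ : EuclideanSpace ℝ (Fin (m + 1))) (hμ : δ ≤ ‖μ‖) (β : ℝ) :
    Nq q (fun ξ => f ξ * st μ β ξ) ≤ (Nq q f ^ (1 / q) +
      (∑' l, 2 * rho δ ((q - q') / q) l) * Nq q' f ^ (1 / q)) ^ q := by
  have hq0 : 0 < q := by linarith
  have h1 : ∀ L, Nq q (fun ξ => f ξ * mc L μ β ξ) ≤ (Nq q f ^ (1 / q) +
      (∑' l, 2 * rho δ ((q - q') / q) l) * Nq q' f ^ (1 / q)) ^ q := by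
    intro L
    have h2 := mc_Nq hq' hqq.le hδ hf μ hμ β L
    have h3 : Nq q (fun ξ => f ξ * mc L μ β ξ) =
        (Nq q (fun ξ => f ξ * mc L μ β ξ) ^ (1 / q)) ^ q := by
      rw [← ENNReal.rpow_mul, one_div_mul_cancel hq0.ne', ENNReal.rpow_one]
    rw [h3]
    gcongr
    refine h2.trans ?_
    gcongr
    exact ENNReal.sum_le_tsum _
  have h4 : Nq q (fun ξ => f ξ * st μ β ξ) ≤
      liminf (fun L => Nq q (fun ξ => f ξ * mc L μ β ξ)) atTop := by
    unfold Nq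
    refine le_trans (le_of_eq ?_) (lintegral_liminf_le fun L =>
      (EP_meas (hf.meas.mul (mc_meas L μ β))).enorm.pow_const q)
    apply lintegral_congr
    intro p
    have h5 := (EP_lim hf μ β p).enorm
    have h6 := (ENNReal.continuous_rpow_const (y := q)).continuousAt.tendsto.comp h5
    exact h6.liminf_eq.symm
  refine h4.trans ?_
  exact liminf_le_of_le (by isBoundedDefault) fun b hb => by
    obtain ⟨L, hL⟩ := hb.exists
    exact hL.trans (h1 L)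

/-- a family for which the conjectured bound holds -/
def Fam (𝓕 : Set (EuclideanSpace ℝ (Fin (m + 1)) → ℂ)) : Prop :=
  (∀ f ∈ 𝓕, Dom f) ∧ ∀ q : ℝ, 2 + 2 / ((m : ℝ) + 1) < q → ∃ C : ℝ≥0∞, C ≠ ∞ ∧ ∀ f ∈ 𝓕, Nq q f ≤ C

lemma Fam.strip {𝓕 : Set (EuclideanSpace ℝ (Fin (m + 1)) → ℂ)} (h : Fam 𝓕) {δ : ℝ} (hδ : 0 < δ) :
    Fam {g | ∃ f ∈ 𝓕, ∃ (μ : EuclideanSpace ℝ (Fin (m + 1))) (β : ℝ), δ ≤ ‖μ‖ ∧
      g = fun ξ => f ξ * st μ β ξ} := by
  constructor
  · rintro g ⟨f, hf, μ, β, -, rfl⟩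
    exact (h.1 f hf).mul (st_meas μ β) (st_le μ β)
  · intro q hq
    have hc : (2 : ℝ) < 2 + 2 / ((m : ℝ) + 1) := by
      have : 0 < 2 / ((m : ℝ) + 1) := by positivity
      linarith
    set q' : ℝ := (2 + 2 / ((m : ℝ) + 1) + q) / 2 with hq'
    have h1 : 2 + 2 / ((m : ℝ) + 1) < q' := by rw [hq']; linarith
    have h2 : q' < q := by rw [hq']; linarith
    have hq0 : 0 < q := by linarith
    obtain ⟨C1, hC1, H1⟩ := h.2 q hq
    obtain ⟨C2, hC2, H2⟩ := h.2 q' h1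
    refine ⟨(C1 ^ (1 / q) + (∑' l, 2 * rho δ ((q - q') / q) l) * C2 ^ (1 / q)) ^ q, ?_, ?_⟩
    · apply ENNReal.rpow_ne_top_of_nonneg hq0.le
      apply ENNReal.add_ne_top.2 ⟨ENNReal.rpow_ne_top_of_nonneg (by positivity) hC1, ?_⟩
      apply ENNReal.mul_ne_top (rho_sum hδ (div_pos (by linarith) hq0))
      exact ENNReal.rpow_ne_top_of_nonneg (by positivity) hC2
    · rintro g ⟨f, hf, μ, β, hμ, rfl⟩
      refine (st_Nq (by linarith) h2 hδ (h.1 f hf) μ hμ β).trans ?_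
      gcongr
      · exact H1 f hf
      · exact H2 f hf

end Pool.Agent.P8H66.QP
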