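import Mathlib
import Pool.Agent.P8H66.QP.L
set_option autoImplicit false
set_option linter.unusedSectionVars false

/-! Families of functions; removing the Gaussian. -/

namespace Pool.Agent.P8H66.QP

open MeasureTheory Set Filter Topology FourierTransform SchwartzMap
open Pool.Agent.TH277.HT (lint_mul lint_pi ch ch_norm ch_enorm ch_add ch_cont ch_conj plancherel)
open scoped ENNReal NNReal RealInnerProductSpace

variable {m : ℕ}

lemma att_meas {a : ℝ → ℂ} (ha : Bd a) (ω y : EuclideanSpace ℝ (Fin (m + 1)))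
    (B : EuclideanSpace ℝ (Fin (m + 1)) →ₗ[ℝ] EuclideanSpace ℝ (Fin (m + 1))) :
    Measurable (att a ω y B) := by
  unfold att
  have hB : Continuous B := LinearMap.continuous_of_finiteDimensional B
  apply Measurable.mul
  · exact ha.meas.comp (by fun_prop)
  · exact (ch_cont.comp (by fun_prop)).measurable

lemma att_le {a : ℝ → ℂ} (ha : Bd a) (ω y : EuclideanSpace ℝ (Fin (m + 1)))
    (B : EuclideanSpace ℝ (Fin (m + 1)) →ₗ[ℝ] EuclideanSpace ℝ (Fin (m + 1)))
    (ξ : EuclideanSpace ℝ (Fin (m + 1))) : ‖att a ω y B ξ‖ ≤ 1 := by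
  unfold att
  rw [norm_mul, ch_norm, mul_one]
  exact ha.bd _

/-- the atoms with the Gaussian window -/
def F0 (m : ℕ) : Set (EuclideanSpace ℝ (Fin (m + 1)) → ℂ) :=
  {g | ∃ (a : ℝ → ℂ) (ω y : EuclideanSpace ℝ (Fin (m + 1)))
    (B : EuclideanSpace ℝ (Fin (m + 1)) →ₗ[ℝ] EuclideanSpace ℝ (Fin (m + 1))),
    Bd a ∧ B.IsSymmetric ∧ g = fun ξ => att a ω y B ξ * GG ξ}

lemma F0_fam (hm : 1 ≤ m) : Fam (F0 m) := by
  have hd : ∀ f ∈ F0 m, Dom f := by
    rintro f ⟨a, ω, y, B, ha, -, rfl⟩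
    refine ⟨(att_meas ha ω y B).mul GG_meas, fun ξ => ?_⟩
    rw [norm_mul]
    calc _ ≤ 1 * ‖GG ξ‖ := by
          gcongr
          exact att_le ha ω y B ξ
      _ = _ := one_mul _
  refine ⟨hd, fun q hq => ?_⟩
  have hm1 : (1 : ℝ) ≤ m := by exact_mod_cast hm
  have hc1 : 2 + 2 / ((m : ℝ) + 1) ≤ 3 := by
    have : 2 / ((m : ℝ) + 1) ≤ 1 := by
      rw [div_le_one (by linarith)]
      linarith
    linarith
  have hc2 : (2 : ℝ) < 2 + 2 / ((m : ℝ) + 1) := by
    have : 0 < 2 / ((m : ℝ) + 1) := by positivity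
    linarith
  -- reduction to exponents below four
  obtain ⟨q', h1, h2, h3⟩ : ∃ q', 2 + 2 / ((m : ℝ) + 1) < q' ∧ q' < 4 ∧ q' ≤ q := by
    rcases lt_or_ge q 4 with h | h
    · exact ⟨q, hq, h, le_rfl⟩
    · exact ⟨7 / 2, by linarith, by norm_num, by linarith⟩
  obtain ⟨C, hC, H⟩ := genG hm q' h1 h2
  refine ⟨C, hC, fun f hf => ?_⟩
  have hfd := hd f hf
  have h4 : Nq q f ≤ 1 ^ (q - q') * Nq q' f :=
    Nq_sup (by linarith) h3 ENNReal.one_ne_top fun p => (EP_le f p).trans hfd.lint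
  rw [ENNReal.one_rpow, one_mul] at h4
  refine h4.trans ?_
  rw [Nq_eq q' hfd.meas]
  obtain ⟨a, ω, y, B, ha, hB, rfl⟩ := hf
  exact H a ω y B ha hB

/-- products of strips -/
noncomputable def Ps (l : List (EuclideanSpace ℝ (Fin (m + 1)) × ℝ))
    (ξ : EuclideanSpace ℝ (Fin (m + 1))) : ℂ := (l.map fun p => st p.1 p.2 ξ).prod

/-- the atoms with the Gaussian window, cut off with `k` strips -/
def Fk (m k : ℕ) (δ : ℝ) : Set (EuclideanSpace ℝ (Fin (m + 1)) → ℂ) :=
  {g | ∃ f ∈ F0 m, ∃ l : List (EuclideanSpace ℝ (Fin (m + 1)) × ℝ), l.length = k ∧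
    (∀ p ∈ l, δ ≤ ‖p.1‖) ∧ g = fun ξ => f ξ * Ps l ξ}

lemma Fk_fam (hm : 1 ≤ m) {δ : ℝ} (hδ : 0 < δ) (k : ℕ) : Fam (Fk m k δ) := by
  induction k with
  | zero =>
    have h := F0_fam hm
    have hsub : ∀ g ∈ Fk m 0 δ, g ∈ F0 m := by
      rintro g ⟨f, hf, l, hl, -, rfl⟩
      have : l = [] := List.eq_nil_of_length_eq_zero hl
      subst this
      have h1 : (fun ξ => f ξ * Ps [] ξ) = f := by
        ext ξ
        simp [Ps]
      rw [h1]
      exact hf
    exact ⟨fun g hg => h.1 g (hsub g hg), fun q hq => by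
      obtain ⟨C, hC, H⟩ := h.2 q hq
      exact ⟨C, hC, fun g hg => H g (hsub g hg)⟩⟩
  | succ k ih =>
    have h := ih.strip hδ
    have hsub : ∀ g ∈ Fk m (k + 1) δ, g ∈ {g | ∃ f ∈ Fk m k δ,
        ∃ (μ : EuclideanSpace ℝ (Fin (m + 1))) (β : ℝ), δ ≤ ‖μ‖ ∧ g = fun ξ => f ξ * st μ β ξ} := by
      rintro g ⟨f, hf, l, hl, hl2, rfl⟩
      obtain ⟨p, l', rfl⟩ := List.exists_cons_of_length_eq_add_one hl
      refine ⟨fun ξ => f ξ * Ps l' ξ, ⟨f, hf, l', by simpa using hl, fun r hr =>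
        hl2 r (List.mem_cons_of_mem _ hr), rfl⟩, p.1, p.2, hl2 p (List.mem_cons_self), ?_⟩
      ext ξ
      simp only [Ps, List.map_cons, List.prod_cons]
      ring
    exact ⟨fun g hg => h.1 g (hsub g hg), fun q hq => by
      obtain ⟨C, hC, H⟩ := h.2 q hq
      exact ⟨C, hC, fun g hg => H g (hsub g hg)⟩⟩

open scoped ContDiff in
/-- a function with integrable Fourier transform which is equal to `exp(πs²)` on `[-1,1]` -/
lemma exists_k : ∃ (κ k : ℝ → ℂ), Integrable κ ∧ Measurable κ ∧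
    (∀ s, k s = ∫ η, κ η * ch (η * s)) ∧ ∀ s, |s| < 1 →
      k s = ((Real.exp (Real.pi * s ^ 2) : ℝ) : ℂ) := by
  set χ : ContDiffBump (0 : ℝ) := ⟨1, 2, one_pos, one_lt_two⟩ with hχ
  set g : ℝ → ℂ := fun s => ((χ s * Real.exp (Real.pi * s ^ 2) : ℝ) : ℂ) with hg
  have hg1 : HasCompactSupport g := by
    have h1 : HasCompactSupport (fun s => χ s * Real.exp (Real.pi * s ^ 2)) :=
      χ.hasCompactSupport.mul_right
    exact h1.comp_left (g := fun x : ℝ => (x : ℂ)) Complex.ofReal_zero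
  have hg2 : ContDiff ℝ ∞ g := by
    have h1 : ContDiff ℝ ∞ (fun s => χ s * Real.exp (Real.pi * s ^ 2)) :=
      χ.contDiff.mul (by fun_prop)
    exact Complex.ofRealCLM.contDiff.comp h1
  set gS : 𝓢(ℝ, ℂ) := hg1.toSchwartzMap hg2 with hgS
  have hgx : ∀ x, gS x = g x := fun x => rfl
  have h1 : Integrable g := gS.integrable
  have h2 : Integrable (𝓕 g) := by
    have h3 := (𝓕 gS).integrable (μ := (volume : Measure ℝ))
    rw [SchwartzMap.fourier_coe] at h3
    exact h3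
  have h3 : 𝓕⁻ (𝓕 g) = g := Continuous.fourierInv_fourier_eq hg2.continuous h1 h2
  have h4 : Continuous (𝓕 g) :=
    VectorFourier.fourierIntegral_continuous Real.continuous_fourierChar
      (by exact continuous_inner) h1
  refine ⟨𝓕 g, g, h2, h4.measurable, ?_, ?_⟩
  · intro s
    conv_lhs => rw [← h3]
    rw [Real.fourierInv_eq]
    apply integral_congr_ae
    refine ae_of_all _ fun η => ?_
    simp only
    rw [Circle.smul_def, Real.fourierChar_apply, smul_eq_mul, mul_comm]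
    congr 1
    unfold ch
    congr 1
    simp only [RCLike.inner_apply, conj_trivial]
    push_cast
    ring
  · intro s hs
    simp only [hg]
    rw [χ.one_of_mem_closedBall, one_mul]
    rw [mem_closedBall_zero_iff, Real.norm_eq_abs]
    exact hs.le

/-- multiplication by a product of functions of the coordinates -/
lemma mul_all {q : ℝ} (hq : 1 ≤ q) {κ k : ℝ → ℂ} (hκ : Integrable κ) (hκm : Measurable κ)
    (hk : ∀ s, k s = ∫ η, κ η * ch (η * s)) {f : EuclideanSpace ℝ (Fin (m + 1)) → ℂ}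
    (hf : Integrable f) (hfm : Measurable f) (s : Finset (Fin (m + 1))) :
    Integrable (fun ξ => f ξ * ∏ j ∈ s, k (ξ j)) ∧ Measurable (fun ξ => f ξ * ∏ j ∈ s, k (ξ j)) ∧
      Nq q (fun ξ => f ξ * ∏ j ∈ s, k (ξ j)) ≤ ((∫⁻ η, ‖κ η‖ₑ) ^ q) ^ s.card * Nq q f := by
  classical
  have hkm : Measurable k := by
    have h1 : StronglyMeasurable (Function.uncurry fun (s η : ℝ) => κ η * ch (η * s)) := by
      apply Measurable.stronglyMeasurable
      have hc : Continuous fun p : ℝ × ℝ => ch (p.2 * p.1) := ch_cont.comp (by fun_prop)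
      exact (hκm.comp measurable_snd).mul hc.measurable
    have h2 := (h1.integral_prod_right (ν := (volume : Measure ℝ))).measurable
    have h3 : k = fun s => ∫ η, (fun (s η : ℝ) => κ η * ch (η * s)) s η := by
      ext s
      exact hk s
    rw [h3]
    exact h2
  have hkb : ∀ s, ‖k s‖ ≤ ∫ η, ‖κ η‖ := by
    intro s
    rw [hk]
    refine (norm_integral_le_integral_norm _).trans (le_of_eq ?_)
    apply integral_congr_ae
    refine ae_of_all _ fun η => ?_
    simp only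
    rw [norm_mul, ch_norm, mul_one]
  induction s using Finset.induction with
  | empty =>
    simp only [Finset.prod_empty, mul_one, Finset.card_empty, pow_zero, one_mul]
    exact ⟨hf, hfm, le_rfl⟩
  | insert j s hj ih =>
    obtain ⟨i1, i2, i3⟩ := ih
    have h1 : (fun ξ : EuclideanSpace ℝ (Fin (m + 1)) => f ξ * ∏ i ∈ insert j s, k (ξ i)) =
        fun ξ => (f ξ * ∏ i ∈ s, k (ξ i)) *
          k (⟪(EuclideanSpace.single j 1 : EuclideanSpace ℝ (Fin (m + 1))), ξ⟫ + 0) := by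
      ext ξ
      rw [Finset.prod_insert hj, add_zero]
      have : ⟪(EuclideanSpace.single j 1 : EuclideanSpace ℝ (Fin (m + 1))), ξ⟫ = ξ j := by
        simp [EuclideanSpace.inner_single_left]
      rw [this]
      ring
    have hm1 : Measurable fun ξ : EuclideanSpace ℝ (Fin (m + 1)) =>
        k (⟪(EuclideanSpace.single j 1 : EuclideanSpace ℝ (Fin (m + 1))), ξ⟫ + 0) :=
      hkm.comp (by fun_prop)
    rw [h1]
    refine ⟨?_, i2.mul hm1, ?_⟩
    · exact i1.mul_bdd hm1.aestronglyMeasurable (ae_of_all _ fun ξ => hkb _)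
    · refine (mulW hq hκ hκm hk i1 i2 _ 0).trans ?_
      rw [Finset.card_insert_of_notMem hj, pow_succ]
      calc _ ≤ (∫⁻ η, ‖κ η‖ₑ) ^ q * (((∫⁻ η, ‖κ η‖ₑ) ^ q) ^ s.card * Nq q f) := by gcongr
        _ = _ := by ring

end Pool.Agent.P8H66.QP
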