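import Mathlib
import Pool.Agent.P8H66.QP.M
set_option autoImplicit false
set_option linter.unusedSectionVars false

/-! The main estimate on polytopes. -/

namespace Pool.Agent.P8H66.QP

open MeasureTheory Set Filter Topology
open Pool.Agent.TH277.HT (lint_mul lint_pi ch ch_norm ch_enorm ch_add ch_cont ch_conj plancherel)
open scoped ENNReal NNReal RealInnerProductSpace

variable {m : ℕ}

lemma cube_norm (ξ : EuclideanSpace ℝ (Fin (m + 1))) (h : ∀ j, |ξ j| < 1) : ‖ξ‖ < m + 1 := by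
  have hm : (0 : ℝ) ≤ m := Nat.cast_nonneg m
  have h1 : ‖ξ‖ ^ 2 < (m : ℝ) + 1 := by
    rw [EuclideanSpace.real_norm_sq_eq]
    calc ∑ j, ξ j ^ 2 < ∑ _j : Fin (m + 1), (1 : ℝ) := by
          apply Finset.sum_lt_sum_of_nonempty Finset.univ_nonempty
          intro j _
          rw [← sq_abs]
          have := h j
          have := abs_nonneg (ξ j)
          nlinarith
      _ = (m : ℝ) + 1 := by simp
  nlinarith [norm_nonneg ξ]

lemma half_unit (ν : EuclideanSpace ℝ (Fin (m + 1))) (hν : ‖ν‖ = 1) (c : ℝ) :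
    ∃ (μ : EuclideanSpace ℝ (Fin (m + 1))) (β : ℝ), 1 / ((m : ℝ) + 1) ≤ ‖μ‖ ∧
      ∀ ξ : EuclideanSpace ℝ (Fin (m + 1)), (∀ j, |ξ j| < 1) → (|⟪μ, ξ⟫ + β| < 1 ↔ ⟪ν, ξ⟫ < c) := by
  have hR : (0 : ℝ) < m + 1 := by positivity
  set R : ℝ := (m : ℝ) + 1 with hRdef
  have hn : ‖R⁻¹ • ν‖ = 1 / R := by
    rw [norm_smul, hν, mul_one, norm_inv, Real.norm_eq_abs, abs_of_pos hR, one_div]
  have hs : ∀ ξ : EuclideanSpace ℝ (Fin (m + 1)), (∀ j, |ξ j| < 1) → |⟪ν, ξ⟫| < R := by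
    intro ξ hξ
    calc |⟪ν, ξ⟫| ≤ ‖ν‖ * ‖ξ‖ := abs_real_inner_le_norm ν ξ
      _ = ‖ξ‖ := by rw [hν, one_mul]
      _ < R := cube_norm ξ hξ
  have key : ∀ c0 : ℝ, ∀ ξ : EuclideanSpace ℝ (Fin (m + 1)),
      (|⟪R⁻¹ • ν, ξ⟫ + -(c0 / R)| < 1 ↔ |⟪ν, ξ⟫ - c0| < R) := by
    intro c0 ξ
    have e : ⟪R⁻¹ • ν, ξ⟫ + -(c0 / R) = (⟪ν, ξ⟫ - c0) / R := by
      rw [real_inner_smul_left]
      field_simp
      ring
    rw [e, abs_div, abs_of_pos hR, div_lt_one hR]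
  rcases le_or_gt R c with h | h
  · refine ⟨R⁻¹ • ν, -(0 / R), hn.ge, fun ξ hξ => ?_⟩
    rw [key, sub_zero]
    have h1 := hs ξ hξ
    refine ⟨fun _ => lt_of_lt_of_le (lt_of_le_of_lt (le_abs_self _) h1) h, fun _ => h1⟩
  · rcases le_or_gt c (-R) with h' | h'
    · refine ⟨R⁻¹ • ν, -((2 * R) / R), hn.ge, fun ξ hξ => ?_⟩
      rw [key]
      have h1 := abs_lt.1 (hs ξ hξ)
      constructor
      · intro h2
        rw [abs_lt] at h2
        linarith [h2.1, h1.2]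
      · intro h2
        linarith [h1.1]
    · refine ⟨R⁻¹ • ν, -((c - R) / R), hn.ge, fun ξ hξ => ?_⟩
      rw [key]
      have h1 := abs_lt.1 (hs ξ hξ)
      constructor
      · intro h2
        rw [abs_lt] at h2
        linarith [h2.2]
      · intro h2
        rw [abs_lt]
        constructor <;> linarith [h1.1]

lemma half (ν : EuclideanSpace ℝ (Fin (m + 1))) (c : ℝ) :
    ∃ (μ : EuclideanSpace ℝ (Fin (m + 1))) (β : ℝ), 1 / ((m : ℝ) + 1) ≤ ‖μ‖ ∧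
      ∀ ξ : EuclideanSpace ℝ (Fin (m + 1)), (∀ j, |ξ j| < 1) → (|⟪μ, ξ⟫ + β| < 1 ↔ ⟪ν, ξ⟫ < c) := by
  by_cases hν : ν = 0
  · set e0 : EuclideanSpace ℝ (Fin (m + 1)) := EuclideanSpace.single 0 1 with he0
    have h1 : ‖e0‖ = 1 := by rw [he0]; simp
    obtain ⟨μ, β, h2, h3⟩ := half_unit e0 h1 (if 0 < c then (m : ℝ) + 1 else -((m : ℝ) + 1))
    refine ⟨μ, β, h2, fun ξ hξ => ?_⟩
    rw [h3 ξ hξ, hν, inner_zero_left]
    have h4 : |⟪e0, ξ⟫| < m + 1 := by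
      calc |⟪e0, ξ⟫| ≤ ‖e0‖ * ‖ξ‖ := abs_real_inner_le_norm e0 ξ
        _ = ‖ξ‖ := by rw [h1, one_mul]
        _ < _ := cube_norm ξ hξ
    rw [abs_lt] at h4
    split_ifs with hc
    · exact ⟨fun _ => hc, fun _ => h4.2⟩
    · exact ⟨fun h => by linarith [h4.1], fun h => absurd h hc⟩
  · have hn : 0 < ‖ν‖ := norm_pos_iff.2 hν
    have h1 : ‖‖ν‖⁻¹ • ν‖ = 1 := by
      rw [norm_smul, norm_inv, norm_norm, inv_mul_cancel₀ hn.ne']
    obtain ⟨μ, β, h2, h3⟩ := half_unit (‖ν‖⁻¹ • ν) h1 (‖ν‖⁻¹ * c)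
    refine ⟨μ, β, h2, fun ξ hξ => ?_⟩
    rw [h3 ξ hξ, real_inner_smul_left]
    exact ⟨fun h => lt_of_mul_lt_mul_left h (by positivity), fun h =>
      mul_lt_mul_of_pos_left h (by positivity)⟩

/-- **The main estimate.** -/
theorem mainN (hm : 1 ≤ m) (N : ℕ) (q : ℝ) (hq : 2 + 2 / ((m : ℝ) + 1) < q) :
    ∃ C : ℝ≥0∞, C ≠ ∞ ∧ ∀ (a : ℝ → ℂ) (ω y : EuclideanSpace ℝ (Fin (m + 1)))
      (B : EuclideanSpace ℝ (Fin (m + 1)) →ₗ[ℝ] EuclideanSpace ℝ (Fin (m + 1)))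
      (ν : Fin N → EuclideanSpace ℝ (Fin (m + 1))) (c : Fin N → ℝ), Bd a → B.IsSymmetric →
      Nq q ({ξ | (∀ j, |ξ j| < 1) ∧ ∀ i, ⟪ν i, ξ⟫ < c i}.indicator (att a ω y B)) ≤ C := by
  classical
  have hc2 : (2 : ℝ) < 2 + 2 / ((m : ℝ) + 1) := by
    have : 0 < 2 / ((m : ℝ) + 1) := by positivity
    linarith
  have hδ : (0 : ℝ) < 1 / ((m : ℝ) + 1) := by positivity
  obtain ⟨κ, k, hκ, hκm, hk, hk1⟩ := exists_k
  obtain ⟨hFd, hFq⟩ := Fk_fam hm hδ ((m + 1) + N)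
  obtain ⟨C, hC, H⟩ := hFq q hq
  have hK : ∫⁻ η, ‖κ η‖ₑ ≠ ∞ := by
    have := hκ.2
    rw [hasFiniteIntegral_iff_enorm] at this
    exact this.ne
  refine ⟨((∫⁻ η, ‖κ η‖ₑ) ^ q) ^ (m + 1) * C, ?_, ?_⟩
  · exact ENNReal.mul_ne_top (ENNReal.pow_ne_top
      (ENNReal.rpow_ne_top_of_nonneg (by linarith) hK)) hC
  intro a ω y B ν c ha hB
  choose μ β hμ hμ2 using fun i => half (ν i) (c i)
  set l : List (EuclideanSpace ℝ (Fin (m + 1)) × ℝ) :=
    List.ofFn (fun j : Fin (m + 1) => ((EuclideanSpace.single j 1 :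
      EuclideanSpace ℝ (Fin (m + 1))), (0 : ℝ))) ++ List.ofFn (fun i => (μ i, β i)) with hl
  have hlen : l.length = (m + 1) + N := by
    rw [hl, List.length_append, List.length_ofFn, List.length_ofFn]
  have hle : ∀ p ∈ l, 1 / ((m : ℝ) + 1) ≤ ‖p.1‖ := by
    intro p hp
    rw [hl, List.mem_append, List.mem_ofFn, List.mem_ofFn] at hp
    rcases hp with ⟨j, rfl⟩ | ⟨i, rfl⟩
    · simp only [PiLp.norm_single, norm_one]
      rw [div_le_one (by positivity)]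
      have : (0 : ℝ) ≤ m := Nat.cast_nonneg m
      linarith
    · exact hμ i
  have hmem : (fun ξ => (att a ω y B ξ * GG ξ) * Ps l ξ) ∈ Fk m ((m + 1) + N) (1 / ((m : ℝ) + 1)) :=
    ⟨_, ⟨a, ω, y, B, ha, hB, rfl⟩, l, hlen, hle, rfl⟩
  have hd := hFd _ hmem
  obtain ⟨-, -, h3⟩ := mul_all (q := q) (by linarith) hκ hκm hk hd.int hd.meas
    (Finset.univ : Finset (Fin (m + 1)))
  have h4 : {ξ : EuclideanSpace ℝ (Fin (m + 1)) |
      (∀ j, |ξ j| < 1) ∧ ∀ i, ⟪ν i, ξ⟫ < c i}.indicator (att a ω y B) =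
      fun ξ => ((att a ω y B ξ * GG ξ) * Ps l ξ) * ∏ j, k (ξ j) := by
    ext ξ
    have hPs : Ps l ξ = (∏ j : Fin (m + 1), st (EuclideanSpace.single j 1) 0 ξ) *
        ∏ i, st (μ i) (β i) ξ := by
      unfold Ps
      rw [hl, List.map_append, List.prod_append, List.map_ofFn, List.map_ofFn, List.prod_ofFn,
        List.prod_ofFn]
      rfl
    have hst : ∀ j : Fin (m + 1), st (EuclideanSpace.single j 1) 0 ξ =
        if |ξ j| < 1 then 1 else 0 := by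
      intro j
      unfold st
      have : ⟪(EuclideanSpace.single j 1 : EuclideanSpace ℝ (Fin (m + 1))), ξ⟫ = ξ j := by
        simp [EuclideanSpace.inner_single_left]
      rw [this, add_zero]
    by_cases h5 : ∀ j, |ξ j| < 1
    · have e1 : ∏ j : Fin (m + 1), st (EuclideanSpace.single j 1) 0 ξ = 1 := by
        apply Finset.prod_eq_one
        intro j _
        rw [hst, if_pos (h5 j)]
      have e2 : GG ξ * ∏ j, k (ξ j) = 1 := by
        have e3 : ∏ j, k (ξ j) = ((∏ j, Real.exp (Real.pi * ξ j ^ 2) : ℝ) : ℂ) := by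
          rw [Complex.ofReal_prod]
          refine Finset.prod_congr rfl fun j _ => ?_
          exact hk1 _ (h5 j)
        rw [e3]
        unfold GG
        rw [← Complex.ofReal_mul, ← Real.exp_sum, ← Real.exp_add, EuclideanSpace.real_norm_sq_eq,
          ← Finset.mul_sum, neg_add_cancel, Real.exp_zero, Complex.ofReal_one]
      by_cases h6 : ∀ i, ⟪ν i, ξ⟫ < c i
      · have e4 : ∏ i, st (μ i) (β i) ξ = 1 := by
          apply Finset.prod_eq_one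
          intro i _
          unfold st
          rw [if_pos ((hμ2 i ξ h5).2 (h6 i))]
        rw [indicator_of_mem (show ξ ∈ {ξ : EuclideanSpace ℝ (Fin (m + 1)) |
          (∀ j, |ξ j| < 1) ∧ ∀ i, ⟪ν i, ξ⟫ < c i} from ⟨h5, h6⟩), hPs, e1, e4]
        calc att a ω y B ξ = att a ω y B ξ * (GG ξ * ∏ j, k (ξ j)) := by rw [e2, mul_one]
          _ = _ := by ring
      · rw [indicator_of_notMem (fun h => h6 h.2), hPs]
        push Not at h6
        obtain ⟨i, hi⟩ := h6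
        have e4 : ∏ i, st (μ i) (β i) ξ = 0 := by
          apply Finset.prod_eq_zero (Finset.mem_univ i)
          unfold st
          rw [if_neg]
          rw [hμ2 i ξ h5]
          exact not_lt.2 hi
        rw [e4]
        ring
    · rw [indicator_of_notMem (fun h => h5 h.1), hPs]
      push Not at h5
      obtain ⟨j, hj⟩ := h5
      have e4 : ∏ j : Fin (m + 1), st (EuclideanSpace.single j 1) 0 ξ = 0 := by
        apply Finset.prod_eq_zero (Finset.mem_univ j)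
        rw [hst, if_neg (not_lt.2 hj)]
      rw [e4]
      ring
  rw [h4]
  refine h3.trans ?_
  rw [Finset.card_univ, Fintype.card_fin]
  gcongr
  exact H _ hmem

end Pool.Agent.P8H66.QP
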